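import Pool.Agent.H435.CP.Points
import Pool.Agent.H435.PC.FinCover
import Pool.Graph.R_pool_sql_team_seeded_63374d34.N126.RC.Final

/-!
Campana points of generic C-pairs over finitely generated domains.
-/

set_option autoImplicit false

open MvPolynomial FF Pool.Agent.W603.LV Pool.Agent.TH145.GH
open Pool.Agent.TH145.GC (exists_big)
open Pool.Agent.TH145.GD (St deg_St)
open Pool.Agent.TH145.MG (DimLE)
open Pool.Agent.TH145.GK (indep_scale)
open Pool.Agent.N126.RC (Generic full_systems generic_closure)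

namespace Pool.Agent.H435.CP

open scoped Classical in
/-- Finiteness of the points, if the ratios of the coefficients are independent. -/
theorem fin_campana' {k0 K : Type} [Field k0] [Field K] [Algebra k0 K] [IsAlgClosed K]
    [CharZero K] [IsAlgClosed k0] {n m N : ℕ} {A : Type} [Fintype A] {dg β : A → ℕ} (Cs : Finset A)
    (hd : N * (2 * m + 1) + ∑ a ∈ Finset.univ.filter (fun a => a ∉ Cs), β a * dg a <
      N * (∑ a, dg a + Cs.card))
    (V : Set (MvPolynomial (Fin (n + 1)) k0)) (hV : DimLE k0 V m)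
    {J : A → Type} [∀ a, Fintype (J a)] (P : ∀ a, J a → MvPolynomial (Fin (n + 1)) k0)
    (hP : ∀ a j, (P a j).IsHomogeneous (dg a))
    (c0 : Fin (n + 1)) (hSt : ∀ a, ∀ I ∈ St c0 (dg a), ∃ j, P a j = monomial I 1)
    (cf : ∀ a, J a → K) (j0 : ∀ a, J a) (h0 : ∀ a, cf a (j0 a) ≠ 0)
    (hind : AlgebraicIndependent k0 fun p : (Σ a, {j : J a // j ≠ j0 a}) =>
      cf p.1 p.2.1 / cf p.1 (j0 p.1))
    {F : A → MvPolynomial (Fin (n + 1)) K}
    (hF : ∀ a, F a = ∑ j, C (cf a j) * map (algebraMap k0 K) (P a j))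
    {R : Type} [Field R] [Algebra k0 R] (ψ : R →ₐ[k0] K) (T : Finset R)
    (hT : IntermediateField.adjoin k0 (T : Set R) = ⊤) (G : A → MvPolynomial (Fin (n + 1)) R)
    (hG : ∀ a, map (ψ : R →+* K) (G a) = F a) :
    {x : Fin (n + 1) → R | x c0 = 1 ∧ (∀ f ∈ V, aeval x f = 0) ∧ (∀ a ∈ Cs, eval x (G a) = 0) ∧
      (∀ a, a ∉ Cs → eval x (G a) ≠ 0) ∧
      ∀ Q : Place k0 R, IsDiv k0 (T : Set R) Q → Cond Cs β N G Q x}.Finite := by
  obtain ⟨K', _, _, hK', hc, t, ht⟩ := exists_big K A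
  let _ : Algebra k0 K' := ((algebraMap K K').comp (algebraMap k0 K)).toAlgebra
  have hst : IsScalarTower k0 K K' := IsScalarTower.of_algebraMap_eq fun _ => rfl
  have h1 := indep_scale (k0 := k0) (K' := K') cf j0 h0 hind ht
  obtain ⟨cf', hcf'⟩ : ∃ cf' : ∀ a, J a → K', ∀ a j, cf' a j =
    t a / algebraMap K K' (cf a (j0 a)) * algebraMap K K' (cf a j) := ⟨_, fun _ _ => rfl⟩
  obtain ⟨H, hH⟩ : ∃ H : A → MvPolynomial (Fin (n + 1)) K', ∀ a, H a =
    ∑ j, MvPolynomial.C (cf' a j) * map (algebraMap k0 K') (P a j) := ⟨_, fun _ => rfl⟩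
  have h5 : AlgebraicIndependent k0 (fun p : (Σ a, J a) => cf' p.1 p.2) := by
    simp only [hcf']
    exact h1
  have ha0 : ∀ a, algebraMap K K' (cf a (j0 a)) ≠ 0 := fun a => by
    rw [Ne, _root_.map_eq_zero]; exact h0 a
  have ht0 : ∀ a, t a ≠ 0 := fun a => by
    intro h5
    have h6 : Transcendental K (t a) := ht.transcendental a
    rw [h5] at h6
    exact h6 (by
      have := isAlgebraic_algebraMap (R := K) (A := K') 0
      rwa [map_zero] at this)
  have hHF : ∀ a, H a = C (t a / algebraMap K K' (cf a (j0 a))) *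
      map (algebraMap K K') (F a) := by
    intro a
    rw [hH, hF, map_sum, Finset.mul_sum]
    refine Finset.sum_congr rfl fun j _ => ?_
    rw [map_mul, map_C, map_map, ← mul_assoc, ← C_mul, hcf']
    rfl
  refine fin_campana (k0 := k0) (K := K') Cs hd V hV P hP c0 hSt hH h5
    ((IsScalarTower.toAlgHom k0 K K').comp ψ) T hT G
    (fun a => t a / algebraMap K K' (cf a (j0 a))) (fun a => div_ne_zero (ht0 a) (ha0 a))
    fun a => ?_
  rw [hHF, ← hG, map_map]
  rfl

section numbers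

variable {A : Type} [Fintype A] [DecidableEq A]

omit [DecidableEq A] in
/-- Weights with a common denominator. -/
theorem exists_weights (w : A → ℚ) (hw : ∀ a, 0 ≤ w a) :
    ∃ (N : ℕ) (β : A → ℕ), 0 < N ∧ ∀ a, w a = β a / N := by
  obtain ⟨N, hN⟩ : ∃ N, N = ∏ a, (w a).den := ⟨_, rfl⟩
  have hN0 : 0 < N := by
    rw [hN]
    exact Finset.prod_pos fun a _ => (w a).den_pos
  have h1 : ∀ a, ∃ b : ℕ, w a = b / N := by
    intro a
    obtain ⟨q, hq⟩ : (w a).den ∣ N := by
      rw [hN]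
      exact Finset.dvd_prod_of_mem _ (Finset.mem_univ a)
    have hq0 : q ≠ 0 := by
      rintro rfl
      rw [mul_zero] at hq
      omega
    refine ⟨(w a).num.toNat * q, ?_⟩
    have h2 : (((w a).num.toNat : ℕ) : ℚ) = (w a).num := by
      have h3 := Int.toNat_of_nonneg (Rat.num_nonneg.2 (hw a))
      exact_mod_cast h3
    have h3 : ((w a).den : ℚ) ≠ 0 := by exact_mod_cast (w a).den_nz
    have h4 : (q : ℚ) ≠ 0 := by exact_mod_cast hq0
    rw [Nat.cast_mul, h2, hq, Nat.cast_mul, mul_div_mul_right _ _ h4]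
    exact (Rat.num_div_den (w a)).symm
  choose β hβ using h1
  exact ⟨N, β, hN0, hβ⟩

theorem num_weights {m N : ℕ} {d β : A → ℕ} {w : A → ℚ} (hN : 0 < N) (hw : ∀ a, w a = β a / N)
    (C : Finset A)
    (hd : (2 * m + 1 : ℚ) < ∑ a ∈ C, ((d a : ℚ) + 1) + ∑ a ∈ Cᶜ, (d a : ℚ) * (1 - w a)) :
    N * (2 * m + 1) + ∑ a ∈ Cᶜ, β a * d a < N * (∑ a, d a + C.card) := by
  have h0 : (0 : ℚ) < N := by exact_mod_cast hN
  have h2 : ∑ a ∈ Cᶜ, (d a : ℚ) * (1 - w a) = ∑ a ∈ Cᶜ, (d a : ℚ) -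
      (∑ a ∈ Cᶜ, (β a : ℚ) * d a) / N := by
    rw [Finset.sum_div, ← Finset.sum_sub_distrib]
    exact Finset.sum_congr rfl fun a _ => by rw [hw]; ring
  have h5 : ∑ a ∈ C, ((d a : ℚ) + 1) = ∑ a ∈ C, (d a : ℚ) + C.card := by
    rw [Finset.sum_add_distrib]
    simp
  have h6 : ∑ a ∈ C, (d a : ℚ) + ∑ a ∈ Cᶜ, (d a : ℚ) = ∑ a, (d a : ℚ) :=
    Finset.sum_add_sum_compl C _
  rw [h2, h5] at hd
  have h7 : (2 * m + 1 : ℚ) + (∑ a ∈ Cᶜ, (β a : ℚ) * d a) / N < ∑ a, (d a : ℚ) + C.card := by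
    linarith
  have h9 := mul_lt_mul_of_pos_left h7 h0
  rw [mul_add, mul_div_cancel₀ _ h0.ne'] at h9
  exact_mod_cast h9

end numbers

/-- The condition of Campana for the point `x` at the place `Q`, with the weights `w a = 1 / m_a`, in
the weak form: if `x` meets some of the divisors `F a = 0`, `a ∉ C`, at `Q`, then the sum of the
multiplicities of the intersection, divided by the `m_a`, is at least `u` (for integral points
`u = 1`, and for maps of C-pairs `1 - u` is the coefficient of `Q` in the boundary). -/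
def CampanaAt {κ L : Type} [Field κ] [Field L] [Algebra κ L] {n : ℕ} {A : Type} [Fintype A]
    [DecidableEq A] (u : ℚ) (C : Finset A) (w : A → ℚ) (F : A → MvPolynomial (Fin (n + 1)) L)
    (Q : Place κ L) (x : Fin (n + 1) → L) : Prop :=
  ∀ l, x l ≠ 0 → (∀ j, Q.Reg (x j / x l)) →
    (∃ a ∈ Cᶜ, 0 < Q.ord (eval (fun j => x j / x l) (F a))) →
    u ≤ ∑ a ∈ Cᶜ, w a * (Q.ord (eval (fun j => x j / x l) (F a)) : ℚ)

theorem campana_iff {κ L : Type} [Field κ] [Field L] [Algebra κ L] {n N : ℕ} {A : Type}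
    [Fintype A] [DecidableEq A] {C : Finset A} {w : A → ℚ} {β : A → ℕ} (hN : 0 < N)
    (hw : ∀ a, w a = β a / N) {F : A → MvPolynomial (Fin (n + 1)) L}
    {Q : Place κ L} {x : Fin (n + 1) → L} : CampanaAt 1 C w F Q x ↔ Cond C β N F Q x := by
  have h0 : (0 : ℚ) < N := by exact_mod_cast hN
  have h1 : ∀ (S : Finset A), (∀ a, a ∈ S ↔ a ∉ C) → ∀ v : A → ℤ,
      (1 ≤ ∑ a ∈ Cᶜ, w a * (v a : ℚ)) ↔ (N : ℤ) ≤ ∑ a ∈ S, (β a : ℤ) * v a := by
    intro S hS v
    have hC : S = Cᶜ := by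
      ext a
      rw [hS, Finset.mem_compl]
    have h2 : ∑ a ∈ Cᶜ, w a * (v a : ℚ) = (∑ a ∈ Cᶜ, (β a : ℚ) * v a) / N := by
      rw [Finset.sum_div]
      exact Finset.sum_congr rfl fun a _ => by rw [hw]; ring
    rw [h2, le_div_iff₀ h0, one_mul, hC]
    exact_mod_cast Iff.rfl
  unfold CampanaAt Cond
  constructor
  · intro h l hl hreg hpos
    refine (h1 _ (fun a => ?_) _).1 (h l hl hreg ?_)
    · simp
    · obtain ⟨a, ha, hpa⟩ := hpos
      exact ⟨a, Finset.mem_compl.2 ha, hpa⟩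
  · intro h l hl hreg hpos
    have h2 := h l hl hreg (by
      obtain ⟨a, ha, hpa⟩ := hpos
      exact ⟨a, Finset.mem_compl.1 ha, hpa⟩)
    refine (h1 _ (fun a => ?_) _).2 h2
    simp

theorem CampanaAt.smul {κ L : Type} [Field κ] [Field L] [Algebra κ L] {n : ℕ} {A : Type} [Fintype A]
    [DecidableEq A] {u : ℚ} {C : Finset A} {w : A → ℚ} {F : A → MvPolynomial (Fin (n + 1)) L}
    {Q : Place κ L} {x : Fin (n + 1) → L} (h : CampanaAt u C w F Q x) {t : L} (ht : t ≠ 0) :
    CampanaAt u C w F Q (t • x) := by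
  have h1 : ∀ l j, (t • x) j / (t • x) l = x j / x l := fun l j => by
    rw [Pi.smul_apply, Pi.smul_apply, smul_eq_mul, smul_eq_mul, mul_div_mul_left _ _ ht]
  intro l hl
  simp only [h1]
  exact h l fun h0 => hl (by rw [Pi.smul_apply, h0, smul_zero])

/-- There are only finitely many points `x` over each finitely generated domain `k[T]`, in the variety
`V ∩ {F c = 0, c ∈ C}`, not in the hypersurfaces `F a = 0`, `a ∉ C`, which satisfy the condition of
Campana at all the divisors of `Spec k[T]`. Here `R` is the field of fractions of `k[T]`, `T ⊂ R` is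
finite, and the forms `F a` are defined over `R`. -/
def FiniteCampana (k : Type) {K : Type} [Field k] [Field K] [Algebra k K] {n : ℕ} {A : Type}
    [Fintype A] [DecidableEq A] (V : Set (MvPolynomial (Fin (n + 1)) k))
    (F : A → MvPolynomial (Fin (n + 1)) K) (C : Finset A) (w : A → ℚ) : Prop :=
  ∀ (R : IntermediateField k K) (T : Finset R), IntermediateField.adjoin k (T : Set R) = ⊤ →
    ∀ G : A → MvPolynomial (Fin (n + 1)) R, (∀ a, map (algebraMap R K) (G a) = F a) →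
    ∃ S : Finset (Fin (n + 1) → R), ∀ x : Fin (n + 1) → R, x ≠ 0 → (∀ f ∈ V, aeval x f = 0) →
      (∀ a ∈ C, eval x (G a) = 0) → (∀ a ∈ Cᶜ, eval x (G a) ≠ 0) →
      (∀ Q : Place k R, IsDiv k (T : Set R) Q → CampanaAt 1 C w G Q x) →
      ∃ s ∈ S, ∃ t : R, x = t • s

theorem finite_campana {k K : Type} [Field k] [Field K] [IsAlgClosed K] [CharZero K] [Algebra k K]
    {n m : ℕ} {A : Type} [Fintype A] [DecidableEq A] {d : A → ℕ}
    (V : Set (MvPolynomial (Fin (n + 1)) (algebraicClosure k K)))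
    (hVh : ∀ f ∈ V, ∃ e, f.IsHomogeneous e) (hV : DimLE (algebraicClosure k K) V m)
    (F : A → MvPolynomial (Fin (n + 1)) K) (hF : Generic k d F) (C : Finset A) (w : A → ℚ)
    (hw : ∀ a, 0 ≤ w a)
    (hd : (2 * m + 1 : ℚ) < ∑ a ∈ C, ((d a : ℚ) + 1) + ∑ a ∈ Cᶜ, (d a : ℚ) * (1 - w a)) :
    FiniteCampana (algebraicClosure k K) V F C w := by
  intro R T hT G hG
  have hac : IsAlgClosed (algebraicClosure k K) := (algebraicClosure.isAlgClosure k K).isAlgClosed
  have hF' := generic_closure hF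
  have hFh := hF.1
  obtain ⟨hft, P, cf, j0, hP, hSt, h0, hind, hFP⟩ := full_systems hF'
  obtain ⟨N, β, hN, hβ⟩ := exists_weights w hw
  have hnum := num_weights hN hβ C hd
  have hGh : ∀ a, (G a).IsHomogeneous (d a) := fun a => by
    refine MvPolynomial.IsHomogeneous.of_map (f := algebraMap R K) (algebraMap R K).injective ?_
    rw [hG]
    exact hFh a
  have hfin := fun (c : Fin (n + 1)) =>
    fin_campana' (N := N) (m := m) (β := β) C (by
      have h6 : ∀ S : Finset A, (∀ a, a ∈ S ↔ a ∉ C) → N * (2 * m + 1) +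
          ∑ a ∈ S, β a * d a < N * (∑ a, d a + C.card) := by
        intro S hS
        have h7 : S = Cᶜ := by
          ext a
          rw [hS, Finset.mem_compl]
        rw [h7]
        exact hnum
      exact h6 _ fun a => by simp) V hV P hP c (hSt c) cf j0 h0 hind hFP R.val T hT G
      (fun a => by rw [← hG]; rfl)
  refine ⟨(Set.finite_iUnion hfin).toFinset, fun x hx hxV hxC hxF hxQ => ?_⟩
  obtain ⟨c, hc⟩ : ∃ c, x c ≠ 0 := by
    by_contra h
    push Not at h
    exact hx (funext h)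
  refine ⟨(x c)⁻¹ • x, ?_, x c, ?_⟩
  · rw [Set.Finite.mem_toFinset, Set.mem_iUnion]
    refine ⟨c, ?_, fun f hf => ?_, fun a ha => ?_, fun a ha => ?_, fun Q hQ => ?_⟩
    · rw [Pi.smul_apply, smul_eq_mul, inv_mul_cancel₀ hc]
    · obtain ⟨e, he⟩ := hVh f hf
      rw [Pool.Agent.TH145.MG.aeval_smul he, hxV f hf, mul_zero]
    · rw [eval_smul_hom (hGh a), hxC a ha, mul_zero]
    · rw [eval_smul_hom (hGh a)]
      exact mul_ne_zero (pow_ne_zero _ (inv_ne_zero hc)) (hxF a (Finset.mem_compl.2 ha))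
    · exact (campana_iff hN hβ).1 ((hxQ Q hQ).smul (inv_ne_zero hc))
  · rw [smul_smul, mul_inv_cancel₀ hc, one_smul]

end Pool.Agent.H435.CP
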