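import Pool.Agent.H435.CP.Rel
import Pool.Graph.R_seed8.TH145.GH.Free
import Pool.Graph.R_seed8.TH145.GH.Lim2
import Pool.Graph.R_seed8.TH145.MW.Mov
import Pool.Graph.R_seed8.TH145.MW.Cramer

/-!
Linear disjointness of a differential field and the constants, and the regularity of limits of
regular functions at moving places.
-/

set_option autoImplicit false

open FF Pool.Agent.W603.LV Pool.Agent.W602.RG
open Pool.Agent.TH145.GH

namespace Pool.Agent.H435.CP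

/-- A linear relation with constant coefficients over a differential field descends. -/
theorem disj {Ω : Type} [Field Ω] (D : Derivation ℤ Ω Ω) (Λ : Subfield Ω)
    (hD : ∀ x ∈ Λ, D x ∈ Λ) {J : Type} (n : ℕ) : ∀ (s : Finset J), s.card = n →
    ∀ (e : J → Ω) (b : Ω), (∀ j ∈ s, e j ∈ Λ) → b ∈ Λ → ∀ γ : J → Ω, (∀ j ∈ s, D (γ j) = 0) →
    ∑ j ∈ s, γ j * e j = b →
    ∃ γ' : J → Ω, (∀ j ∈ s, γ' j ∈ Λ ∧ D (γ' j) = 0) ∧ ∑ j ∈ s, γ' j * e j = b := by
  classical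
  induction n with
  | zero =>
    intro s hs e b _ _ γ _ h
    rw [Finset.card_eq_zero] at hs
    subst hs
    exact ⟨fun _ => 0, by simp, by rw [← h]; simp⟩
  | succ n ih =>
    intro s hs e b he hb γ hγ h
    obtain ⟨j0, hj0⟩ : s.Nonempty := Finset.card_pos.1 (by omega)
    have hcard : (s.erase j0).card = n := by
      rw [Finset.card_erase_of_mem hj0, hs]
      rfl
    have hsub : ∀ j ∈ s.erase j0, j ∈ s := fun j hj => Finset.mem_of_mem_erase hj
    rw [← Finset.add_sum_erase s _ hj0] at h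
    by_cases h0 : e j0 = 0
    · rw [h0, mul_zero, zero_add] at h
      obtain ⟨γ', h1, h2⟩ := ih (s.erase j0) hcard e b (fun j hj => he j (hsub j hj)) hb γ
        (fun j hj => hγ j (hsub j hj)) h
      obtain ⟨δ, hδ⟩ : ∃ δ : J → Ω, ∀ j, δ j = if j = j0 then 0 else γ' j := ⟨_, fun _ => rfl⟩
      refine ⟨δ, fun j hj => ?_, ?_⟩
      · rw [hδ]
        split_ifs with hjj
        · exact ⟨zero_mem _, map_zero _⟩
        · exact h1 j (Finset.mem_erase.2 ⟨hjj, hj⟩)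
      · rw [← Finset.add_sum_erase s _ hj0, h0, mul_zero, zero_add, ← h2]
        refine Finset.sum_congr rfl fun j hj => ?_
        rw [hδ, if_neg (Finset.ne_of_mem_erase hj)]
    · obtain ⟨e', he'⟩ : ∃ e' : J → Ω, ∀ j, e' j = e j / e j0 := ⟨_, fun _ => rfl⟩
      have he'Λ : ∀ j ∈ s, e' j ∈ Λ := fun j hj => by
        rw [he']
        exact div_mem (he j hj) (he j0 hj0)
      have hb' : b / e j0 ∈ Λ := div_mem hb (he j0 hj0)
      have h' : γ j0 + ∑ j ∈ s.erase j0, γ j * e' j = b / e j0 := by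
        rw [← h, add_div, mul_div_cancel_right₀ _ h0, Finset.sum_div]
        congr 1
        refine Finset.sum_congr rfl fun j _ => ?_
        rw [he', mul_div_assoc]
      have h1 : ∑ j ∈ s.erase j0, γ j * D (e' j) = D (b / e j0) := by
        rw [← h', map_add, hγ j0 hj0, zero_add, map_sum]
        refine Finset.sum_congr rfl fun j hj => ?_
        rw [D.leibniz, hγ j (hsub j hj), smul_zero, add_zero, smul_eq_mul]
      obtain ⟨γ', h2, h3⟩ := ih (s.erase j0) hcard (fun j => D (e' j)) (D (b / e j0))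
        (fun j hj => hD _ (he'Λ j (hsub j hj))) (hD _ hb') γ (fun j hj => hγ j (hsub j hj)) h1
      obtain ⟨g, hg⟩ : ∃ g, g = b / e j0 - ∑ j ∈ s.erase j0, γ' j * e' j := ⟨_, rfl⟩
      have hgΛ : g ∈ Λ := by
        rw [hg]
        exact sub_mem hb' (sum_mem fun j hj => mul_mem (h2 j hj).1 (he'Λ j (hsub j hj)))
      have hgD : D g = 0 := by
        rw [hg, map_sub, map_sum, ← h3, sub_eq_zero]
        refine Finset.sum_congr rfl fun j hj => ?_
        rw [D.leibniz, (h2 j hj).2, smul_zero, add_zero, smul_eq_mul]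
      obtain ⟨δ, hδ⟩ : ∃ δ : J → Ω, ∀ j, δ j = if j = j0 then g else γ' j := ⟨_, fun _ => rfl⟩
      refine ⟨δ, fun j hj => ?_, ?_⟩
      · rw [hδ]
        split_ifs with hjj
        · exact ⟨hgΛ, hgD⟩
        · exact h2 j (Finset.mem_erase.2 ⟨hjj, hj⟩)
      · rw [← Finset.add_sum_erase s _ hj0, hδ, if_pos rfl]
        have h4 : ∑ j ∈ s.erase j0, δ j * e j =
            (∑ j ∈ s.erase j0, γ' j * e' j) * e j0 := by
          rw [Finset.sum_mul]
          refine Finset.sum_congr rfl fun j hj => ?_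
          rw [hδ, if_neg (Finset.ne_of_mem_erase hj), he', mul_assoc, div_mul_cancel₀ _ h0]
        rw [h4, ← add_mul, hg, sub_add_cancel, div_mul_cancel₀ _ h0]

section reg

variable {k L : Type} [Field k] [Field L] [Algebra k L] (P : Place k L)

/-- If `w + g ^ M` is regular and the pole of `w` has order less than `M`, then `w` and `g` are
regular. -/
theorem reg_pow_add {w g : L} {M : ℕ} (hM : 0 < M) (hw : -(M : ℤ) < P.ord w)
    (h : P.Reg (w + g ^ M)) : P.Reg w ∧ P.Reg g := by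
  have hg : P.Reg g := by
    by_contra hg
    have hg0 : g ≠ 0 := fun h0 => hg (Or.inl h0)
    have hg1 : P.ord g < 0 := by
      by_contra hcon
      exact hg (Or.inr (not_lt.1 hcon))
    have hgM : g ^ M ≠ 0 := pow_ne_zero _ hg0
    have h1 : P.ord (g ^ M) ≤ -(M : ℤ) := by
      rw [P.ord_pow]
      have h2 : (M : ℤ) * P.ord g ≤ M * (-1) := mul_le_mul_of_nonneg_left (by omega) (by positivity)
      linarith
    by_cases hw0 : w = 0
    · rw [hw0, zero_add] at h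
      rw [hw0, P.ord_zero] at hw
      rcases h with h | h
      · exact hgM h
      · omega
    · have h2 := P.ord_add_eq (f := g ^ M) (g := w) hgM hw0 (by omega)
      rw [add_comm] at h
      rcases h with h | h
      · exact h2.1 h
      · rw [h2.2] at h
        omega
  refine ⟨?_, hg⟩
  have h1 : w = (w + g ^ M) + -(g ^ M) := by ring
  rw [h1]
  refine P.reg_add h (P.reg_neg ?_)
  have h2 : Ge P 0 g := hg
  have h3 := h2.pow M
  rwa [mul_zero] at h3

end reg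

section il

variable {K : Type} [Field K] {κi : Subfield K} {Li : IntermediateField κi K}
  [IsAlgClosed κi] [CharZero κi] [IsFF κi Li]
  {κ : Subfield (Om K)} {Λ : IntermediateField κ (Om K)} (P : Place κ Λ)
  (δ : Derivation ℤ K K)

/-- Limits of functions that are regular where `w` is regular. -/
theorem il_one (hδ : ∀ c ∈ κi, δ c = 0) (hΛ : ∀ x ∈ Λ, hat δ x ∈ Λ)
    (hP : ∀ f : Λ, f ≠ 0 → hat δ (f : Om K) = 0 → P.ord f = 0) {w ρ : ℕ → Li} {H : ℕ}
    (hw : ∀ n, hgt κi (w n) ≤ H) (hρ : ∀ n, hgt κi (ρ n) ≤ H)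
    (hreg : ∀ᶠ n in (Filter.hyperfilter ℕ : Filter ℕ),
      ∀ Q : Place κi Li, Q.Reg (w n) → Q.Reg (ρ n)) {w' ρ' : Λ}
    (hw' : (w' : Om K) = Om.mk fun n => (w n : K))
    (hρ' : (ρ' : Om K) = Om.mk fun n => (ρ n : K)) (hwP : P.Reg w') : P.Reg ρ' := by
  classical
  obtain ⟨M, hM⟩ : ∃ M, M = H + 1 := ⟨_, rfl⟩
  have h1 : ∀ n, ∃ γ : ℕ → ℕ → κi, (∀ Q : Place κi Li, Q.Reg (w n) → Q.Reg (ρ n)) →
      ρ n ^ M = ∑ j ∈ Finset.range M, ∑ i ∈ Finset.range (M + 1),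
      algebraMap κi Li (γ j i) * (w n ^ i * ρ n ^ j) := by
    intro n
    by_cases hn : ∀ Q : Place κi Li, Q.Reg (w n) → Q.Reg (ρ n)
    · have hHM : (H : ℤ) ≤ M := by omega
      obtain ⟨γ, hγ⟩ := int_rel (H := M) (by omega) ((hw n).trans hHM) ((hρ n).trans hHM) hn
      exact ⟨γ, fun _ => hγ⟩
    · exact ⟨fun _ _ => 0, fun h => absurd h hn⟩
  choose γ hγ using h1
  obtain ⟨g, hg⟩ : ∃ g : ℕ × ℕ → Om K, ∀ p, g p = Om.mk fun n => (γ n p.1 p.2 : K) :=
    ⟨_, fun _ => rfl⟩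
  have hrel : ∑ p ∈ Finset.range M ×ˢ Finset.range (M + 1),
      g p * ((w' : Om K) ^ p.2 * (ρ' : Om K) ^ p.1) = (ρ' : Om K) ^ M := by
    have h2 : ∀ p, g p * ((w' : Om K) ^ p.2 * (ρ' : Om K) ^ p.1) =
        Om.mk fun n => (γ n p.1 p.2 : K) * ((w n : K) ^ p.2 * (ρ n : K) ^ p.1) := by
      intro p
      rw [hg, hw', hρ']
      rfl
    rw [Finset.sum_congr rfl fun p _ => h2 p, hρ',
      ← Pool.Agent.W61.RG.GSP.mk_sum _ (fun (p : ℕ × ℕ) n =>
        (γ n p.1 p.2 : K) * ((w n : K) ^ p.2 * (ρ n : K) ^ p.1))]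
    change _ = Om.mk fun n => (ρ n : K) ^ M
    rw [Om.mk_eq]
    filter_upwards [hreg] with n hn
    have h3 := congrArg (fun z : Li => (z : K)) (hγ n hn)
    rw [Finset.sum_product]
    change (ρ n : K) ^ M = ((∑ j ∈ Finset.range M, ∑ i ∈ Finset.range (M + 1),
      algebraMap κi Li (γ n j i) * (w n ^ i * ρ n ^ j) : Li) : K) at h3
    rw [h3]
    push_cast
    rfl
  have hwm : (w' : Om K) ∈ Λ.toSubfield := w'.2
  have hρm : (ρ' : Om K) ∈ Λ.toSubfield := ρ'.2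
  obtain ⟨γ', hγ', hrel'⟩ := disj (hat δ) Λ.toSubfield hΛ _ _ rfl
    (fun p : ℕ × ℕ => (w' : Om K) ^ p.2 * (ρ' : Om K) ^ p.1) ((ρ' : Om K) ^ M)
    (fun p _ => mul_mem (pow_mem hwm _) (pow_mem hρm _)) (pow_mem hρm _) g
    (fun p _ => by
      rw [hg, hat_mk]
      have h4 : ∀ n, δ (γ n p.1 p.2 : K) = 0 := fun n => hδ _ (γ n p.1 p.2).2
      simp only [h4]
      rfl) hrel
  by_contra hcon
  have hρ0 : ρ' ≠ 0 := fun h0 => hcon (Or.inl h0)
  have hρ1 : P.ord ρ' < 0 := by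
    by_contra h5
    exact hcon (Or.inr (not_lt.1 h5))
  have hterm : ∀ p ∈ Finset.range M ×ˢ Finset.range (M + 1), ∃ e : Λ,
      (e : Om K) = γ' p * ((w' : Om K) ^ p.2 * (ρ' : Om K) ^ p.1) ∧
      Ge P ((M - 1 : ℤ) * P.ord ρ') e := by
    intro p hp
    have hp1 : p.1 < M := Finset.mem_range.1 (Finset.mem_product.1 hp).1
    obtain ⟨h6, h7⟩ := hγ' p hp
    refine ⟨⟨γ' p, h6⟩ * (w' ^ p.2 * ρ' ^ p.1), by push_cast; rfl, ?_⟩
    have h8 : Ge P 0 (⟨γ' p, h6⟩ : Λ) := by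
      by_cases h0 : (⟨γ' p, h6⟩ : Λ) = 0
      · exact Or.inl h0
      · exact Or.inr (hP _ h0 h7).ge
    have h9 : Ge P 0 (w' ^ p.2) := by
      have h10 : Ge P 0 w' := hwP
      have := h10.pow p.2
      rwa [mul_zero] at this
    have h10 : Ge P (p.1 * P.ord ρ') (ρ' ^ p.1) := Ge.pow (Or.inr le_rfl) _
    refine (h8.mul (h9.mul h10)).mono ?_
    rw [zero_add, zero_add]
    have h11 : ((p.1 : ℤ) - (M - 1)) * P.ord ρ' ≥ 0 :=
      mul_nonneg_of_nonpos_of_nonpos (by omega) hρ1.le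
    linarith
  choose! e he heP using hterm
  have hsum : ∑ p ∈ Finset.range M ×ˢ Finset.range (M + 1), e p = ρ' ^ M := by
    apply Subtype.ext
    have h12 : ((∑ p ∈ Finset.range M ×ˢ Finset.range (M + 1), e p : Λ) : Om K) =
        ∑ p ∈ Finset.range M ×ˢ Finset.range (M + 1), (e p : Om K) := by push_cast; rfl
    rw [h12, Finset.sum_congr rfl fun p hp => he p hp, hrel']
    rfl
  have h13 : Ge P ((M - 1 : ℤ) * P.ord ρ') (ρ' ^ M) := by
    rw [← hsum]
    exact Ge.sum _ _ fun p hp => heP p hp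
  rcases h13 with h13 | h13
  · exact pow_ne_zero _ hρ0 h13
  · rw [P.ord_pow] at h13
    have h14 : (M : ℤ) * P.ord ρ' = (M - 1) * P.ord ρ' + P.ord ρ' := by ring
    omega

/-- Limits of functions that are regular where finitely many functions are regular. -/
theorem il_list (hδ : ∀ c ∈ κi, δ c = 0) (hΛ : ∀ x ∈ Λ, hat δ x ∈ Λ)
    (hP : ∀ f : Λ, f ≠ 0 → hat δ (f : Om K) = 0 → P.ord f = 0) {ρ : ℕ → Li} {Hρ : ℕ}
    (hρ : ∀ n, hgt κi (ρ n) ≤ Hρ) {ρ' : Λ} (hρ' : (ρ' : Om K) = Om.mk fun n => (ρ n : K))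
    (l : List (ℕ → Li)) : ∀ (w : ℕ → Li) (H : ℕ) (w' : Λ), (∀ n, hgt κi (w n) ≤ H) →
    (w' : Om K) = (Om.mk fun n => (w n : K)) → P.Reg w' →
    (∀ g ∈ l, (∃ H : ℕ, ∀ n, hgt κi (g n) ≤ H) ∧
      ∃ g' : Λ, (g' : Om K) = (Om.mk fun n => (g n : K)) ∧ P.Reg g') →
    (∀ᶠ n in (Filter.hyperfilter ℕ : Filter ℕ), ∀ Q : Place κi Li, Q.Reg (w n) →
      (∀ g ∈ l, Q.Reg (g n)) → Q.Reg (ρ n)) → P.Reg ρ' := by
  induction l with
  | nil =>
    intro w H w' hw hw' hwP _ hreg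
    obtain ⟨M, hM1, hM2⟩ : ∃ M : ℕ, H ≤ M ∧ Hρ ≤ M := ⟨max H Hρ, le_max_left _ _, le_max_right _ _⟩
    refine il_one P δ hδ hΛ hP (H := M) (fun n => (hw n).trans (by exact_mod_cast hM1))
      (fun n => (hρ n).trans (by exact_mod_cast hM2)) ?_ hw' hρ' hwP
    filter_upwards [hreg] with n hn Q hQ
    exact hn Q hQ (by simp)
  | cons g l ih =>
    intro w H w' hw hw' hwP hl hreg
    obtain ⟨⟨Hg, hHg⟩, g', hg', hgP⟩ := hl g (List.mem_cons_self)
    obtain ⟨M, hM⟩ : ∃ M, M = H + 1 := ⟨_, rfl⟩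
    refine ih (fun n => w n + g n ^ M) (H + M * Hg) (w' + g' ^ M) (fun n => ?_) ?_ ?_
      (fun g1 hg1 => hl g1 (List.mem_cons_of_mem _ hg1)) ?_
    · refine (Pool.Agent.TH145.MW.hgt_add_le (k := κi) _ _).trans ?_
      have h1 := Pool.Agent.TH145.MW.hgt_pow_le (k := κi) (g n) M
      have h2 : (M : ℤ) * hgt κi (g n) ≤ M * Hg :=
        mul_le_mul_of_nonneg_left (hHg n) (by positivity)
      have h3 := hw n
      push_cast
      linarith
    · change (w' : Om K) + (g' : Om K) ^ M = _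
      rw [hw', hg']
      rfl
    · refine P.reg_add hwP ?_
      have h1 : Ge P 0 g' := hgP
      have h2 := h1.pow M
      rwa [mul_zero] at h2
    · filter_upwards [hreg] with n hn Q hQ hQl
      have h1 := Pool.Agent.TH145.MW.neg_ord_le_hgt Q (w n)
      have h2 := hw n
      obtain ⟨h3, h4⟩ := reg_pow_add Q (M := M) (by omega) (by omega) hQ
      refine hn Q h3 fun g1 hg1 => ?_
      rcases List.mem_cons.1 hg1 with rfl | hg1
      · exact h4
      · exact hQl g1 hg1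

/-- Limits of functions that are regular where finitely many functions are regular. -/
theorem il_fin (hδ : ∀ c ∈ κi, δ c = 0) (hΛ : ∀ x ∈ Λ, hat δ x ∈ Λ)
    (hP : ∀ f : Λ, f ≠ 0 → hat δ (f : Om K) = 0 → P.ord f = 0) {ρ : ℕ → Li} {Hρ : ℤ}
    (hρ : ∀ n, hgt κi (ρ n) ≤ Hρ) {ρ' : Λ} (hρ' : (ρ' : Om K) = Om.mk fun n => (ρ n : K))
    {J : Type} [Finite J] (g : J → ℕ → Li) (g' : J → Λ) (Hg : J → ℤ)
    (hg : ∀ j n, hgt κi (g j n) ≤ Hg j)
    (hg' : ∀ j, (g' j : Om K) = Om.mk fun n => (g j n : K)) (hgP : ∀ j, P.Reg (g' j))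
    (hreg : ∀ᶠ n in (Filter.hyperfilter ℕ : Filter ℕ), ∀ Q : Place κi Li,
      (∀ j, Q.Reg (g j n)) → Q.Reg (ρ n)) : P.Reg ρ' := by
  classical
  have := Fintype.ofFinite J
  obtain ⟨H, hH⟩ : ∃ H : ℕ, Hρ ≤ H := ⟨Hρ.toNat, Int.self_le_toNat _⟩
  refine il_list P δ hδ hΛ hP (ρ := ρ) (Hρ := H) (fun n => (hρ n).trans hH) hρ'
    (Finset.univ.toList.map g) (fun _ => 0) 0 0 (fun n => ?_) rfl (Or.inl rfl) ?_ ?_
  · have h1 := Pool.Agent.TH145.MG.hgt_const (k := κi) (L := Li) 0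
    rw [map_zero] at h1
    rw [h1]
    exact le_rfl
  · intro g1 hg1
    obtain ⟨j, -, rfl⟩ := List.mem_map.1 hg1
    exact ⟨⟨(Hg j).toNat, fun n => (hg j n).trans (Int.self_le_toNat _)⟩, g' j, hg' j, hgP j⟩
  · filter_upwards [hreg] with n hn Q _ hQ
    refine hn Q fun j => hQ (g j) (List.mem_map.2 ⟨j, by simp, rfl⟩)

end il

end Pool.Agent.H435.CP
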