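import Pool.Graph.R_seed8.TH145.GK.Limit

/-!
The function field of a limit point: at each place either all the derivations are logarithmic, or
one of them lowers all nonzero orders by one.
-/

set_option autoImplicit false

open MvPolynomial FF Pool.Agent.W603.LV Pool.Agent.W603.PV Pool.Agent.W602.RG
open Pool.Agent.TH145.GH
open Pool.Agent.TH145.GD (Data St deg_St Full)
open Pool.Agent.TH145.GK (Gen)

namespace Pool.Agent.H435.CP

section place

variable {k K : Type} [Field k] [Field K] [Algebra k K] [IsAlgClosed k] [CharZero k] [IsFF k K]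

/-- A derivation that kills a uniformizer is logarithmic. -/
theorem log_of_kill (P : Place k K) {π : K} (hπ : P.ord π = 1) {D : Derivation ℤ K K}
    (hS : Sem k D) (h0 : D π = 0) {f : K} (hf : f ≠ 0) : Ge P (P.ord f) (D f) := by
  have hπ0 : π ≠ 0 := by
    rintro rfl
    rw [P.ord_zero] at hπ
    exact absurd hπ (by norm_num)
  obtain ⟨g, hg⟩ : ∃ g, g = f / π ^ P.ord f := ⟨_, rfl⟩
  have hπz : π ^ P.ord f ≠ 0 := zpow_ne_zero _ hπ0
  have h1 : f = π ^ P.ord f * g := by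
    rw [hg, mul_div_cancel₀ _ hπz]
  have h2 : Ge P 0 g := by
    right
    rw [hg, P.ord_div hf hπz, P.ord_zpow, hπ]
    linarith
  have h3 : Ge P 0 (D g) := by
    refine reg_of_unif P hπ hS le_rfl ?_ h2
    rw [h0]
    exact Ge.zero
  have h4 : D f = π ^ P.ord f * D g := by
    conv_lhs => rw [h1]
    rw [D.leibniz, D.leibniz_zpow, h0]
    simp
  rw [h4]
  have h5 : Ge P (P.ord f) (π ^ P.ord f) := by
    right
    rw [P.ord_zpow, hπ, mul_one]
  have := h5.mul h3
  rwa [add_zero] at this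

/-- A derivation that maps a uniformizer to a nonzero constant lowers all nonzero orders by one. -/
theorem low_of_const (P : Place k K) {u : K} (hu : P.ord u = 1) {D : Derivation ℤ K K}
    (hS : Sem k D) {ε : k} (hε : ε ≠ 0) (h0 : D u = algebraMap k K ε) {f : K} (hf : f ≠ 0)
    (hs : P.ord f ≠ 0) : D f ≠ 0 ∧ P.ord (D f) = P.ord f - 1 := by
  have hu0 : u ≠ 0 := by
    rintro rfl
    rw [P.ord_zero] at hu
    exact absurd hu (by norm_num)
  obtain ⟨g, hg⟩ : ∃ g, g = f / u ^ P.ord f := ⟨_, rfl⟩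
  have huz : ∀ z : ℤ, u ^ z ≠ 0 := fun z => zpow_ne_zero _ hu0
  have hg0 : g ≠ 0 := by rw [hg]; exact div_ne_zero hf (huz _)
  have h1 : f = u ^ P.ord f * g := by
    rw [hg, mul_div_cancel₀ _ (huz _)]
  have h2 : P.ord g = 0 := by
    rw [hg, P.ord_div hf (huz _), P.ord_zpow, hu]
    linarith
  have h3 : Ge P 0 (D g) := by
    refine reg_of_unif P hu hS le_rfl ?_ (Or.inr h2.ge)
    rw [h0]
    exact Ge.const _
  obtain ⟨a, ha⟩ : ∃ a, a = algebraMap k K ((P.ord f : k) * ε) * (u ^ (P.ord f - 1) * g) :=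
    ⟨_, rfl⟩
  have hc : ((P.ord f : k) * ε) ≠ 0 := mul_ne_zero (by exact_mod_cast hs) hε
  have ha0 : a ≠ 0 := by
    rw [ha]
    exact mul_ne_zero ((_root_.map_ne_zero _).2 hc) (mul_ne_zero (huz _) hg0)
  have hao : P.ord a = P.ord f - 1 := by
    rw [ha, P.ord_mul ((_root_.map_ne_zero _).2 hc) (mul_ne_zero (huz _) hg0), P.ord_const hc,
      P.ord_mul (huz _) hg0, P.ord_zpow, hu, h2]
    ring
  have h4 : D f = a + u ^ P.ord f * D g := by
    conv_lhs => rw [h1]
    rw [D.leibniz, D.leibniz_zpow, h0, ha, map_mul, map_intCast]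
    simp only [smul_eq_mul, zsmul_eq_mul]
    ring
  have h5 : Ge P (P.ord f) (u ^ P.ord f * D g) := by
    have h6 : Ge P (P.ord f) (u ^ P.ord f) := by
      right
      rw [P.ord_zpow, hu, mul_one]
    have := h6.mul h3
    rwa [add_zero] at this
  rw [h4]
  by_cases hb : u ^ P.ord f * D g = 0
  · rw [hb, add_zero]
    exact ⟨ha0, hao⟩
  · have h6 := h5.resolve_left hb
    have h7 := P.ord_add_eq ha0 hb (by omega)
    exact ⟨h7.1, h7.2.trans hao⟩

end place

variable {k0 K : Type} [Field k0] [Field K] [Algebra k0 K] [IsAlgClosed k0] [IsAlgClosed K]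
  [CharZero K]

theorem exists_rig_low {n : ℕ} {A : Type} {c0 : Fin (n + 1)} {dg : A → ℕ} (E : Subfield K)
    (hE : ∀ r : k0, algebraMap k0 K r ∈ E)
    {F : A → MvPolynomial (Fin (n + 1)) E} {DE : A → (Fin (n + 1) →₀ ℕ) → E → E}
    (hG : Gen c0 F dg DE)
    (D : A → (Fin (n + 1) →₀ ℕ) → Derivation ℤ K K)
    (hDE : ∀ a I (x : E), D a I x = (DE a I x : K))
    (hDk : ∀ a I (r : k0), D a I (algebraMap k0 K r) = 0) {J : Type} [Finite J]
    (z : J → Om K) (hz : ∀ j, z j ∈ OE k0 (E : Set K)) (j1 : J)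
    (hj1 : z j1 ∉ acl (cst K '' (E : Set K))) :
    ∃ (κ : Subfield (Om K)) (Λ : IntermediateField κ (Om K)) (φ : E →+* Λ)
      (D' : A → (Fin (n + 1) →₀ ℕ) → Derivation ℤ Λ Λ),
      IsAlgClosed κ ∧ IsFF κ Λ ∧ (∀ j, z j ∈ Λ) ∧ z j1 ∉ κ ∧ (∀ x ∈ E, cst K x ∈ κ) ∧
      (∀ x : E, ((φ x : Λ) : Om K) = cst K x) ∧
      (∀ a I (x : Λ), ((D' a I x : Λ) : Om K) = hat (D a I) x) ∧
      Data κ c0 (fun a => map φ (F a)) dg D' (fun _ => 0) ∧
      (∀ P : Place κ Λ, (∀ a, ∀ I ∈ St c0 (dg a), ∀ f, f ≠ 0 → Ge P (P.ord f) (D' a I f)) ∨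
        ∃ a, ∃ I ∈ St c0 (dg a), ∀ f, f ≠ 0 → P.ord f ≠ 0 →
          D' a I f ≠ 0 ∧ P.ord (D' a I f) = P.ord f - 1) ∧
      ∀ a I (r : k0), D' a I (φ ⟨algebraMap k0 K r, hE r⟩) = 0 := by
  classical
  obtain ⟨κ, Λ, M, hac, hFF, hEκ, hzΛ, hzκ, -, hMC, hder, hplace⟩ :=
    exists_rig E hE z hz ∅ (by simp) j1 hj1
  have hczOm : CharZero (Om K) :=
    charZero_of_injective_algebraMap (algebraMap K (Om K)).injective
  have hcz : CharZero κ := charZero_of_injective_algebraMap (algebraMap ℚ κ).injective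
  let φ : E →+* Λ :=
    { toFun := fun x => ⟨cst K x, Λ.algebraMap_mem ⟨cst K x, hEκ x x.2⟩⟩
      map_one' := Subtype.ext (map_one (cst K))
      map_mul' := fun a b => Subtype.ext (map_mul (cst K) (a : K) b)
      map_zero' := Subtype.ext (map_zero (cst K))
      map_add' := fun a b => Subtype.ext (map_add (cst K) (a : K) b) }
  have hd := fun a I => hder (hat (D a I)) (fun w hw => hat_CC (D a I) (hDk a I) hw)
    (fun x hx => ⟨(DE a I ⟨x, hx⟩ : K), (DE a I ⟨x, hx⟩).2, by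
      rw [hat_cst, ← hDE a I ⟨x, hx⟩]⟩)
  let D' : A → (Fin (n + 1) →₀ ℕ) → Derivation ℤ Λ Λ := fun a I =>
    resDer Λ (hat (D a I)) (hd a I).2
  have hD' : ∀ a I (x : Λ), ((D' a I x : Λ) : Om K) = hat (D a I) x := fun a I x => rfl
  have hS : ∀ a I, Sem κ (D' a I) := fun a I c => ⟨⟨hat (D a I) c, (hd a I).1 c c.2⟩, rfl⟩
  have hM0 : ∀ a I, ∀ m ∈ M, D' a I m = 0 := by
    intro a I m hm
    apply Subtype.ext
    rw [hD']
    exact hat_CC (D a I) (hDk a I) (hMC m hm)
  refine ⟨κ, Λ, φ, D', hac, hFF, hzΛ, hzκ, hEκ, fun x => rfl, hD', ?_, fun P => ?_,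
    fun a I r => ?_⟩
  · refine hG.data φ D' (fun a I x => ?_) (fun _ => le_rfl) ?_ ?_
    · apply Subtype.ext
      rw [hD']
      change hat (D a I) (cst K x) = cst K (DE a I x)
      rw [hat_cst, hDE]
    · intro P f hf a I _
      rw [neg_zero]
      rcases hplace P with ⟨-, θ, hθM, c, hu⟩ | ⟨π, hπM, hπ⟩
      · refine reg_of_unif P hu (hS a I) le_rfl ?_ hf
        obtain ⟨c', hc'⟩ := hS a I c
        rw [map_sub, hM0 a I θ hθM, hc', zero_sub]
        exact (Ge.const c').neg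
      · refine reg_of_unif P hπ (hS a I) le_rfl ?_ hf
        rw [hM0 a I π hπM]
        exact Ge.zero
    · simp
  · rcases hplace P with ⟨-, θ, hθM, c, hu⟩ | ⟨π, hπM, hπ⟩
    · choose c' hc' using fun a I => hS a I c
      have hDu : ∀ a I, D' a I (θ - algebraMap κ Λ c) = algebraMap κ Λ (-(c' a I)) := by
        intro a I
        rw [map_sub, hM0 a I θ hθM, hc', zero_sub, map_neg]
      by_cases hall : ∀ a, ∀ I ∈ St c0 (dg a), c' a I = 0
      · left
        intro a I hI f hf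
        refine log_of_kill P hu (hS a I) ?_ hf
        rw [hDu, hall a I hI, neg_zero, map_zero]
      · right
        push Not at hall
        obtain ⟨a, I, hI, h0⟩ := hall
        exact ⟨a, I, hI, fun f hf hs => low_of_const P hu (hS a I) (neg_ne_zero.2 h0) (hDu a I) hf hs⟩
    · left
      intro a I _ f hf
      exact log_of_kill P hπ (hS a I) (hM0 a I π hπM) hf
  · apply Subtype.ext
    rw [hD']
    change hat (D a I) (cst K (algebraMap k0 K r)) = 0
    rw [hat_cst, hDk, map_zero]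

end Pool.Agent.H435.CP
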