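import Pool.Agent.H435.CP.Heights
import Pool.Agent.H435.CP.Il
import Pool.Agent.H435.CP.Rig

/-!
The condition at the places that a derivation moves.
-/

set_option autoImplicit false

open MvPolynomial FF Pool.Agent.W603.LV Pool.Agent.W603.PV Pool.Agent.W602.RG
open Pool.Agent.TH145.GH
open Pool.Agent.TH145.GD (Data St deg_St Full)
open Pool.Agent.TH145.GK (Gen exists_data_L rank_le ord_ge)

namespace Pool.Agent.H435.CP

section hgt

variable {k L : Type} [Field k] [Field L] [Algebra k L] [IsAlgClosed k] [CharZero k] [IsFF k L]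

omit [IsAlgClosed k] in
/-- The height of a derivative. -/
theorem hgt_der_le {D : Derivation ℤ L L} {e : Place k L → ℤ} (he : ∀ P, 0 ≤ e P)
    (hf : {P | e P ≠ 0}.Finite) (loss : ∀ P f, Ge P 0 f → Ge P (-e P) (D f)) (f : L) :
    hgt k (D f) ≤ 2 * hgt k f + ∑ᶠ P, e P := by
  classical
  obtain ⟨T1, hT1⟩ := exists_supp (k := k) (Finset.univ : Finset (Fin 2)) ![f, D f]
  obtain ⟨T, hT⟩ : ∃ T, T = T1 ∪ hf.toFinset := ⟨_, rfl⟩
  have h1 : ∀ P : Place k L, P.ord f ≠ 0 → P ∈ T := fun P h => by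
    rw [hT]; exact Finset.mem_union_left _ (hT1 0 (Finset.mem_univ _) P h)
  have h2 : ∀ P : Place k L, P.ord (D f) ≠ 0 → P ∈ T := fun P h => by
    rw [hT]; exact Finset.mem_union_left _ (hT1 1 (Finset.mem_univ _) P h)
  have h3 : ∑ᶠ P, e P = ∑ P ∈ T, e P := by
    refine finsum_eq_sum_of_support_subset _ fun P hP => ?_
    rw [hT, Finset.mem_coe]
    exact Finset.mem_union_right _ (hf.mem_toFinset.2 hP)
  rw [hgt_finset _ T h1, hgt_finset _ T h2, h3, Finset.mul_sum, ← Finset.sum_add_distrib]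
  refine Finset.sum_le_sum fun P _ => ?_
  have h4 := he P
  refine max_le ?_ ?_
  · by_cases hf0 : f = 0
    · rw [hf0, map_zero, P.ord_zero]
      simp only [neg_zero, max_self, mul_zero, zero_add]
      exact h4
    · by_cases hr : 0 ≤ P.ord f
      · rcases loss P f (Or.inr hr) with h5 | h5
        · rw [h5, P.ord_zero]
          have := le_max_right (-P.ord f) 0
          omega
        · have := le_max_right (-P.ord f) 0
          omega
      · rcases loss_all P (loss P) hf0 with h5 | h5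
        · rw [h5, P.ord_zero]
          have := le_max_right (-P.ord f) 0
          omega
        · have := le_max_left (-P.ord f) 0
          omega
  · have := le_max_right (-P.ord f) 0
    omega

omit [IsAlgClosed k] in
theorem hgt_iter_le {D : Derivation ℤ L L} {e : Place k L → ℤ} (he : ∀ P, 0 ≤ e P)
    (hf : {P | e P ≠ 0}.Finite) (loss : ∀ P f, Ge P 0 f → Ge P (-e P) (D f)) (s : ℕ) (H : ℤ) :
    ∃ B : ℤ, ∀ f : L, hgt k f ≤ H → hgt k ((⇑D)^[s] f) ≤ B := by
  induction s with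
  | zero => exact ⟨H, fun f h => h⟩
  | succ s ih =>
    obtain ⟨B, hB⟩ := ih
    refine ⟨2 * B + ∑ᶠ P, e P, fun f h => ?_⟩
    rw [Function.iterate_succ_apply']
    refine (hgt_der_le he hf loss _).trans ?_
    have := hB f h
    linarith

omit [IsAlgClosed k] [CharZero k] [IsFF k L] in
/-- A derivation that preserves regular functions lowers orders by at most one. -/
theorem iter_ge {P : Place k L} {D : Derivation ℤ L L} (loss : ∀ f, Ge P 0 f → Ge P 0 (D f))
    (s : ℕ) : ∀ {f : L} {N : ℤ}, Ge P N f → Ge P (N - s) ((⇑D)^[s] f) := by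
  induction s with
  | zero =>
    intro f N hf
    simpa using hf
  | succ s ih =>
    intro f N hf
    rw [Function.iterate_succ_apply]
    have h1 : Ge P (N - 1) (D f) := by
      by_cases hf0 : f = 0
      · rw [hf0, map_zero]; exact Ge.zero
      · have h2 := loss_all P (e := 0) (fun f hf => by rw [neg_zero]; exact loss f hf) hf0
        have h3 := hf.resolve_left hf0
        exact h2.mono (by omega)
    have h2 := ih h1
    refine h2.mono ?_
    push_cast
    omega

omit [IsAlgClosed k] [CharZero k] [IsFF k L] in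
theorem iter_reg {P : Place k L} {D : Derivation ℤ L L} (loss : ∀ f, Ge P 0 f → Ge P 0 (D f))
    (s : ℕ) {f : L} (hf : Ge P 0 f) : Ge P 0 ((⇑D)^[s] f) := by
  induction s with
  | zero => exact hf
  | succ s ih => rw [Function.iterate_succ_apply']; exact loss _ ih

omit [IsAlgClosed k] [CharZero k] [IsFF k L] in
theorem iter_low {P : Place k L} {D : Derivation ℤ L L}
    (low : ∀ f, f ≠ 0 → P.ord f ≠ 0 → D f ≠ 0 ∧ P.ord (D f) = P.ord f - 1) (s : ℕ) :
    ∀ {f : L}, f ≠ 0 → P.ord f = s → (⇑D)^[s] f ≠ 0 ∧ P.ord ((⇑D)^[s] f) = 0 := by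
  induction s with
  | zero =>
    intro f hf h0
    exact ⟨hf, h0⟩
  | succ s ih =>
    intro f hf h0
    obtain ⟨h1, h2⟩ := low f hf (by rw [h0]; positivity)
    rw [Function.iterate_succ_apply]
    exact ih h1 (by rw [h2, h0]; push_cast; ring)

end hgt

variable {k0 K ι : Type} [Field k0] [Field K] [Algebra k0 K] [IsAlgClosed K] [CharZero K]
  {y : ι → K} (E : IntermediateField (IntermediateField.adjoin k0 (Set.range y)) K)

omit [IsAlgClosed K] [CharZero K] in
/-- Every place is nontrivial on `E`. -/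
theorem exists_pole (hy : IsTranscendenceBasis k0 y) (i : ι)
    (Q : Place (kap k0 y i) (LL k0 y (E : Set K) i)) :
    ∃ e : E, ¬ Q.Reg (⟨(e : K), subset_LL y _ i e.2⟩ : LL k0 y (E : Set K) i) := by
  by_contra hcon
  push Not at hcon
  obtain ⟨F1, hF1⟩ : ∃ F1 : Subfield (LL k0 y (E : Set K) i),
    F1 = E.toSubfield.comap (algebraMap (LL k0 y (E : Set K) i) K) := ⟨_, rfl⟩
  have h1 : ∀ z ∈ F1, z ≠ 0 → Q.ord z = 0 := by
    intro z hz hz0
    rw [hF1] at hz
    have hz' : (z : K) ∈ E := hz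
    have h2 := hcon ⟨z, hz'⟩
    have h3 := hcon ⟨(z : K)⁻¹, inv_mem hz'⟩
    have h4 : (⟨(z : K)⁻¹, subset_LL y _ i (inv_mem hz')⟩ : LL k0 y (E : Set K) i) = z⁻¹ :=
      Subtype.ext rfl
    change Q.Reg z at h2
    change Q.Reg (⟨(z : K)⁻¹, subset_LL y _ i (inv_mem hz')⟩ : LL k0 y (E : Set K) i) at h3
    rw [h4] at h3
    have h5 := (Q.reg_iff hz0).1 h2
    have h6 := (Q.reg_iff (inv_ne_zero hz0)).1 h3
    rw [Q.ord_inv] at h6
    omega
  let P1 : Place F1 (LL k0 y (E : Set K) i) :=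
    { ord := Q.ord
      ord_zero := Q.ord_zero
      ord_mul := Q.ord_mul
      ord_add := Q.ord_add
      ord_const := fun {c} hc => h1 _ c.2 (fun h => hc (Subtype.ext h))
      surj := Q.surj }
  obtain ⟨t, ht0, ht⟩ := Q.surj
  have h2 : IsAlgebraic F1 t := by
    refine alg_pull (B := E.toSubfield) (fun b hb => ?_) ?_
    · refine ⟨⟨b, subset_LL y _ i hb⟩, ?_, rfl⟩
      rw [hF1]
      exact hb
    · have halg : Algebra.IsAlgebraic (IntermediateField.adjoin k0 (Set.range y)) K :=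
        hy.isAlgebraic_field
      have h3 : IsAlgebraic (IntermediateField.adjoin k0 (Set.range y)).toSubfield (t : K) :=
        halg.isAlgebraic (t : K)
      exact Pool.Agent.TH145.MF.alg_mono (fun z hz => E.algebraMap_mem ⟨z, hz⟩) h3
  have h3 := P1.ord_eq_zero_of_isAlgebraic ht0 h2
  change Q.ord t = 0 at h3
  omega

omit [IsAlgClosed K] [CharZero K] in
/-- The iterates of the derivation of the ultrapower. -/
theorem iter_mk {κi : Subfield K} {Li : IntermediateField κi K} {κ : Subfield (Om K)}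
    {Λ : IntermediateField κ (Om K)} {δ : Derivation ℤ K K} {Di : Derivation ℤ Li Li}
    {D' : Derivation ℤ Λ Λ} (hDi : ∀ x : Li, ((Di x : Li) : K) = δ x)
    (hD' : ∀ x : Λ, ((D' x : Λ) : Om K) = hat δ x) (s : ℕ) :
    ∀ {f' : Λ} {f : ℕ → Li}, (f' : Om K) = (Om.mk fun n => (f n : K)) →
    (((⇑D')^[s] f' : Λ) : Om K) = Om.mk fun n => (((⇑Di)^[s] (f n) : Li) : K) := by
  induction s with
  | zero =>
    intro f' f h
    exact h
  | succ s ih =>
    intro f' f h
    have h1 : ((D' f' : Λ) : Om K) = Om.mk fun n => ((Di (f n) : Li) : K) := by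
      rw [hD', h, hat_mk]
      congr 1
      funext n
      rw [hDi]
    have h2 := ih h1
    simp only [Function.iterate_succ_apply]
    exact h2

open scoped Classical in
/-- The condition at a place that the derivation moves. -/
theorem mov_cond {n N : ℕ} {A : Type} [Fintype A] {dg β : A → ℕ} (hy : IsTranscendenceBasis k0 y)
    [FiniteDimensional (IntermediateField.adjoin k0 (Set.range y)) E] (i : ι)
    {F : A → MvPolynomial (Fin (n + 1)) E.toSubfield} (hFh : ∀ a, (F a).IsHomogeneous (dg a))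
    {φi : E.toSubfield →+* LL k0 y (E : Set K) i} (hφi : ∀ x, (φi x : K) = x)
    {δ : Derivation ℤ K K} (hδ : ∀ c ∈ kap k0 y i, δ c = 0)
    {Di : Derivation ℤ (LL k0 y (E : Set K) i) (LL k0 y (E : Set K) i)}
    (hDi : ∀ x : LL k0 y (E : Set K) i, ((Di x : LL k0 y (E : Set K) i) : K) = δ x)
    {e : Place (kap k0 y i) (LL k0 y (E : Set K) i) → ℤ} (he : ∀ P, 0 ≤ e P)
    (hef : {P | e P ≠ 0}.Finite) (loss : ∀ P f, Ge P 0 f → Ge P (-e P) (Di f))
    (Cs : Finset A) {x : ℕ → Fin (n + 1) → LL k0 y (E : Set K) i} {B : ℤ}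
    (hB : ∀ m j, hgt (kap k0 y i) (x m j) ≤ B)
    (hxF : ∀ m a, a ∉ Cs → eval (x m) (map φi (F a)) ≠ 0)
    {S : Set (Place (kap k0 y i) (LL k0 y (E : Set K) i))} (hS : S.Finite)
    (hxQ : ∀ m Q, Q ∉ S → Cond Cs β N (fun a => map φi (F a)) Q (x m))
    {κ : Subfield (Om K)} {Λ : IntermediateField κ (Om K)} (hEκ : ∀ z ∈ E, cst K z ∈ κ)
    {φ : E.toSubfield →+* Λ} (hφ : ∀ x : E.toSubfield, ((φ x : Λ) : Om K) = cst K (x : K))
    {D' : Derivation ℤ Λ Λ} (hD' : ∀ x : Λ, ((D' x : Λ) : Om K) = hat δ x)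
    {P : Place κ Λ} (low : ∀ f, f ≠ 0 → P.ord f ≠ 0 → D' f ≠ 0 ∧ P.ord (D' f) = P.ord f - 1)
    {z : Fin (n + 1) → Λ} (hz : ∀ j, (z j : Om K) = Om.mk fun m => (x m j : K))
    (hzF : ∀ a, a ∉ Cs → eval z (map φ (F a)) ≠ 0) :
    Cond Cs β N (fun a => map φ (F a)) P z := by
  classical
  have hFF : IsFF (kap k0 y i) (LL k0 y (E : Set K) i) := LL_ff E hy.1 i
  have hac : IsAlgClosed (kap k0 y i) := acl_isAlgClosed _
  have hcz : CharZero (kap k0 y i) := charZero_of_injective_algebraMap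
    (algebraMap ℚ (kap k0 y i)).injective
  intro l hl hreg hpos
  obtain ⟨a1, ha1, hpos1⟩ := hpos
  by_contra hlt
  rw [not_le] at hlt
  -- the point in the affine chart
  obtain ⟨r, hr⟩ : ∃ r : Fin (n + 1) → Λ, r = fun j => z j / z l := ⟨_, rfl⟩
  obtain ⟨rn, hrn⟩ : ∃ rn : ℕ → Fin (n + 1) → LL k0 y (E : Set K) i,
    rn = fun m j => x m j / x m l := ⟨_, rfl⟩
  rw [← hr] at hpos1 hlt
  have hrmk : ∀ j, (r j : Om K) = Om.mk fun m => (rn m j : K) := by
    intro j
    rw [hr, hrn]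
    change (z j : Om K) / (z l : Om K) = _
    rw [hz, hz]
    rfl
  have hrreg : ∀ j, Ge P 0 (r j) := fun j => by rw [hr]; exact hreg j
  have hev : ∀ G : MvPolynomial (Fin (n + 1)) E.toSubfield, ((eval r (map φ G) : Λ) : Om K) =
      Om.mk fun m => ((eval (rn m) (map φi G) : LL k0 y (E : Set K) i) : K) := by
    intro G
    rw [eval_lift φ hφ G r]
    have h1 : (fun j => (r j : Om K)) = fun j => Om.mk fun m => (rn m j : K) := funext hrmk
    rw [h1, eval_mk G (fun m j => (rn m j : K))]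
    congr 1
    funext m
    exact (eval_incl φi hφi G (rn m)).symm
  have hscal : ∀ a, eval z (map φ (F a)) = z l ^ dg a * eval r (map φ (F a)) := by
    intro a
    have h1 : z = z l • r := by
      funext j
      rw [hr, Pi.smul_apply, smul_eq_mul, mul_div_cancel₀ _ hl]
    conv_lhs => rw [h1]
    rw [eval_smul_hom ((hFh a).map φ)]
  have hrF : ∀ a, a ∉ Cs → eval r (map φ (F a)) ≠ 0 := fun a ha h0 =>
    hzF a ha (by rw [hscal, h0, mul_zero])
  have hcoef : ∀ (G : MvPolynomial (Fin (n + 1)) E.toSubfield) u, Ge P 0 ((map φ G).coeff u) := by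
    intro G u
    rw [coeff_map]
    have h2 : φ (G.coeff u) =
        algebraMap κ Λ ⟨cst K ((G.coeff u : E.toSubfield) : K), hEκ _ (G.coeff u).2⟩ :=
      Subtype.ext (hφ _)
    rw [h2]
    exact Ge.const _
  have hordr : ∀ a, a ∉ Cs → 0 ≤ P.ord (eval r (map φ (F a))) := fun a ha =>
    (ge_eval P hrreg (hcoef (F a))).resolve_left (hrF a ha)
  -- the product
  obtain ⟨G, hG⟩ : ∃ G : MvPolynomial (Fin (n + 1)) E.toSubfield,
    G = ∏ a ∈ Finset.univ.filter (fun a => a ∉ Cs), F a ^ β a := ⟨_, rfl⟩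
  have hGev : ∀ {L : Type} [Field L] (ψ : E.toSubfield →+* L) (u : Fin (n + 1) → L),
      eval u (map ψ G) = ∏ a ∈ Finset.univ.filter (fun a => a ∉ Cs),
        eval u (map ψ (F a)) ^ β a := by
    intro L _ ψ u
    rw [hG, map_prod, map_prod]
    simp only [map_pow]
  have hGord : ∀ {κ' L : Type} [Field κ'] [Field L] [Algebra κ' L] (Q : Place κ' L)
      (ψ : E.toSubfield →+* L) (u : Fin (n + 1) → L),
      (∀ a, a ∉ Cs → eval u (map ψ (F a)) ≠ 0) → eval u (map ψ G) ≠ 0 ∧
      Q.ord (eval u (map ψ G)) = ∑ a ∈ Finset.univ.filter (fun a => a ∉ Cs),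
        (β a : ℤ) * Q.ord (eval u (map ψ (F a))) := by
    intro κ' L _ _ _ Q ψ u hu
    have h1 : ∀ a ∈ Finset.univ.filter (fun a => a ∉ Cs), eval u (map ψ (F a)) ^ β a ≠ 0 :=
      fun a ha => pow_ne_zero _ (hu a (Finset.mem_filter.1 ha).2)
    rw [hGev]
    refine ⟨Finset.prod_ne_zero_iff.2 h1, ?_⟩
    rw [Pool.Agent.TH145.GC.ord_prod Q _ _ h1]
    exact Finset.sum_congr rfl fun a _ => Q.ord_pow _ _
  obtain ⟨hΦ0, hΦ1⟩ := hGord P φ r hrF
  obtain ⟨Φ, hΦ⟩ : ∃ Φ, Φ = eval r (map φ G) := ⟨_, rfl⟩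
  rw [← hΦ] at hΦ0 hΦ1
  rw [← hΦ1] at hlt
  have hΦge : 0 ≤ P.ord Φ := by
    rw [hΦ1]
    exact Finset.sum_nonneg fun a ha => mul_nonneg (Nat.cast_nonneg _)
      (hordr a (Finset.mem_filter.1 ha).2)
  obtain ⟨s, hs⟩ := Int.eq_ofNat_of_zero_le hΦge
  obtain ⟨hΨ0, hΨ1⟩ := iter_low low s hΦ0 hs
  -- heights
  have hrnh : ∀ m j, hgt (kap k0 y i) (rn m j) ≤ B + B := by
    intro m j
    rw [hrn]
    change hgt (kap k0 y i) (x m j / x m l) ≤ _
    rw [div_eq_mul_inv]
    refine (Pool.Agent.TH145.MW.hgt_mul_le (k := kap k0 y i) _ _).trans ?_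
    rw [hgt_inv]
    exact add_le_add (hB m j) (hB m l)
  obtain ⟨B1, hB1⟩ := hgt_eval_le (κ := kap k0 y i) (B + B) (map φi (F a1))
  obtain ⟨B2, hB2⟩ := hgt_eval_le (κ := kap k0 y i) (B + B) (map φi G)
  obtain ⟨B3, hB3⟩ := hgt_iter_le he hef loss s B2
  obtain ⟨M, hM⟩ : ∃ M : ℕ, M = B1.toNat := ⟨_, rfl⟩
  have hM1 : B1 ≤ M := by rw [hM]; exact Int.self_le_toNat _
  obtain ⟨Ψn, hΨn⟩ : ∃ Ψn : ℕ → LL k0 y (E : Set K) i,
    Ψn = fun m => (⇑Di)^[s] (eval (rn m) (map φi G)) := ⟨_, rfl⟩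
  have hΨmk : (((⇑D')^[s] Φ : Λ) : Om K) = Om.mk fun m => (Ψn m : K) := by
    rw [hΨn]
    exact iter_mk hDi hD' s (hΦ ▸ hev G)
  obtain ⟨ρ, hρ⟩ : ∃ ρ : ℕ → LL k0 y (E : Set K) i,
    ρ = fun m => Ψn m ^ M / eval (rn m) (map φi (F a1)) := ⟨_, rfl⟩
  obtain ⟨ρ', hρ'⟩ : ∃ ρ' : Λ, ρ' = ((⇑D')^[s] Φ) ^ M / eval r (map φ (F a1)) := ⟨_, rfl⟩
  have hρmk : (ρ' : Om K) = Om.mk fun m => (ρ m : K) := by
    rw [hρ', hρ]
    change (((⇑D')^[s] Φ : Λ) : Om K) ^ M / ((eval r (map φ (F a1)) : Λ) : Om K) = _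
    rw [hΨmk, hev]
    rfl
  have hρh : ∀ m, hgt (kap k0 y i) (ρ m) ≤ M * B3 + B1 := by
    intro m
    rw [hρ]
    change hgt (kap k0 y i) (Ψn m ^ M / eval (rn m) (map φi (F a1))) ≤ _
    rw [div_eq_mul_inv]
    refine (Pool.Agent.TH145.MW.hgt_mul_le (k := kap k0 y i) _ _).trans ?_
    rw [hgt_inv]
    refine add_le_add ((Pool.Agent.TH145.MW.hgt_pow_le (k := kap k0 y i) _ _).trans
      (mul_le_mul_of_nonneg_left ?_ (by positivity))) (hB1 _ (hrnh m))
    rw [hΨn]
    exact hB3 _ (hB2 _ (hrnh m))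
  -- the exceptional places
  have hcf := fun a => (F a).support
  obtain ⟨Z0, hZ0⟩ : ∃ Z0 : Finset (LL k0 y (E : Set K) i),
      ∀ a, ∀ u ∈ (F a).support, φi ((F a).coeff u) ∈ Z0 := by
    refine ⟨Finset.univ.biUnion fun a => (F a).support.image fun u => φi ((F a).coeff u),
      fun a u hu => ?_⟩
    exact Finset.mem_biUnion.2 ⟨a, Finset.mem_univ _, Finset.mem_image_of_mem _ hu⟩
  obtain ⟨g1, hg1, hg1f, hg1T⟩ := exists_poles (κ := kap k0 y i) Z0
  obtain ⟨T, hT⟩ : ∃ T : Finset (Place (kap k0 y i) (LL k0 y (E : Set K) i)),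
      T = (hS.union (hef.union hg1f)).toFinset := ⟨_, rfl⟩
  choose ε hε using exists_pole E hy i
  obtain ⟨g, hg⟩ : ∃ g : Fin (n + 1) ⊕ {Q // Q ∈ T} → ℕ → LL k0 y (E : Set K) i,
    g = Sum.elim (fun j m => rn m j) fun Q _ => ⟨(ε Q.1 : K), subset_LL y _ i (ε Q.1).2⟩ :=
      ⟨_, rfl⟩
  obtain ⟨g', hg'⟩ : ∃ g' : Fin (n + 1) ⊕ {Q // Q ∈ T} → Λ,
    g' = Sum.elim r fun Q => φ ⟨(ε Q.1 : K), (ε Q.1).2⟩ := ⟨_, rfl⟩
  have key : P.Reg ρ' := by
    refine il_fin P δ hδ (fun w hw => ?_) (fun f hf0 hf => ?_) hρh hρmk g g'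
      (Sum.elim (fun _ => B + B) fun Q => hgt (kap k0 y i)
        (⟨(ε Q.1 : K), subset_LL y _ i (ε Q.1).2⟩ : LL k0 y (E : Set K) i)) ?_ ?_ ?_ ?_
    · have h1 := hD' ⟨w, hw⟩
      change ((D' ⟨w, hw⟩ : Λ) : Om K) = hat δ w at h1
      rw [← h1]
      exact (D' ⟨w, hw⟩).2
    · by_contra hne
      have h1 := (low f hf0 hne).1
      apply h1
      apply Subtype.ext
      rw [hD', hf]
      rfl
    · rintro (j | Q) m
      · rw [hg]
        exact hrnh m j
      · rw [hg]
        exact le_rfl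
    · rintro (j | Q)
      · rw [hg', hg]
        exact hrmk j
      · rw [hg', hg]
        exact hφ _
    · rintro (j | Q)
      · rw [hg']
        exact hrreg j
      · rw [hg']
        have h2 : φ ⟨(ε Q.1 : K), (ε Q.1).2⟩ =
            algebraMap κ Λ ⟨cst K (ε Q.1 : K), hEκ _ (ε Q.1).2⟩ := Subtype.ext (hφ _)
        change P.Reg (φ ⟨(ε Q.1 : K), (ε Q.1).2⟩)
        rw [h2]
        exact P.reg_const _
    · have hl' : ∀ᶠ m in (Filter.hyperfilter ℕ : Filter ℕ), x m l ≠ 0 := by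
        have h1 : ¬ (Om.mk fun m => (x m l : K)) = Om.mk fun _ => 0 := by
          rw [← hz l]
          intro h0
          exact hl (Subtype.ext h0)
        rw [Om.mk_eq] at h1
        have h2 := Ultrafilter.eventually_not.2 h1
        filter_upwards [h2] with m hm h0
        exact hm (by rw [h0]; rfl)
      filter_upwards [hl'] with m hm Q hQ
      have hQT : Q ∉ T := by
        intro hQT
        have h1 := hQ (Sum.inr ⟨Q, hQT⟩)
        rw [hg] at h1
        exact hε Q h1
      rw [hT, Set.Finite.mem_toFinset, Set.mem_union, Set.mem_union, not_or, not_or] at hQT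
      have hQS := hQT.1
      have heQ : e Q = 0 := by
        by_contra h1
        exact hQT.2.1 h1
      have hg1Q : g1 Q = 0 := by
        by_contra h1
        exact hQT.2.2 h1
      have hrnreg : ∀ j, Ge Q 0 (rn m j) := fun j => by
        have h1 := hQ (Sum.inl j)
        rw [hg] at h1
        exact h1
      have hcoef' : ∀ a u, Ge Q 0 ((map φi (F a)).coeff u) := by
        intro a u
        rw [coeff_map]
        by_cases hu : u ∈ (F a).support
        · have h1 := hg1T Q _ (hZ0 a u hu)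
          rwa [hg1Q, neg_zero] at h1
        · rw [notMem_support_iff.1 hu, map_zero]
          exact Ge.zero
      have hscal' : ∀ a, eval (x m) (map φi (F a)) =
          x m l ^ dg a * eval (rn m) (map φi (F a)) := by
        intro a
        have h1 : x m = x m l • rn m := by
          funext j
          rw [hrn, Pi.smul_apply, smul_eq_mul, mul_div_cancel₀ _ hm]
        conv_lhs => rw [h1]
        rw [eval_smul_hom ((hFh a).map φi)]
      have hrnF : ∀ a, a ∉ Cs → eval (rn m) (map φi (F a)) ≠ 0 := fun a ha h0 =>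
        hxF m a ha (by rw [hscal', h0, mul_zero])
      have hge' : ∀ a, Ge Q 0 (eval (rn m) (map φi (F a))) := fun a =>
        ge_eval Q hrnreg (hcoef' a)
      have hloss : ∀ f, Ge Q 0 f → Ge Q 0 (Di f) := fun f hf => by
        have := loss Q f hf
        rwa [heQ, neg_zero] at this
      have hf1 := (hge' a1).resolve_left (hrnF a1 ha1)
      obtain ⟨hGn0, hGn1⟩ := hGord Q φi (rn m) hrnF
      have hGnreg : Ge Q 0 (eval (rn m) (map φi G)) := by
        right
        rw [hGn1]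
        exact Finset.sum_nonneg fun a ha => mul_nonneg (Nat.cast_nonneg _)
          ((hge' a).resolve_left (hrnF a (Finset.mem_filter.1 ha).2))
      rw [hρ]
      change Ge Q 0 (Ψn m ^ M / eval (rn m) (map φi (F a1)))
      rcases hf1.eq_or_lt with hf2 | hf2
      · -- the denominator is a unit
        have h1 : Ge Q 0 (Ψn m) := by rw [hΨn]; exact iter_reg hloss s hGnreg
        have h2 : Ge Q 0 ((eval (rn m) (map φi (F a1)))⁻¹) := by
          right
          rw [Q.ord_inv, ← hf2]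
          exact le_of_eq neg_zero.symm
        have h3 := (h1.pow M).mul h2
        rw [mul_zero, add_zero] at h3
        rw [div_eq_mul_inv]
        exact h3
      · -- the condition
        have h1 := hxQ m Q hQS l hm (fun j => by
          have := hrnreg j
          rw [hrn] at this
          exact this) ⟨a1, ha1, by
          have := hf2
          rw [hrn] at this
          exact this⟩
        have h2 : (N : ℤ) ≤ Q.ord (eval (rn m) (map φi G)) := by
          rw [hGn1, hrn]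
          exact h1
        have h3 : Ge Q 1 (Ψn m) := by
          have h4 : Ge Q (N : ℤ) (eval (rn m) (map φi G)) := Or.inr h2
          have h5 := iter_ge hloss s h4
          rw [hΨn]
          refine h5.mono ?_
          have h6 : (s : ℤ) < N := by rw [← hs]; exact hlt
          omega
        have h4 : Q.ord (eval (rn m) (map φi (F a1))) ≤ M := by
          have h5 := Pool.Agent.TH145.MW.neg_ord_le_hgt Q ((eval (rn m) (map φi (F a1)))⁻¹)
          rw [Q.ord_inv, neg_neg, hgt_inv] at h5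
          exact (h5.trans (hB1 _ (hrnh m))).trans hM1
        have h5 : Ge Q (-Q.ord (eval (rn m) (map φi (F a1))))
            ((eval (rn m) (map φi (F a1)))⁻¹) := by
          right
          rw [Q.ord_inv]
        have h6 := (h3.pow M).mul h5
        rw [div_eq_mul_inv]
        refine h6.mono ?_
        rw [mul_one]
        omega
  have hf0 := hrF a1 ha1
  have h1 : P.ord ρ' = -P.ord (eval r (map φ (F a1))) := by
    rw [hρ', P.ord_div (pow_ne_zero _ hΨ0) hf0, P.ord_pow, hΨ1, mul_zero, zero_sub]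
  rcases key with h2 | h2
  · rw [hρ'] at h2
    exact div_ne_zero (pow_ne_zero _ hΨ0) hf0 h2
  · rw [h1] at h2
    have hpos2 : 0 < P.ord (eval r (map φ (F a1))) := hpos1
    omega

end Pool.Agent.H435.CP
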