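import Pool.Graph.R_pool_sql_team_seeded_63374d34.N126.RC.Limit
import Pool.Graph.R_seed8.TH145.GC.Rank
import Pool.Agent.H435.CP.Mov

/-!
Limit points are constant, and finiteness over a finitely generated field.
-/

set_option autoImplicit false

open MvPolynomial FF Pool.Agent.W603.LV Pool.Agent.W603.PV Pool.Agent.W602.RG
open Pool.Agent.TH145.GH
open Pool.Agent.TH145.GD (Data St deg_St Full)
open Pool.Agent.TH145.GK (Gen exists_data_L rank_le ord_ge)

namespace Pool.Agent.H435.CP

open Pool.Agent.H435.PC (ineq1)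

/-- A derivation vanishes on the elements that are algebraic over its constants. -/
theorem der_acl_zero {K : Type} [Field K] [CharZero K] (D : Derivation ℤ K K) {S : Set K}
    (hS : ∀ s ∈ S, D s = 0) {x : K} (hx : x ∈ acl S) : D x = 0 := by
  let Z : Subfield K :=
    { carrier := {x | D x = 0}
      zero_mem' := map_zero D
      one_mem' := D.map_one_eq_zero
      add_mem' := fun {a b} ha hb => by
        change D a = 0 at ha
        change D b = 0 at hb
        change D (a + b) = 0
        rw [map_add, ha, hb, add_zero]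
      neg_mem' := fun {a} ha => by
        change D a = 0 at ha
        change D (-a) = 0
        rw [map_neg, ha, neg_zero]
      mul_mem' := fun {a b} ha hb => by
        change D a = 0 at ha
        change D b = 0 at hb
        change D (a * b) = 0
        rw [D.leibniz, ha, hb, smul_zero, smul_zero, add_zero]
      inv_mem' := fun a ha => by
        change D a = 0 at ha
        change D a⁻¹ = 0
        rw [D.leibniz_inv, ha, smul_zero] }
  have h1 : Subfield.closure S ≤ Z := by
    rw [Subfield.closure_le]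
    exact hS
  exact Pool.Agent.TH145.GC.der_zero_of_alg D Z (fun z hz => hz)
    (Pool.Agent.TH145.MF.alg_mono h1 (mem_acl.1 hx))

variable {k0 K ι : Type} [Field k0] [Field K] [Algebra k0 K] [IsAlgClosed K] [CharZero K]
  {y : ι → K} (E : IntermediateField (IntermediateField.adjoin k0 (Set.range y)) K)

open scoped Classical in
/-- Limit points are constant. -/
theorem limit_pairs {n m N : ℕ} {A : Type} [Fintype A] {c0 : Fin (n + 1)} {dg β : A → ℕ}
    [IsAlgClosed k0] [Finite ι]
    (hy : IsTranscendenceBasis k0 y)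
    [FiniteDimensional (IntermediateField.adjoin k0 (Set.range y)) E]
    [IsGalois (IntermediateField.adjoin k0 (Set.range y)) E]
    {F : A → MvPolynomial (Fin (n + 1)) E.toSubfield}
    {DE : A → (Fin (n + 1) →₀ ℕ) → E.toSubfield → E.toSubfield}
    (hG : Gen c0 F dg DE)
    (D : A → (Fin (n + 1) →₀ ℕ) → Derivation ℤ K K)
    (hDE : ∀ a I (x : E.toSubfield), D a I x = (DE a I x : K))
    (hDk : ∀ a I (r : k0), D a I (algebraMap k0 K r) = 0)
    (hDy : ∀ a I j, ∃ r : k0, D a I (y j) = algebraMap k0 K r)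
    (hDy1 : ∀ a, ∀ I ∈ St c0 (dg a), ∃ i, ∀ j, j ≠ i → D a I (y j) = 0)
    (Cs : Finset A)
    (hd : N * (2 * m + 1) + ∑ a ∈ Finset.univ.filter (fun a => a ∉ Cs), β a * dg a <
      N * (∑ a, dg a + Cs.card))
    (V : Set (MvPolynomial (Fin (n + 1)) k0))
    (hV : Pool.Agent.TH145.MG.DimLE k0 V m)
    (S : ∀ i, Set (Place (kap k0 y i) (LL k0 y (E : Set K) i))) (hS : ∀ i, (S i).Finite)
    (x : ℕ → Fin (n + 1) → E) (hx1 : ∀ r, x r c0 = 1)
    (hxV : ∀ r, ∀ f ∈ V, eval₂ (algebraMap k0 K) (fun j => (x r j : K)) f = 0)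
    (hxC : ∀ r, ∀ a ∈ Cs, eval (fun j => (x r j : K)) (map E.toSubfield.subtype (F a)) = 0)
    (hxF : ∀ r a, a ∉ Cs → eval (fun j => (x r j : K)) (map E.toSubfield.subtype (F a)) ≠ 0)
    (hxQ : ∀ r i (φ : E.toSubfield →+* LL k0 y (E : Set K) i), (∀ z, (φ z : K) = z) →
      ∀ Q, Q ∉ S i → Cond Cs β N (fun a => map φ (F a)) Q
        (fun j => (⟨(x r j : K), subset_LL y _ i (x r j).2⟩ : LL k0 y (E : Set K) i)))
    (j : Fin (n + 1)) :
    Om.mk (fun r => (x r j : K)) ∈ acl (cst K '' ((E.toSubfield : Subfield K) : Set K)) := by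
  classical
  -- the heights
  choose φi Di e hφi hDi hdat using fun i => exists_data_L E hy.1 hG D hDE hDk hDy i
  obtain ⟨xi, hxi⟩ : ∃ xi : ∀ i, ℕ → Fin (n + 1) → LL k0 y (E : Set K) i, ∀ i r j,
    xi i r j = ⟨(x r j : K), subset_LL y _ i (x r j).2⟩ := ⟨_, fun _ _ _ => rfl⟩
  have hxi' : ∀ i r, (fun j => (xi i r j : K)) = fun j => (x r j : K) := fun i r => by
    funext j
    rw [hxi]
  have hevi : ∀ i r a, algebraMap (LL k0 y (E : Set K) i) K (eval (xi i r) (map (φi i) (F a))) =
      eval (fun j => (x r j : K)) (map E.toSubfield.subtype (F a)) := by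
    intro i r a
    rw [eval_incl (φi i) (hφi i) (F a) (xi i r)]
    congr 2
    exact hxi' i r
  have hxC' : ∀ i r, ∀ a ∈ Cs, eval (xi i r) (map (φi i) (F a)) = 0 := by
    intro i r a ha
    apply (algebraMap (LL k0 y (E : Set K) i) K).injective
    rw [map_zero, hevi, hxC r a ha]
  have hxF' : ∀ i r a, a ∉ Cs → eval (xi i r) (map (φi i) (F a)) ≠ 0 := by
    intro i r a ha h0
    have h1 := hevi i r a
    rw [h0, map_zero] at h1
    exact hxF r a ha h1.symm
  have hxQ' : ∀ i r Q, Q ∉ S i → Cond Cs β N (fun a => map (φi i) (F a)) Q (xi i r) := by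
    intro i r Q hQ
    have h1 := hxQ r i (φi i) (hφi i) Q hQ
    have h2 : (fun j => (⟨(x r j : K), subset_LL y _ i (x r j).2⟩ : LL k0 y (E : Set K) i)) =
        xi i r := funext fun j => (hxi i r j).symm
    rwa [h2] at h1
  choose B hB using fun i => heights E hy.1 hG.hom D hDk Cs hd V hV i (φi i) (Di i) (e i) (hDi i)
    (hdat i) (S i) (hS i)
  have hB' : ∀ i r j, hgt (kap k0 y i) (xi i r j) ≤ B i := by
    intro i r j
    refine hB i (xi i r) ?_ (fun f hf => ?_) (hxC' i r) (hxF' i r) (hxQ' i r) j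
    · rw [hxi]
      apply Subtype.ext
      change (x r c0 : K) = 1
      rw [hx1]
      rfl
    · rw [hxi']
      exact hxV r f hf
  have hz : ∀ j, Om.mk (fun r => (x r j : K)) ∈ OE k0 ((E.toSubfield : Subfield K) : Set K) :=
    fun j => lim_mem E hy (fun r => x r j) B fun r i => by
      have := hB' i r j
      rwa [hxi] at this
  by_contra hj1
  -- the field of the limit point
  obtain ⟨κ, Λ, φ, D', hac, hFF, hzΛ, hzκ, hEκ, hφ, hD', hdat', hdich, hDk'⟩ :=
    exists_rig_low E.toSubfield (fun r => k0_mem E r) hG D hDE hDk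
      (fun j => Om.mk fun r => (x r j : K)) hz j hj1
  have hczOm : CharZero (Om K) :=
    charZero_of_injective_algebraMap (algebraMap K (Om K)).injective
  have hcz : CharZero κ := charZero_of_injective_algebraMap (algebraMap ℚ κ).injective
  have hczΛ : CharZero Λ := charZero_of_injective_algebraMap (algebraMap κ Λ).injective
  obtain ⟨z, hzx⟩ : ∃ z : Fin (n + 1) → Λ, ∀ j, z j = ⟨Om.mk fun r => (x r j : K), hzΛ j⟩ :=
    ⟨_, fun _ => rfl⟩
  have hzx' : ∀ j, (z j : Om K) = Om.mk fun r => (x r j : K) := fun j => by rw [hzx]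
  have hz1 : z c0 = 1 := by
    apply Subtype.ext
    rw [hzx']
    have h1 : (fun r => (x r c0 : K)) = fun _ => 1 := funext fun r => by
      rw [hx1]
      rfl
    rw [h1]
    rfl
  have hz0 : z ≠ 0 := by
    intro h0
    rw [h0] at hz1
    exact zero_ne_one hz1
  have hzc0 : z c0 ≠ 0 := by rw [hz1]; exact one_ne_zero
  have hev : ∀ a, ((eval z (map φ (F a)) : Λ) : Om K) =
      Om.mk fun r => eval (fun j => (x r j : K)) (map E.toSubfield.subtype (F a)) := by
    intro a
    rw [eval_lift φ hφ (F a) z]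
    have h1 : (fun j => (z j : Om K)) = fun j => Om.mk fun r => (x r j : K) := funext hzx'
    rw [h1]
    exact eval_mk (F a) (fun r j => (x r j : K))
  have hzC : ∀ a ∈ Cs, eval z (map φ (F a)) = 0 := by
    intro a ha
    apply Subtype.ext
    rw [hev]
    have h1 : (fun r => eval (fun j => (x r j : K)) (map E.toSubfield.subtype (F a))) =
        fun _ => 0 := funext fun r => hxC r a ha
    rw [h1]
    rfl
  have hzF : ∀ a, a ∉ Cs → eval z (map φ (F a)) ≠ 0 := by
    intro a ha h0
    have h1 := hev a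
    rw [h0] at h1
    have h2 : (Om.mk fun r => eval (fun j => (x r j : K)) (map E.toSubfield.subtype (F a))) =
      Om.mk fun _ => 0 := h1.symm
    rw [Om.mk_eq] at h2
    obtain ⟨r, hr⟩ := h2.exists
    exact hxF r a ha hr
  have hzV : ∀ f ∈ V, eval₂ ((cst K).comp (algebraMap k0 K)) (fun j => (z j : Om K)) f = 0 := by
    intro f hf
    have h0 : (fun j => (z j : Om K)) = fun j => Om.mk fun r => (x r j : K) := funext hzx'
    rw [h0]
    have h1 := Pool.Agent.TH145.MG.eval_mk (fun r j => (x r j : K)) (map (algebraMap k0 K) f)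
    have h2 : (fun r => eval (fun j => (x r j : K)) (map (algebraMap k0 K) f)) = fun _ => 0 := by
      funext r
      rw [eval_map]
      exact hxV r f hf
    rw [h2] at h1
    have h3 : eval₂ (cst K) (fun j => Om.mk fun r => (x r j : K)) (map (algebraMap k0 K) f) = 0 :=
      h1
    rwa [eval₂_map] at h3
  -- the dimension
  have hrk : Module.finrank Λ (Full c0 dg D' z) ≤ m + 1 := by
    let ψ : k0 →+* E.toSubfield := (algebraMap k0 K).codRestrict E.toSubfield
      fun r => k0_mem E r
    let _ : Algebra k0 Λ := (φ.comp ψ).toAlgebra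
    refine rank_le (k0 := k0) (fun a I r => hDk' a I r) hz1 ?_
    refine hV Λ z hz0 fun f hf => ?_
    apply Subtype.ext
    have h1 := hom_eval₂ f (φ.comp ψ) (algebraMap Λ (Om K)) z
    refine h1.trans ?_
    have h2 : (algebraMap Λ (Om K)).comp (φ.comp ψ) = (cst K).comp (algebraMap k0 K) := by
      ext r
      exact hφ (ψ r)
    rw [h2]
    exact hzV f hf
  have hcf : ∀ (P : Place κ Λ) a u, Ge P 0 ((map φ (F a)).coeff u) := by
    intro P a u
    rw [coeff_map]
    have h2 : φ ((F a).coeff u) =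
        algebraMap κ Λ ⟨cst K (((F a).coeff u : E.toSubfield) : K), hEκ _ ((F a).coeff u).2⟩ :=
      Subtype.ext (hφ _)
    rw [h2]
    exact Ge.const _
  have hv0 : ∀ (P : Place κ Λ) a, a ∉ Cs →
      0 ≤ P.ord (eval z (map φ (F a))) - dg a * pord P z := by
    intro P a ha
    have h2 := ord_ge P (hdat'.hom a) (g := 0) (by rw [neg_zero]; exact hcf P a) hz0 (hzF a ha)
    omega
  have h1 := ineq1 hdat' (β := β) (w := fun _ => 0) hd hzc0 hrk hzC hzF (by simp)
    (fun P => by
    rcases hdich P with hP | ⟨a, I, hI, hP⟩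
    · right
      refine ⟨0, le_rfl, fun f hf a I hI => ?_, ?_⟩
      · rw [sub_zero]
        exact hP a I hI f hf
      · simp only [ite_self, Finset.sum_const_zero, mul_zero, add_zero]
        exact Finset.sum_nonneg fun a ha => mul_nonneg (Int.natCast_nonneg _)
          (hv0 P a (Finset.mem_filter.1 ha).2)
    · left
      refine ⟨rfl, ?_⟩
      rw [add_zero]
      split_ifs with hpos
      · rw [mul_one]
        obtain ⟨i, hi⟩ := hDy1 a I hI
        have hδ : ∀ c ∈ kap k0 y i, D a I c = 0 := fun c hc => by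
          refine der_acl_zero (D a I) ?_ hc
          rintro s (⟨r, rfl⟩ | ⟨j', hj', rfl⟩)
          · exact hDk a I r
          · exact hi j' hj'
        have h2 := mov_cond (φi := φi i) (Di := Di i a I) (e := e i) (S := S i) (x := xi i)
          (B := B i) (z := z) E hy i hG.hom (hφi i) hδ (hDi i a I) (hdat i).e_nonneg (hdat i).fin
          (fun P f hf => (hdat i).loss P f hf a I hI) Cs (hB' i) (hxF' i) (hS i) (hxQ' i) hEκ hφ
          (hD' a I) hP (fun j => by
            rw [hzx']
            congr 1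
            funext r
            rw [hxi]) hzF
        exact h2.main hz0 hdat'.hom hzF hpos
      · rw [mul_zero]
        exact Finset.sum_nonneg fun a ha => mul_nonneg (Nat.cast_nonneg _)
          (hv0 P a (Finset.mem_filter.1 ha).2))
  simp only [mul_zero, add_zero, finsum_zero] at h1
  obtain ⟨c, hc⟩ := const_of_pht h1 hz1 j
  apply hzκ
  have h2 := congrArg (fun w : Λ => (w : Om K)) hc
  rw [hzx] at h2
  change (Om.mk fun r => (x r j : K)) = (c : Om K) at h2
  rw [h2]
  exact c.2

open scoped Classical in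
/-- Finiteness over a finitely generated field. -/
theorem fin_pairs {n m N : ℕ} {A : Type} [Fintype A] {c0 : Fin (n + 1)} {dg β : A → ℕ}
    [IsAlgClosed k0] [Finite ι]
    (hy : IsTranscendenceBasis k0 y)
    [FiniteDimensional (IntermediateField.adjoin k0 (Set.range y)) E]
    [IsGalois (IntermediateField.adjoin k0 (Set.range y)) E]
    {F : A → MvPolynomial (Fin (n + 1)) E.toSubfield}
    {DE : A → (Fin (n + 1) →₀ ℕ) → E.toSubfield → E.toSubfield}
    (hG : Gen c0 F dg DE)
    (D : A → (Fin (n + 1) →₀ ℕ) → Derivation ℤ K K)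
    (hDE : ∀ a I (x : E.toSubfield), D a I x = (DE a I x : K))
    (hDk : ∀ a I (r : k0), D a I (algebraMap k0 K r) = 0)
    (hDy : ∀ a I j, ∃ r : k0, D a I (y j) = algebraMap k0 K r)
    (hDy1 : ∀ a, ∀ I ∈ St c0 (dg a), ∃ i, ∀ j, j ≠ i → D a I (y j) = 0)
    (Cs : Finset A)
    (hd : N * (2 * m + 1) + ∑ a ∈ Finset.univ.filter (fun a => a ∉ Cs), β a * dg a <
      N * (∑ a, dg a + Cs.card))
    (V : Set (MvPolynomial (Fin (n + 1)) k0))
    (hV : Pool.Agent.TH145.MG.DimLE k0 V m)
    (S : ∀ i, Set (Place (kap k0 y i) (LL k0 y (E : Set K) i))) (hS : ∀ i, (S i).Finite) :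
    {x : Fin (n + 1) → E | x c0 = 1 ∧
      (∀ f ∈ V, eval₂ (algebraMap k0 K) (fun j => (x j : K)) f = 0) ∧
      (∀ a ∈ Cs, eval (fun j => (x j : K)) (map E.toSubfield.subtype (F a)) = 0) ∧
      (∀ a, a ∉ Cs → eval (fun j => (x j : K)) (map E.toSubfield.subtype (F a)) ≠ 0) ∧
      ∀ i (φ : E.toSubfield →+* LL k0 y (E : Set K) i), (∀ z, (φ z : K) = z) →
      ∀ Q, Q ∉ S i → Cond Cs β N (fun a => map φ (F a)) Q
        (fun j => (⟨(x j : K), subset_LL y _ i (x j).2⟩ : LL k0 y (E : Set K) i))}.Finite := by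
  by_contra hinf
  let f := Set.Infinite.natEmbedding _ hinf
  obtain ⟨x, hx⟩ : ∃ x : ℕ → Fin (n + 1) → E, ∀ r, x r = (f r).1 := ⟨_, fun _ => rfl⟩
  have hxinj : Function.Injective fun r j => (x r j : K) := by
    intro a b hab
    have h1 : x a = x b := by
      funext j
      exact Subtype.ext (congrFun hab j)
    rw [hx, hx] at h1
    exact f.injective (Subtype.ext h1)
  have hacl := limit_pairs E hy hG D hDE hDk hDy hDy1 Cs hd V hV S hS x
    (fun r => by rw [hx]; exact (f r).2.1) (fun r => by rw [hx]; exact (f r).2.2.1)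
    (fun r => by rw [hx]; exact (f r).2.2.2.1) (fun r => by rw [hx]; exact (f r).2.2.2.2.1)
    (fun r i φ hφ Q hQ => by
      have h1 := (f r).2.2.2.2.2 i φ hφ Q hQ
      rwa [← hx] at h1)
  choose a ha using fun j => eventually_const (hacl j)
  exact not_all_const hxinj a ha

end Pool.Agent.H435.CP
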