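import Pool.Graph.R_seed8.TH145.GK.Fin
import Pool.Agent.H435.PC.Ineq

/-!
Heights of points with a condition for the multiplicities at almost all places.
-/

set_option autoImplicit false

open MvPolynomial FF Pool.Agent.W603.LV Pool.Agent.W603.PV Pool.Agent.W602.RG
open Pool.Agent.TH145.GH
open Pool.Agent.TH145.GC (Cf finite_cf)
open Pool.Agent.TH145.GD (Data St deg_St Full)
open Pool.Agent.TH145.GK (Gen exists_data_L rank_le ord_ge)

namespace Pool.Agent.H435.CP

open Pool.Agent.H435.PC (ineq1)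

open scoped Classical in
/-- The condition at the place `Q` for the multiplicities of the point `x` along the hypersurfaces
`F a = 0`, `a ∉ Cs`: if they are not all `0`, then the sum with the weights `β a` is at least `N`. -/
def Cond {κ L : Type} [Field κ] [Field L] [Algebra κ L] {n : ℕ} {A : Type} [Fintype A]
    (Cs : Finset A) (β : A → ℕ) (N : ℕ) (F : A → MvPolynomial (Fin (n + 1)) L)
    (Q : Place κ L) (x : Fin (n + 1) → L) : Prop :=
  ∀ l, x l ≠ 0 → (∀ j, Q.Reg (x j / x l)) →
    (∃ a, a ∉ Cs ∧ 0 < Q.ord (eval (fun j => x j / x l) (F a))) →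
    (N : ℤ) ≤ ∑ a ∈ Finset.univ.filter (fun a => a ∉ Cs),
      (β a : ℤ) * Q.ord (eval (fun j => x j / x l) (F a))

open scoped Classical in
theorem Cond.main {κ L : Type} [Field κ] [Field L] [Algebra κ L] {n : ℕ} {A : Type} [Fintype A]
    {Cs : Finset A} {β dg : A → ℕ} {N : ℕ} {F : A → MvPolynomial (Fin (n + 1)) L}
    {Q : Place κ L} {x : Fin (n + 1) → L} (h : Cond Cs β N F Q x) (hx : x ≠ 0)
    (hF : ∀ a, (F a).IsHomogeneous (dg a)) (hFx : ∀ a, a ∉ Cs → eval x (F a) ≠ 0)
    (hpos : ∃ a, a ∉ Cs ∧ 0 < Q.ord (eval x (F a)) - dg a * pord Q x) :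
    (N : ℤ) ≤ ∑ a ∈ Finset.univ.filter (fun a => a ∉ Cs),
      (β a : ℤ) * (Q.ord (eval x (F a)) - dg a * pord Q x) := by
  obtain ⟨lam, x', hlam, hlo, hxl, hx', l, hl⟩ := exists_scaled Q hx
  have hlx : x l = lam := by rw [hxl, Pi.smul_apply, hl, smul_eq_mul, mul_one]
  have hx'e : (fun j => x j / x l) = x' := by
    funext j
    rw [hlx, hxl, Pi.smul_apply, smul_eq_mul, mul_div_cancel_left₀ _ hlam]
  have h1 : ∀ a, eval x (F a) = lam ^ dg a * eval x' (F a) := fun a => by
    rw [hxl, eval_smul_hom (hF a)]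
  have h2 : ∀ a, a ∉ Cs → Q.ord (eval x (F a)) - dg a * pord Q x = Q.ord (eval x' (F a)) := by
    intro a ha
    have h3 : eval x' (F a) ≠ 0 := fun h0 => hFx a ha (by rw [h1, h0, mul_zero])
    rw [h1, Q.ord_mul (pow_ne_zero _ hlam) h3, Q.ord_pow, hlo]
    ring
  have h3 := h l (by rw [hlx]; exact hlam) (fun j => by
    have h4 := congrFun hx'e j
    rw [h4]
    exact hx' j)
  rw [hx'e] at h3
  obtain ⟨a, ha, hpa⟩ := hpos
  rw [h2 a ha] at hpa
  have h4 := h3 ⟨a, ha, hpa⟩
  have h5 : ∑ a ∈ Finset.univ.filter (fun a => a ∉ Cs),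
      (β a : ℤ) * (Q.ord (eval x (F a)) - dg a * pord Q x) =
      ∑ a ∈ Finset.univ.filter (fun a => a ∉ Cs), (β a : ℤ) * Q.ord (eval x' (F a)) :=
    Finset.sum_congr rfl fun a ha => by rw [h2 a (Finset.mem_filter.1 ha).2]
  rw [h5]
  exact h4

variable {k0 K ι : Type} [Field k0] [Field K] [Algebra k0 K] [IsAlgClosed K] [CharZero K]
  {y : ι → K} (E : IntermediateField (IntermediateField.adjoin k0 (Set.range y)) K)

open scoped Classical in
/-- The heights of the points are bounded. -/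
theorem heights {n m N : ℕ} {A : Type} [Fintype A] {c0 : Fin (n + 1)} {dg β : A → ℕ}
    (hy : AlgebraicIndependent k0 y)
    [FiniteDimensional (IntermediateField.adjoin k0 (Set.range y)) E]
    {F : A → MvPolynomial (Fin (n + 1)) E.toSubfield} (hFh : ∀ a, (F a).IsHomogeneous (dg a))
    (D : A → (Fin (n + 1) →₀ ℕ) → Derivation ℤ K K)
    (hDk : ∀ a I (r : k0), D a I (algebraMap k0 K r) = 0) (Cs : Finset A)
    (hd : N * (2 * m + 1) + ∑ a ∈ Finset.univ.filter (fun a => a ∉ Cs), β a * dg a <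
      N * (∑ a, dg a + Cs.card))
    (V : Set (MvPolynomial (Fin (n + 1)) k0))
    (hV : Pool.Agent.TH145.MG.DimLE k0 V m) (i : ι)
    (φ : E.toSubfield →+* LL k0 y (E : Set K) i)
    (D' : A → (Fin (n + 1) →₀ ℕ) → Derivation ℤ (LL k0 y (E : Set K) i) (LL k0 y (E : Set K) i))
    (e : Place (kap k0 y i) (LL k0 y (E : Set K) i) → ℤ)
    (hD' : ∀ a I x, ((D' a I x : LL k0 y (E : Set K) i) : K) = D a I x)
    (hdat : Data (kap k0 y i) c0 (fun a => map φ (F a)) dg D' e)
    (S : Set (Place (kap k0 y i) (LL k0 y (E : Set K) i))) (hS : S.Finite) :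
    ∃ B : ℤ, ∀ x : Fin (n + 1) → LL k0 y (E : Set K) i, x c0 = 1 →
      (∀ f ∈ V, eval₂ (algebraMap k0 K) (fun j => (x j : K)) f = 0) →
      (∀ a ∈ Cs, eval x (map φ (F a)) = 0) → (∀ a, a ∉ Cs → eval x (map φ (F a)) ≠ 0) →
      (∀ Q, Q ∉ S → Cond Cs β N (fun a => map φ (F a)) Q x) →
      ∀ j, hgt (kap k0 y i) (x j) ≤ B := by
  classical
  have hFF : IsFF (kap k0 y i) (LL k0 y (E : Set K) i) := LL_ff E hy i
  have hac : IsAlgClosed (kap k0 y i) := acl_isAlgClosed _
  have hcz : CharZero (kap k0 y i) := charZero_of_injective_algebraMap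
    (algebraMap ℚ (kap k0 y i)).injective
  -- the poles of the coefficients
  have hcf := finite_cf n dg
  have hcf' : Fintype (Cf n dg) := Fintype.ofFinite _
  obtain ⟨Z, hZF⟩ : ∃ Z : Finset (LL k0 y (E : Set K) i),
      ∀ p : Cf n dg, φ ((F p.1).coeff p.2.1) ∈ Z :=
    ⟨Finset.univ.image (fun p : Cf n dg => φ ((F p.1).coeff p.2.1)),
      fun p => Finset.mem_image_of_mem _ (Finset.mem_univ _)⟩
  obtain ⟨g1, hg1, hg1f, hg1T⟩ := exists_poles (κ := kap k0 y i) Z
  obtain ⟨w, hw⟩ : ∃ w : Place (kap k0 y i) (LL k0 y (E : Set K) i) → ℤ,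
    ∀ P, w P = if g1 P = 0 ∧ e P = 0 ∧ P ∉ S then 0 else
      N * (Fintype.card A * (e P + 1)) + (∑ a, (β a : ℤ)) * g1 P := ⟨_, fun _ => rfl⟩
  have hwf : {P | w P ≠ 0}.Finite := by
    refine ((hg1f.union hdat.fin).union hS).subset fun P hP => ?_
    by_contra hcon
    apply hP
    rw [Set.mem_union, Set.mem_union, not_or, not_or] at hcon
    have h1 : ¬ (e P ≠ 0) := hcon.1.2
    have h2 : ¬ (g1 P ≠ 0) := hcon.1.1
    rw [not_not] at h1 h2
    rw [hw, if_pos ⟨h2, h1, hcon.2⟩]
  refine ⟨max (∑ᶠ P, (N * ((n + 1) * e P) + w P)) 0, fun x hxl0 hxV hxC hxF hxQ j => ?_⟩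
  have hxc0 : x c0 ≠ 0 := by rw [hxl0]; exact one_ne_zero
  have hx0 : x ≠ 0 := by
    intro h0
    rw [h0] at hxl0
    exact zero_ne_one hxl0
  -- the dimension
  have hrk : Module.finrank (LL k0 y (E : Set K) i) (Full c0 dg D' x) ≤ m + 1 := by
    let ψ : k0 →+* LL k0 y (E : Set K) i :=
      { toFun := fun r => ⟨algebraMap k0 K r, subset_LL y _ i (k0_mem E r)⟩
        map_one' := Subtype.ext (map_one _)
        map_mul' := fun a b => Subtype.ext (map_mul _ a b)
        map_zero' := Subtype.ext (map_zero _)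
        map_add' := fun a b => Subtype.ext (map_add _ a b) }
    have hczL : CharZero (LL k0 y (E : Set K) i) :=
      charZero_of_injective_algebraMap (algebraMap (kap k0 y i) _).injective
    let _ : Algebra k0 (LL k0 y (E : Set K) i) := ψ.toAlgebra
    refine rank_le (k0 := k0) (fun a I r => ?_) hxl0 ?_
    · apply Subtype.ext
      rw [hD']
      exact hDk a I r
    · refine hV _ x hx0 fun f hf => ?_
      apply Subtype.ext
      have h1 := hom_eval₂ f ψ (algebraMap (LL k0 y (E : Set K) i) K) x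
      refine h1.trans ?_
      have h2 : (algebraMap (LL k0 y (E : Set K) i) K).comp ψ = algebraMap k0 K := by
        ext r
        rfl
      rw [h2]
      exact hxV f hf
  have hcf : ∀ P a u, Ge P (-g1 P) ((map φ (F a)).coeff u) := by
    intro P a u
    rw [coeff_map]
    by_cases hu : u ∈ (F a).support
    · exact hg1T P _ (hZF ⟨a, u, deg_of_mem (hFh a) hu⟩)
    · rw [notMem_support_iff.1 hu, map_zero]
      exact Ge.zero
  have h1 : pht (kap k0 y i) x ≤ max (∑ᶠ P, (N * ((n + 1) * e P) + w P)) 0 := by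
    refine (ineq1 hdat (β := β) (w := w) hd hxc0 hrk hxC hxF hwf fun P => ?_).trans
      (le_max_left _ _)
    have he0 := hdat.e_nonneg P
    have hg0 := hg1 P
    have hva : ∀ a, a ∉ Cs → -g1 P ≤ P.ord (eval x (map φ (F a))) - dg a * pord P x :=
      fun a ha => ord_ge P (hdat.hom a) (hcf P a) hx0 (hxF a ha)
    by_cases hgood : g1 P = 0 ∧ e P = 0 ∧ P ∉ S
    · left
      refine ⟨hgood.2.1, ?_⟩
      have hw1 : w P = 0 := by rw [hw, if_pos hgood]
      rw [hw1, add_zero]
      split_ifs with hpos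
      · rw [mul_one]
        exact (hxQ P hgood.2.2).main hx0 hdat.hom hxF hpos
      · rw [mul_zero]
        refine Finset.sum_nonneg fun a ha => mul_nonneg (Nat.cast_nonneg _) ?_
        have h3 := hva a (Finset.mem_filter.1 ha).2
        rwa [hgood.1, neg_zero] at h3
    · right
      refine ⟨e P + 1, by omega,
        fun f hf a I hI => loss_all P (fun f hf => hdat.loss P f hf a I hI) hf, ?_⟩
      have hw1 : w P = N * (Fintype.card A * (e P + 1)) + (∑ a, (β a : ℤ)) * g1 P := by
        rw [hw, if_neg hgood]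
      have h3 : (∑ a ∈ Finset.univ.filter (fun a => a ∉ Cs),
          if 0 < P.ord (eval x (map φ (F a))) - dg a * pord P x then e P + 1 else 0) ≤
          Fintype.card A * (e P + 1) := by
        have h4 : (∑ a ∈ Finset.univ.filter (fun a => a ∉ Cs),
          if 0 < P.ord (eval x (map φ (F a))) - dg a * pord P x then e P + 1 else 0) ≤
          ∑ a ∈ Finset.univ.filter (fun a => a ∉ Cs), (e P + 1) := by
          refine Finset.sum_le_sum fun a _ => ?_
          split_ifs <;> omega
        refine h4.trans ?_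
        rw [Finset.sum_const, nsmul_eq_mul]
        exact mul_le_mul_of_nonneg_right (by exact_mod_cast Finset.card_le_univ _) (by omega)
      have h5 : -((∑ a, (β a : ℤ)) * g1 P) ≤ ∑ a ∈ Finset.univ.filter (fun a => a ∉ Cs),
          (β a : ℤ) * (P.ord (eval x (map φ (F a))) - dg a * pord P x) := by
        have h6 : ∑ a ∈ Finset.univ.filter (fun a => a ∉ Cs), (β a : ℤ) * (-g1 P) ≤
            ∑ a ∈ Finset.univ.filter (fun a => a ∉ Cs),
            (β a : ℤ) * (P.ord (eval x (map φ (F a))) - dg a * pord P x) :=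
          Finset.sum_le_sum fun a ha => mul_le_mul_of_nonneg_left
            (hva a (Finset.mem_filter.1 ha).2) (Nat.cast_nonneg _)
        refine le_trans ?_ h6
        rw [← Finset.sum_mul, mul_neg]
        refine neg_le_neg (mul_le_mul_of_nonneg_right ?_ hg0)
        exact Finset.sum_le_univ_sum_of_nonneg fun a => Nat.cast_nonneg _
      have h7 := mul_le_mul_of_nonneg_left h3 (Nat.cast_nonneg (α := ℤ) N)
      rw [hw1]
      linarith
  by_cases hj : x j = 0
  · rw [hj]
    have := Pool.Agent.TH145.MG.hgt_const (k := kap k0 y i) (L := LL k0 y (E : Set K) i) 0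
    rw [map_zero] at this
    rw [this]
    exact le_max_right _ _
  · have h2 := Pool.Agent.W603.CX.hgt_le_pht (k := kap k0 y i) x hj (l := c0)
      (by rw [hxl0]; exact one_ne_zero)
    rw [hxl0, div_one] at h2
    exact h2.trans h1

end Pool.Agent.H435.CP
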