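import Pool.Agent.H435.CP.Arith
import Pool.Agent.H435.CP.Geom

/-!
C-pairs with a generically finite map to a generic C-pair are of general type.
-/

set_option autoImplicit false

open MvPolynomial FF Pool.Agent.W603.LV Pool.Agent.W603.PV Pool.Agent.W602.GT Pool.Agent.TH145.GH
open Pool.Agent.TH145.MG (DimLE)
open Pool.Agent.N126.RC (Generic full_systems generic_closure)

namespace Pool.Agent.H435.CP

/-- Every C-pair (with the function field `L`, of transcendence degree `r ≥ 1` over `K`, and the
coefficients `c Q` of the boundary) with a generically finite map of C-pairs to the C-pair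
`(V ∩ {F c = 0, c ∈ C}, ∑ (1 - w a) {F a = 0})` is of general type. The point `x` of the variety over
`L` is the image of the generic point. -/
def MapsGeneral {k K : Type} [Field k] [Field K] [Algebra k K] {n : ℕ} {A : Type}
    [Fintype A] [DecidableEq A] (V : Set (MvPolynomial (Fin (n + 1)) k))
    (F : A → MvPolynomial (Fin (n + 1)) K) (C : Finset A) (w : A → ℚ) : Prop :=
  ∀ (L : Type) [Field L] [Algebra K L] (r : ℕ) (x : Fin (n + 1) → L) (c : Place K L → ℚ), 0 < r →
    Algebra.trdeg K L = r → x ≠ 0 → (∀ f ∈ V, aeval x (map (algebraMap k K) f) = 0) →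
    (∀ a ∈ C, aeval x (F a) = 0) → (∀ a ∈ Cᶜ, aeval x (F a) ≠ 0) →
    Algebra.IsAlgebraic (coords K x) L → (∀ Q, 0 ≤ c Q) →
    (∀ Q : Place K L, Divisorial r Q →
      CampanaAt (1 - c Q) C w (fun a => map (algebraMap K L) (F a)) Q x) →
    PairGeneralType K L r c

theorem maps_general {k K : Type} [Field k] [Field K] [IsAlgClosed K] [CharZero K] [Algebra k K]
    {n m : ℕ} {A : Type} [Fintype A] [DecidableEq A] {d : A → ℕ}
    (V : Set (MvPolynomial (Fin (n + 1)) (algebraicClosure k K)))
    (hVh : ∀ f ∈ V, ∃ e, f.IsHomogeneous e) (hV : DimLE (algebraicClosure k K) V m)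
    (F : A → MvPolynomial (Fin (n + 1)) K) (hF : Generic k d F) (C : Finset A) (w : A → ℚ)
    (hw : ∀ a, 0 ≤ w a)
    (hd : (2 * m + 1 : ℚ) < ∑ a ∈ C, ((d a : ℚ) + 1) + ∑ a ∈ Cᶜ, (d a : ℚ) * (1 - w a)) :
    MapsGeneral V F C w := by
  classical
  intro L _ _ r x c hr htr hx hxV hxC hxF halg hc0 hQ
  have hF' := generic_closure hF
  have hFh := hF.1
  obtain ⟨hft, P, cf, j0, hP, hSt, h0, hind, hFP⟩ := full_systems hF'
  obtain ⟨N, β, hN, hβ⟩ := exists_weights w hw
  have hnum := num_weights hN hβ C hd
  obtain ⟨l0, hl0⟩ : ∃ l, x l ≠ 0 := by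
    by_contra h
    push Not at h
    exact hx (funext h)
  have hNq : (0 : ℚ) < N := by exact_mod_cast hN
  have hmain := pair_general V hVh hV P hP cf j0 h0 hind l0 (hSt l0) hFP C β N hN hr
    (by
      have h6 : ∀ S : Finset A, (∀ a, a ∈ S ↔ a ∉ C) → N * (2 * m + 1) +
          ∑ a ∈ S, β a * d a < N * (∑ a, d a + C.card) := by
        intro S hS
        have h7 : S = Cᶜ := by
          ext a
          rw [hS, Finset.mem_compl]
        rw [h7]
        exact hnum
      exact h6 _ fun a => by simp) htr x hl0 halg hxV hxC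
    (fun a ha => hxF a (Finset.mem_compl.2 ha)) c hc0 (fun Q hQd hpos => by
      -- the point in coordinates regular at `Q`
      obtain ⟨lam, x', hlam, hlo, hxl, hx', l, hl⟩ := exists_scaled Q hx
      have hlx : x l = lam := by rw [hxl, Pi.smul_apply, hl, smul_eq_mul, mul_one]
      have hx'e : (fun j => x j / x l) = x' := by
        funext j
        rw [hlx, hxl, Pi.smul_apply, smul_eq_mul, mul_div_cancel_left₀ _ hlam]
      have hev : ∀ a, eval x (map (algebraMap K L) (F a)) = aeval x (F a) := fun a => by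
        rw [eval_map]
        rfl
      have h1 : ∀ a, eval x (map (algebraMap K L) (F a)) =
          lam ^ d a * eval x' (map (algebraMap K L) (F a)) := fun a => by
        rw [hxl, eval_smul_hom ((hFh a).map _)]
      have h2 : ∀ a, a ∉ C → Q.ord (aeval x (F a)) - d a * pord Q x =
          Q.ord (eval x' (map (algebraMap K L) (F a))) := by
        intro a ha
        have h3 : eval x' (map (algebraMap K L) (F a)) ≠ 0 := fun h0 =>
          hxF a (Finset.mem_compl.2 ha) (by rw [← hev, h1, h0, mul_zero])
        rw [← hev, h1, Q.ord_mul (pow_ne_zero _ hlam) h3, Q.ord_pow, hlo]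
        ring
      have h3 := hQ Q hQd l (by rw [hlx]; exact hlam) (fun j => by
        have h4 := congrFun hx'e j
        rw [h4]
        exact hx' j)
      rw [hx'e] at h3
      obtain ⟨a, ha, hlt⟩ := hpos
      have h4 := h3 ⟨a, Finset.mem_compl.2 ha, by
        have := h2 a ha
        linarith⟩
      have h5 : ∀ S : Finset A, (∀ a, a ∈ S ↔ a ∉ C) →
          N * ∑ a ∈ Cᶜ, w a * (Q.ord (eval x' (map (algebraMap K L) (F a))) : ℚ) ≤
          ((∑ a ∈ S, (β a : ℤ) * (Q.ord (aeval x (F a)) - d a * pord Q x) : ℤ) : ℚ) := by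
        intro S hS
        have hSC : S = Cᶜ := by
          ext a
          rw [hS, Finset.mem_compl]
        have h6 : ∑ a ∈ S, (β a : ℤ) * (Q.ord (aeval x (F a)) - d a * pord Q x) =
            ∑ a ∈ Cᶜ, (β a : ℤ) * Q.ord (eval x' (map (algebraMap K L) (F a))) := by
          rw [hSC]
          exact Finset.sum_congr rfl fun a ha => by rw [h2 a (Finset.mem_compl.1 ha)]
        rw [h6]
        push_cast
        rw [Finset.mul_sum]
        refine le_of_eq (Finset.sum_congr rfl fun a _ => ?_)
        rw [hβ]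
        field_simp
      refine le_trans (mul_le_mul_of_nonneg_left h4 hNq.le) (h5 _ fun a => ?_)
      simp)
  exact hmain

end Pool.Agent.H435.CP
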