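import Pool.Agent.H435.CP.Setup

/-!
Finiteness of the points with a condition for the multiplicities at the divisors of `Spec k[T]`.
-/

set_option autoImplicit false

open MvPolynomial FF Pool.Agent.W603.LV Pool.Agent.TH145.GH
open Pool.Agent.TH145.GD (St deg_St)
open Pool.Agent.TH145.MG (DimLE)
open Pool.Agent.TH145.GK (Gen)

namespace Pool.Agent.H435.CP

/-- Places and scalars. -/
theorem ord_scal {κ L : Type} [Field κ] [Field L] [Algebra κ L] (P : Place κ L) {c : L}
    (hc : c ≠ 0) (h : P.ord c = 0) (w : L) : P.ord (c * w) = P.ord w := by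
  by_cases hw : w = 0
  · rw [hw, mul_zero]
  · rw [P.ord_mul hc hw, h, zero_add]

open scoped Classical in
/-- Finiteness of the points over a finitely generated field with the condition at the divisors. -/
theorem fin_campana {k0 K : Type} [Field k0] [Field K] [Algebra k0 K] [IsAlgClosed K]
    [CharZero K] [IsAlgClosed k0] {n m N : ℕ} {A : Type} [Fintype A] {dg β : A → ℕ} (Cs : Finset A)
    (hd : N * (2 * m + 1) + ∑ a ∈ Finset.univ.filter (fun a => a ∉ Cs), β a * dg a <
      N * (∑ a, dg a + Cs.card))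
    (V : Set (MvPolynomial (Fin (n + 1)) k0)) (hV : DimLE k0 V m)
    {J : A → Type} [∀ a, Fintype (J a)] (P : ∀ a, J a → MvPolynomial (Fin (n + 1)) k0)
    (hP : ∀ a j, (P a j).IsHomogeneous (dg a))
    (c0 : Fin (n + 1)) (hSt : ∀ a, ∀ I ∈ St c0 (dg a), ∃ j, P a j = monomial I 1)
    {cf : ∀ a, J a → K} {F : A → MvPolynomial (Fin (n + 1)) K}
    (hF : ∀ a, F a = ∑ j, C (cf a j) * map (algebraMap k0 K) (P a j))
    (hind : AlgebraicIndependent k0 fun p : (Σ a, J a) => cf p.1 p.2)
    {R : Type} [Field R] [Algebra k0 R] (ψ : R →ₐ[k0] K) (T : Finset R)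
    (hT : IntermediateField.adjoin k0 (T : Set R) = ⊤) (G : A → MvPolynomial (Fin (n + 1)) R)
    (lam : A → K) (hlam : ∀ a, lam a ≠ 0) (hG : ∀ a, F a = C (lam a) * map (ψ : R →+* K) (G a)) :
    {x : Fin (n + 1) → R | x c0 = 1 ∧ (∀ f ∈ V, aeval x f = 0) ∧ (∀ a ∈ Cs, eval x (G a) = 0) ∧
      (∀ a, a ∉ Cs → eval x (G a) ≠ 0) ∧
      ∀ Q : Place k0 R, IsDiv k0 (T : Set R) Q → Cond Cs β N G Q x}.Finite := by
  obtain ⟨T', hT'⟩ : ∃ T' : Finset K, T' = T.image ψ ∪ Finset.univ.image lam := ⟨_, rfl⟩
  obtain ⟨B, hB, K1, y, E, F1, DE, D, hK1, hc, hy, h1, h2, h3, h4, h5, h6, h6', h7, h8⟩ :=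
    exists_all P hP c0 hSt hF hind T'
  have : Finite B := hB
  have hinj : Function.Injective (algebraMap K1 K) := (algebraMap K1 K).injective
  -- the embedding of `R`
  have hψT : ∀ z : R, ψ z ∈ IntermediateField.adjoin k0 (T' : Set K) := by
    intro z
    have h9 : z ∈ IntermediateField.adjoin k0 (T : Set R) := by rw [hT]; trivial
    have h10 : (IntermediateField.adjoin k0 (T : Set R)).map ψ ≤
        IntermediateField.adjoin k0 (T' : Set K) := by
      rw [IntermediateField.adjoin_map]
      refine IntermediateField.adjoin.mono _ _ _ ?_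
      rw [hT', Finset.coe_union, Finset.coe_image]
      exact Set.subset_union_left
    exact h10 ⟨z, h9, rfl⟩
  have hlT : ∀ a, lam a ∈ IntermediateField.adjoin k0 (T' : Set K) := by
    intro a
    refine IntermediateField.subset_adjoin _ _ ?_
    rw [hT', Finset.mem_coe]
    exact Finset.mem_union_right _ (Finset.mem_image_of_mem _ (Finset.mem_univ a))
  choose e he hex using fun z => h8 (ψ z) (hψT z)
  choose l hl hlx using fun a => h8 (lam a) (hlT a)
  obtain ⟨ψ1, hψ1⟩ : ∃ ψ1 : R →ₐ[k0] K1, ∀ z, ψ1 z = e z :=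
    ⟨{ toFun := e
       map_one' := hinj (by rw [map_one]; exact (hex 1).trans (map_one ψ))
       map_mul' := fun a b => hinj (by
        rw [map_mul]
        refine (hex (a * b)).trans ((map_mul ψ a b).trans ?_)
        exact congrArg₂ (· * ·) (hex a).symm (hex b).symm)
       map_zero' := hinj (by rw [map_zero]; exact (hex 0).trans (map_zero ψ))
       map_add' := fun a b => hinj (by
        rw [map_add]
        refine (hex (a + b)).trans ((map_add ψ a b).trans ?_)
        exact congrArg₂ (· + ·) (hex a).symm (hex b).symm)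
       commutes' := fun r => hinj ((hex _).trans (ψ.commutes r)) }, fun _ => rfl⟩
  have hψ1E : ∀ z, ψ1 z ∈ E := fun z => by rw [hψ1]; exact he z
  have hψ1K : ∀ z, algebraMap K1 K (ψ1 z) = ψ z := fun z => by rw [hψ1]; exact hex z
  have hl0 : ∀ a, l a ≠ 0 := by
    intro a h0
    have h9 : algebraMap K1 K (l a) = lam a := hlx a
    rw [h0, map_zero] at h9
    exact hlam a h9.symm
  -- the values of the forms
  have hF1 : ∀ a, map E.toSubfield.subtype (F1 a) = C (l a) * map (ψ1 : R →+* K1) (G a) := by
    intro a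
    apply map_injective _ hinj
    have h10 : (ψ : R →+* K) = (algebraMap K1 K).comp (ψ1 : R →+* K1) :=
      RingHom.ext fun z => (hψ1K z).symm
    have h11 : lam a = algebraMap K1 K (l a) := (hlx a).symm
    rw [map_map, h7, hG, map_mul, map_C, map_map, h10, h11]
  have hval : ∀ a (z : Fin (n + 1) → R), eval (fun j => ψ1 (z j)) (map E.toSubfield.subtype (F1 a)) =
      l a * ψ1 (eval z (G a)) := by
    intro a z
    rw [hF1, map_mul, eval_C, eval_map]
    congr 1
    exact (hom_eval₂ (G a) (RingHom.id R) (ψ1 : R →+* K1) z).symm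
  -- the exceptional places
  have hS1 := fun i => restrict_div E hy ψ1 hψ1E T hT i
  choose S1 hS1f hS1 using hS1
  have hff : ∀ i, IsFF (kap k0 y i) (LL k0 y (E : Set K1) i) := fun i => LL_ff E hy.1 i
  have hS2 : ∀ i, ∃ S2 : Finset (Place (kap k0 y i) (LL k0 y (E : Set K1) i)), ∀ P, P ∉ S2 →
      ∀ a, P.ord (⟨l a, subset_LL y _ i (hl a)⟩ : LL k0 y (E : Set K1) i) = 0 := by
    intro i
    have := hff i
    have hcz : CharZero (kap k0 y i) := charZero_of_injective_algebraMap
      (algebraMap ℚ (kap k0 y i)).injective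
    obtain ⟨S, hS⟩ := exists_supp (k := kap k0 y i) (Finset.univ : Finset A)
      (fun a => (⟨l a, subset_LL y _ i (hl a)⟩ : LL k0 y (E : Set K1) i))
    refine ⟨S, fun P hP a => ?_⟩
    by_contra h
    exact hP (hS a (Finset.mem_univ a) P h)
  choose S2 hS2 using hS2
  have h9 := fin_pairs E hy h3 D h4 h5 h6 h6' Cs hd V hV (fun i => S1 i ∪ (S2 i : Set _))
    fun i => (hS1f i).union (S2 i).finite_toSet
  refine Set.Finite.of_finite_image (f := fun x j => (⟨ψ1 (x j), hψ1E (x j)⟩ : E)) (h9.subset ?_) ?_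
  · rintro _ ⟨x, ⟨hx1, hxV, hxC, hxF, hxQ⟩, rfl⟩
    refine ⟨?_, fun f hf => ?_, fun a ha => ?_, fun a ha => ?_, fun i φ hφ P hPS => ?_⟩
    · apply Subtype.ext
      change ψ1 (x c0) = 1
      rw [hx1, map_one]
    · have h10 := hom_eval₂ f (algebraMap k0 R) (ψ1 : R →+* K1) x
      have h11 : (ψ1 : R →+* K1).comp (algebraMap k0 R) = algebraMap k0 K1 := by
        exact RingHom.ext fun r => ψ1.commutes r
      rw [h11] at h10
      have h12 : eval₂ (algebraMap k0 R) x f = 0 := hxV f hf
      rw [h12, map_zero] at h10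
      exact h10.symm
    · have h10 := hval a x
      rw [hxC a ha, map_zero, mul_zero] at h10
      exact h10
    · have h10 := hval a x
      intro h0
      refine mul_ne_zero (hl0 a) ((_root_.map_ne_zero ψ1).2 (hxF a ha)) ?_
      rw [← h10]
      exact h0
    · -- the condition
      intro lx hlx' hreg hpos
      rw [Set.mem_union, not_or] at hPS
      have hlxx : x lx ≠ 0 := by
        intro h0
        apply hlx'
        apply Subtype.ext
        change ψ1 (x lx) = 0
        rw [h0, map_zero]
      -- the orders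
      have hquo : ∀ j, (⟨ψ1 (x j), subset_LL y _ i (hψ1E (x j))⟩ : LL k0 y (E : Set K1) i) /
          ⟨ψ1 (x lx), subset_LL y _ i (hψ1E (x lx))⟩ =
          ⟨ψ1 (x j / x lx), subset_LL y _ i (hψ1E _)⟩ := by
        intro j
        apply Subtype.ext
        exact (map_div₀ ψ1 _ _).symm
      have hev : ∀ a, eval (fun j =>
          (⟨ψ1 (x j / x lx), subset_LL y _ i (hψ1E _)⟩ : LL k0 y (E : Set K1) i))
          (map φ (F1 a)) = (⟨l a, subset_LL y _ i (hl a)⟩ : LL k0 y (E : Set K1) i) *
          ⟨ψ1 (eval (fun j => x j / x lx) (G a)), subset_LL y _ i (hψ1E _)⟩ := by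
        intro a
        apply (algebraMap (LL k0 y (E : Set K1) i) K1).injective
        rw [eval_incl φ hφ (F1 a)]
        refine Eq.trans ?_ (hval a fun j => x j / x lx)
        rfl
      have hord : ∀ a, P.ord (eval (fun j =>
          (⟨ψ1 (x j / x lx), subset_LL y _ i (hψ1E _)⟩ : LL k0 y (E : Set K1) i))
          (map φ (F1 a))) =
          P.ord (⟨ψ1 (eval (fun j => x j / x lx) (G a)), subset_LL y _ i (hψ1E _)⟩ :
            LL k0 y (E : Set K1) i) := by
        intro a
        rw [hev]
        refine ord_scal P (fun h => hl0 a (congrArg Subtype.val h)) (hS2 i P hPS.2 a) _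
      simp only [hquo] at hreg hpos ⊢
      simp only [hord] at hpos ⊢
      rcases hS1 i P hPS.1 with h10 | ⟨Q, e', he', hQT, hQ⟩
      · exfalso
        obtain ⟨a, -, ha⟩ := hpos
        rw [h10] at ha
        exact lt_irrefl _ ha
      · simp only [hQ] at hpos ⊢
        have he1 : (0 : ℤ) < e' := by exact_mod_cast he'
        have h11 := hxQ Q hQT lx hlxx (fun j => by
          rcases hreg j with h | h
          · left
            have h12 : ψ1 (x j / x lx) = 0 := congrArg Subtype.val h
            exact (_root_.map_eq_zero ψ1).1 h12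
          · right
            rw [hQ] at h
            exact nonneg_of_mul_nonneg_right h he1) (by
          obtain ⟨a, ha, h⟩ := hpos
          exact ⟨a, ha, (mul_pos_iff_of_pos_left he1).1 h⟩)
        have h12 : ∑ a ∈ Finset.univ.filter (fun a => a ∉ Cs),
            (β a : ℤ) * (e' * Q.ord (eval (fun j => x j / x lx) (G a))) =
            e' * ∑ a ∈ Finset.univ.filter (fun a => a ∉ Cs),
            (β a : ℤ) * Q.ord (eval (fun j => x j / x lx) (G a)) := by
          rw [Finset.mul_sum]
          exact Finset.sum_congr rfl fun a _ => by ring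
        rw [h12]
        have h13 : (1 : ℤ) ≤ e' := he1
        have h14 : (0 : ℤ) ≤ N := Nat.cast_nonneg _
        nlinarith
  · intro x _ x' _ hxx
    funext j
    have h10 := congrFun hxx j
    have h11 : ψ1 (x j) = ψ1 (x' j) := congrArg Subtype.val h10
    exact ψ1.toRingHom.injective h11

end Pool.Agent.H435.CP
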