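import Pool.Graph.R_seed8.W603.LV.Hgt
import Pool.Graph.R_seed8.W603.LV.Der2
import Pool.Graph.R_seed8.W603.PV.Ext

/-!
Relations of bounded degree between two functions, the second one integral over the first one.
-/

set_option autoImplicit false

open Polynomial FF Pool.Agent.W603.LV Pool.Agent.W603.PV IsDedekindDomain IntermediateField

namespace Pool.Agent.H435.CP

section swap

variable {k : Type} [Field k]

theorem coeff_swap (G : k[X][X]) (i j : ℕ) :
    ((Bivariate.swap G).coeff i).coeff j = (G.coeff j).coeff i := by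
  induction G using Polynomial.induction_on' with
  | add p q hp hq => rw [map_add, coeff_add, coeff_add, coeff_add, coeff_add, hp, hq]
  | monomial n a =>
    induction a using Polynomial.induction_on' with
    | add p q hp hq =>
      rw [map_add, map_add, coeff_add, coeff_add, coeff_add, coeff_add, hp, hq]
    | monomial m a =>
      rw [Bivariate.swap_monomial_monomial]
      simp only [coeff_monomial]
      by_cases h1 : m = i <;> by_cases h2 : n = j
      · simp [h1, h2]
      · simp [h1, h2, coeff_monomial]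
      · simp [h1, h2, coeff_monomial]
      · simp [h1, h2]

theorem coeff_deg (G : k[X][X]) (j : ℕ) : (G.coeff j).natDegree ≤ (Bivariate.swap G).natDegree := by
  rw [natDegree_le_iff_coeff_eq_zero]
  intro i hi
  rw [← coeff_swap, coeff_eq_zero_of_natDegree_lt hi, coeff_zero]

end swap

variable {k L : Type} [Field k] [Field L] [Algebra k L] [CharZero k] [h : IsFF k L]

/-- A function that is regular where `w` is regular is integral over `k[w]`. -/
theorem int_of_places {w ρ : L} (hw : Transcendental k w)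
    (hρ : ∀ Q : Place k L, Q.Reg w → Q.Reg ρ) : IsIntegral (Algebra.adjoin k {w}) ρ := by
  open scoped algebraAdjoinAdjoin in
  let A := Algebra.adjoin k {w}
  let e := Polynomial.algEquivOfTranscendental k w hw
  have hpid : IsPrincipalIdealRing A := IsPrincipalIdealRing.of_surjective e.toRingEquiv e.surjective
  have hded : IsDedekindDomain A := inferInstance
  have hfin := IsFF.finite hw
  have hchar : CharZero k⟮w⟯ := charZero_of_injective_algebraMap (algebraMap k k⟮w⟯).injective
  have hsep : Algebra.IsSeparable k⟮w⟯ L := inferInstance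
  let B := integralClosure A L
  have : IsDedekindDomain B := integralClosure.isDedekindDomain A k⟮w⟯ L
  have : IsFractionRing B L := integralClosure.isFractionRing_of_finite_extension k⟮w⟯ L
  have hsc : IsScalarTower k B L := by
    refine IsScalarTower.of_algebraMap_eq fun c => ?_
    rw [IsScalarTower.algebraMap_apply k A B, ← IsScalarTower.algebraMap_apply A B L,
      ← IsScalarTower.algebraMap_apply k A L]
  have hwB : IsIntegral A w :=
    isIntegral_algebraMap (x := (⟨w, Algebra.self_mem_adjoin_singleton k w⟩ : A))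
  have h1 : ∀ v : HeightOneSpectrum B, v.valuation L ρ ≤ 1 := by
    intro v
    have h2 : (placeOf (k := k) (L := L) v).Reg w := placeOf_reg v (⟨w, hwB⟩ : B)
    have h3 := hρ _ h2
    by_cases h0 : ρ = 0
    · rw [h0, map_zero]; exact zero_le_one
    · exact (placeOf_nonneg v h0).1 ((Place.reg_iff _ h0).1 h3)
  obtain ⟨b, hb⟩ := HeightOneSpectrum.mem_integers_of_valuation_le_one L ρ h1
  rw [← hb]
  exact b.2

omit [CharZero k] h in
theorem E2_swap (w ρ : L) (G : k[X][X]) : E2 ρ w (Bivariate.swap G) = E2 w ρ G := by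
  induction G using Polynomial.induction_on' with
  | add p q hp hq => rw [map_add, map_add, map_add, hp, hq]
  | monomial n a =>
    induction a using Polynomial.induction_on' with
    | add p q hp hq => rw [map_add, map_add, map_add, map_add, hp, hq]
    | monomial m a =>
      rw [Bivariate.swap_monomial_monomial, E2_monomial, E2_monomial, aeval_monomial,
        aeval_monomial]
      ring

/-- The relation of minimal degree. -/
theorem exists_rel {w : L} (ρ : L) (hw : Transcendental k w) : ∃ G : k[X][X], G ≠ 0 ∧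
    G.natDegree ≤ Module.finrank k⟮w⟯ L ∧ E2 w ρ G = 0 := by
  open scoped algebraAdjoinAdjoin in
  let A := Algebra.adjoin k {w}
  let e := Polynomial.algEquivOfTranscendental k w hw
  have hfin := IsFF.finite hw
  have hint : IsIntegral k⟮w⟯ ρ := IsIntegral.of_finite _ _
  obtain ⟨p, hp⟩ : ∃ p, p = minpoly k⟮w⟯ ρ := ⟨_, rfl⟩
  have hp0 : p ≠ 0 := by rw [hp]; exact minpoly.ne_zero hint
  obtain ⟨b, hbm, hb⟩ := IsLocalization.integerNormalization_spec (nonZeroDivisors A) p
  obtain ⟨g, hg⟩ : ∃ g, g = IsLocalization.integerNormalization (nonZeroDivisors A) p := ⟨_, rfl⟩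
  rw [← hg] at hb
  have hinj : Function.Injective (algebraMap A k⟮w⟯) := IsFractionRing.injective A k⟮w⟯
  have hb0 : (b : A) ≠ 0 := nonZeroDivisors.ne_zero hbm
  have hbp : (b : A) • p = C (algebraMap A k⟮w⟯ b) * p := by
    rw [← smul_eq_C_mul, algebraMap_smul]
  have hbC : algebraMap A k⟮w⟯ b ≠ 0 := (map_ne_zero_iff _ hinj).2 hb0
  have hg0 : g ≠ 0 := by
    rintro h0
    rw [h0, Polynomial.map_zero, hbp] at hb
    exact mul_ne_zero (C_ne_zero.2 hbC) hp0 hb.symm
  have hgd : g.natDegree ≤ p.natDegree := by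
    rw [← natDegree_map_eq_of_injective hinj g, hb, hbp, natDegree_C_mul hbC]
  have hga : aeval ρ g = 0 := by
    have h1 : aeval ρ (g.map (algebraMap A k⟮w⟯)) = 0 := by
      rw [hb, hbp, map_mul, hp, minpoly.aeval, mul_zero]
    rwa [aeval_map_algebraMap] at h1
  refine ⟨g.map (e.symm : A →+* k[X]), ?_, ?_, ?_⟩
  · exact (Polynomial.map_ne_zero_iff e.symm.injective).2 hg0
  · refine natDegree_map_le.trans (hgd.trans ?_)
    rw [hp]
    exact minpoly.natDegree_le ρ
  · have h1 : ∀ a : A, aeval w (e.symm a) = (a : L) := by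
      intro a
      have h2 : ∀ r : k[X], ((e r : A) : L) = aeval w r := fun r => by simp [e]
      rw [← h2, AlgEquiv.apply_symm_apply]
    have h2 : E2 w ρ (g.map (e.symm : A →+* k[X])) = aeval ρ g := by
      rw [E2_apply, eval₂_map, aeval_def]
      refine congrArg (fun f => eval₂ f ρ g) ?_
      ext a
      exact h1 a
    rw [h2, hga]

theorem exists_monic {w ρ : L} (hw : Transcendental k w) (hρ : Transcendental k ρ)
    (hreg : ∀ Q : Place k L, Q.Reg w → Q.Reg ρ) : ∃ μ : k[X][X], μ.Monic ∧
    μ.natDegree ≤ Module.finrank k⟮w⟯ L ∧ (∀ j, (μ.coeff j).natDegree ≤ Module.finrank k⟮ρ⟯ L) ∧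
    E2 w ρ μ = 0 := by
  obtain ⟨ψ, hψ⟩ : ∃ ψ : k[X] →+* L, ψ = ((aeval w : k[X] →ₐ[k] L) : k[X] →+* L) := ⟨_, rfl⟩
  let _ : Algebra k[X] L := ψ.toAlgebra
  have hE2 : ∀ G : k[X][X], aeval ρ G = E2 w ρ G := by
    intro G
    rw [E2_apply, ← hψ]
    rfl
  have hinj : Function.Injective (algebraMap k[X] L) := by
    change Function.Injective ψ
    rw [hψ]
    exact transcendental_iff_injective.1 hw
  have hint : IsIntegral k[X] ρ := by
    obtain ⟨p, hp, hp0⟩ := int_of_places hw hreg
    let e := Polynomial.algEquivOfTranscendental k w hw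
    refine ⟨p.map (e.symm : Algebra.adjoin k {w} →+* k[X]), hp.map _, ?_⟩
    rw [eval₂_map]
    rw [← hp0]
    refine congrArg (fun f => eval₂ f ρ p) ?_
    ext a
    change ψ (e.symm a) = (a : L)
    rw [hψ]
    have h2 : ∀ r : k[X], ((e r : Algebra.adjoin k {w}) : L) = aeval w r := fun r => by simp [e]
    change aeval w (e.symm a) = (a : L)
    rw [← h2, AlgEquiv.apply_symm_apply]
  have htf : Module.IsTorsionFree k[X] L := Module.isTorsionFree_iff_algebraMap_injective.2 hinj
  have hdvd : ∀ G : k[X][X], E2 w ρ G = 0 → minpoly k[X] ρ ∣ G := fun G hG =>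
    minpoly.isIntegrallyClosed_dvd hint (by rw [hE2, hG])
  obtain ⟨G1, h10, h1d, h1⟩ := exists_rel ρ hw
  obtain ⟨G2, h20, h2d, h2⟩ := exists_rel w hρ
  refine ⟨minpoly k[X] ρ, minpoly.monic hint, ?_, fun j => ?_, ?_⟩
  · exact (natDegree_le_of_dvd (hdvd G1 h1) h10).trans h1d
  · refine (coeff_deg _ j).trans (le_trans ?_ h2d)
    have h3 : minpoly k[X] ρ ∣ Bivariate.swap G2 := hdvd _ (by rw [E2_swap, h2])
    have h4 : Bivariate.swap (minpoly k[X] ρ) ∣ G2 := by
      have h5 := map_dvd (Bivariate.swap : k[X][X] ≃ₐ[k] k[X][X]) h3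
      rwa [Bivariate.swap_swap_apply] at h5
    exact natDegree_le_of_dvd h4 h20
  · rw [← hE2, minpoly.aeval]

omit [CharZero k] h in
theorem E2_range {w ρ : L} {G : k[X][X]} {H M : ℕ} (hG : G.natDegree < M)
    (hc : ∀ j, (G.coeff j).natDegree < H) : E2 w ρ G =
    ∑ j ∈ Finset.range M, ∑ i ∈ Finset.range H,
      algebraMap k L ((G.coeff j).coeff i) * (w ^ i * ρ ^ j) := by
  rw [E2_apply, eval₂_eq_sum_range' _ hG]
  refine Finset.sum_congr rfl fun j _ => ?_
  change aeval w (G.coeff j) * ρ ^ j = _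
  rw [aeval_eq_sum_range' (hc j), Finset.sum_mul]
  refine Finset.sum_congr rfl fun i _ => ?_
  rw [Algebra.smul_def, mul_assoc]

/-- The integral relation. -/
theorem int_rel [IsAlgClosed k] {w ρ : L} {H : ℕ} (hH : 1 ≤ H) (hw : hgt k w ≤ H)
    (hρ : hgt k ρ ≤ H) (hreg : ∀ Q : Place k L, Q.Reg w → Q.Reg ρ) :
    ∃ γ : ℕ → ℕ → k, ρ ^ H = ∑ j ∈ Finset.range H, ∑ i ∈ Finset.range (H + 1),
      algebraMap k L (γ j i) * (w ^ i * ρ ^ j) := by
  -- constants
  have hcon : ∀ c : k, ρ = algebraMap k L c → ∃ γ : ℕ → ℕ → k, ρ ^ H =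
      ∑ j ∈ Finset.range H, ∑ i ∈ Finset.range (H + 1),
      algebraMap k L (γ j i) * (w ^ i * ρ ^ j) := by
    intro c hc
    obtain ⟨H', rfl⟩ : ∃ H', H = H' + 1 := ⟨H - 1, by omega⟩
    obtain ⟨γ, hγ⟩ : ∃ γ : ℕ → ℕ → k, ∀ j i, γ j i = if j = H' ∧ i = 0 then c else 0 :=
      ⟨_, fun _ _ => rfl⟩
    refine ⟨γ, ?_⟩
    rw [Finset.sum_eq_single H', Finset.sum_eq_single 0]
    · rw [hγ, if_pos ⟨rfl, rfl⟩, pow_zero, one_mul, ← hc]
      ring
    · intro i _ hi
      rw [hγ, if_neg (fun h => hi h.2), map_zero, zero_mul]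
    · intro h
      simp at h
    · intro j _ hj
      refine Finset.sum_eq_zero fun i _ => ?_
      rw [hγ, if_neg (fun h => hj h.1), map_zero, zero_mul]
    · intro h
      simp at h
  by_cases hρt : Transcendental k ρ
  · have hwt : Transcendental k w := by
      intro hal
      have h1 : hgt k ρ ≤ 0 := by
        have h2 : hgt k ρ = 0 := by
          unfold hgt
          refine finsum_eq_zero_of_forall_eq_zero fun P => ?_
          have h3 : P.Reg w := by
            by_cases h0 : w = 0
            · exact Or.inl h0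
            · exact Or.inr (P.ord_eq_zero_of_isAlgebraic h0 hal).ge
          have h4 := hreg P h3
          rcases h4 with h4 | h4
          · rw [h4, P.ord_zero]; rfl
          · omega
        exact h2.le
      obtain ⟨c, hc⟩ := const_of_hgt h1
      exact hρt (hc ▸ isAlgebraic_algebraMap c)
    obtain ⟨μ, hμ, hμd, hμc, hμ0⟩ := exists_monic hwt hρt hreg
    rw [← Int.ofNat_le, ← hgt_eq_finrank hwt] at hμd
    have hd : μ.natDegree ≤ H := by exact_mod_cast hμd.trans hw
    have hc : ∀ j, (μ.coeff j).natDegree ≤ H := fun j => by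
      have h1 := hμc j
      rw [← Int.ofNat_le, ← hgt_eq_finrank hρt] at h1
      exact_mod_cast h1.trans hρ
    obtain ⟨ν, hν⟩ : ∃ ν : k[X][X], ν = μ * X ^ (H - μ.natDegree) := ⟨_, rfl⟩
    have hνm : ν.Monic := hν ▸ hμ.mul (monic_X_pow _)
    have hνd : ν.natDegree = H := by
      rw [hν, hμ.natDegree_mul (monic_X_pow _), natDegree_X_pow]
      omega
    have hνc : ∀ j, (ν.coeff j).natDegree < H + 1 := by
      intro j
      rw [hν, coeff_mul_X_pow']
      split_ifs
      · exact Nat.lt_succ_of_le (hc _)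
      · simp
    have hν0 : E2 w ρ ν = 0 := by rw [hν, map_mul, hμ0, zero_mul]
    rw [E2_range (M := H + 1) (by omega) hνc, Finset.sum_range_succ] at hν0
    have h1 : ∑ i ∈ Finset.range (H + 1), algebraMap k L ((ν.coeff H).coeff i) * (w ^ i * ρ ^ H) =
        ρ ^ H := by
      have h2 : ν.coeff H = 1 := by
        rw [← hνd]; exact hνm.coeff_natDegree
      rw [h2, Finset.sum_eq_single 0]
      · simp
      · intro i _ hi
        rw [coeff_one, if_neg hi, map_zero, zero_mul]
      · intro h; simp at h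
    rw [h1] at hν0
    refine ⟨fun j i => -((ν.coeff j).coeff i), ?_⟩
    rw [eq_neg_of_add_eq_zero_right hν0, ← Finset.sum_neg_distrib]
    refine Finset.sum_congr rfl fun j _ => ?_
    rw [← Finset.sum_neg_distrib]
    refine Finset.sum_congr rfl fun i _ => ?_
    rw [map_neg, neg_mul]
  · unfold Transcendental at hρt
    rw [not_not] at hρt
    have h1 : (minpoly k ρ).degree = 1 :=
      IsAlgClosed.degree_eq_one_of_irreducible _ (minpoly.irreducible hρt.isIntegral)
    obtain ⟨c', hc'⟩ := minpoly.mem_range_of_degree_eq_one k ρ h1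
    exact hcon c' hc'.symm

end Pool.Agent.H435.CP
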