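import Pool.Agent.H435.CP.ResA

/-!
The restriction of almost all places to a finitely generated subfield.
-/

set_option autoImplicit false

open MvPolynomial FF Pool.Agent.W603.LV
open Pool.Agent.TH145.GH

namespace Pool.Agent.H435.CP

/-- The valuation `Q` of the field `F` corresponds to a prime divisor of (the normalization of) the
scheme `Spec k[T]`: the elements of `T` are regular at `Q`, and if `r + 1` is the transcendence degree
of `F` over `k`, then there are `r` elements of `k[T]` with algebraically independent residues. -/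
def IsDiv (k : Type) {F : Type} [Field k] [Field F] [Algebra k F] (T : Set F) (Q : Place k F) :
    Prop :=
  (∀ t ∈ T, Q.Reg t) ∧ ∃ (r : ℕ) (b : Fin r → F), Algebra.trdeg k F = r + 1 ∧
    (∀ i, b i ∈ Algebra.adjoin k T) ∧
    ∀ p : MvPolynomial (Fin r) k, p ≠ 0 → aeval b p ≠ 0 ∧ Q.ord (aeval b p) = 0

/-- The restriction of a place to a subfield is trivial or a multiple of a place. -/
theorem restrict_place {k F κ L : Type} [Field k] [Field F] [Algebra k F] [Field κ] [Field L]
    [Algebra κ L] (P : Place κ L) (ψ : F →+* L) (hk : ∀ c : k, c ≠ 0 → P.ord (ψ (algebraMap k F c)) = 0) :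
    (∀ z, P.ord (ψ z) = 0) ∨
    ∃ (Q : Place k F) (e : ℕ), 0 < e ∧ ∀ z, P.ord (ψ z) = e * Q.ord z := by
  classical
  by_cases h0 : ∀ z, P.ord (ψ z) = 0
  · exact Or.inl h0
  right
  push Not at h0
  obtain ⟨z0, hz0⟩ := h0
  have hψ : ∀ z, z ≠ 0 → ψ z ≠ 0 := fun z hz => (_root_.map_ne_zero _).2 hz
  let H : AddSubgroup ℤ :=
    { carrier := {n | ∃ z, z ≠ 0 ∧ P.ord (ψ z) = n}
      add_mem' := by
        rintro a b ⟨z, hz, rfl⟩ ⟨w, hw, rfl⟩
        exact ⟨z * w, mul_ne_zero hz hw, by rw [map_mul, P.ord_mul (hψ z hz) (hψ w hw)]⟩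
      zero_mem' := ⟨1, one_ne_zero, by rw [map_one, P.ord_one]⟩
      neg_mem' := by
        rintro a ⟨z, hz, rfl⟩
        exact ⟨z⁻¹, inv_ne_zero hz, by rw [map_inv₀, P.ord_inv]⟩ }
  obtain ⟨a, ha⟩ := Int.subgroup_cyclic H
  have hmem : ∀ n, n ∈ H ↔ a ∣ n := by
    intro n
    rw [ha, AddSubgroup.mem_closure_singleton]
    constructor
    · rintro ⟨m, rfl⟩
      exact ⟨m, by rw [smul_eq_mul, mul_comm]⟩
    · rintro ⟨m, rfl⟩
      exact ⟨m, by rw [smul_eq_mul, mul_comm]⟩
  have hz00 : z0 ≠ 0 := by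
    rintro rfl
    rw [map_zero, P.ord_zero] at hz0
    exact hz0 rfl
  have ha0 : a ≠ 0 := by
    rintro rfl
    have h1 := (hmem _).1 (⟨z0, hz00, rfl⟩ : P.ord (ψ z0) ∈ H)
    exact hz0 (zero_dvd_iff.1 h1)
  obtain ⟨e, he⟩ : ∃ e : ℕ, e = a.natAbs := ⟨_, rfl⟩
  have he0 : 0 < e := by rw [he]; exact Int.natAbs_pos.2 ha0
  have hez : (e : ℤ) ≠ 0 := by exact_mod_cast he0.ne'
  have hdvd : ∀ z, z ≠ 0 → (e : ℤ) ∣ P.ord (ψ z) := by
    intro z hz
    rw [he, Int.natAbs_dvd]
    exact (hmem _).1 ⟨z, hz, rfl⟩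
  have hdiv : ∀ z, P.ord (ψ z) = e * (P.ord (ψ z) / e) := by
    intro z
    by_cases hz : z = 0
    · rw [hz, map_zero, P.ord_zero]
      simp
    · exact (Int.mul_ediv_cancel' (hdvd z hz)).symm
  have hcan : ∀ a b : ℤ, (e : ℤ) * a = e * b → a = b := fun a b h => mul_left_cancel₀ hez h
  refine ⟨{ ord := fun z => P.ord (ψ z) / e
            ord_zero := by rw [map_zero, P.ord_zero]; simp
            ord_mul := ?_
            ord_add := ?_
            ord_const := ?_
            surj := ?_ }, e, he0, hdiv⟩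
  · intro f g hf hg
    apply hcan
    rw [← hdiv, mul_add, ← hdiv, ← hdiv, map_mul, P.ord_mul (hψ f hf) (hψ g hg)]
  · intro f g hf hg hfg
    have h1 := P.ord_add (hψ f hf) (hψ g hg) (by rw [← map_add]; exact hψ _ hfg)
    rw [← map_add, hdiv f, hdiv g, hdiv (f + g)] at h1
    have he1 : (0 : ℤ) < e := by exact_mod_cast he0
    rcases min_le_iff.1 h1 with h | h
    · exact min_le_iff.2 (Or.inl (le_of_mul_le_mul_left h he1))
    · exact min_le_iff.2 (Or.inr (le_of_mul_le_mul_left h he1))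
  · intro c hc
    rw [hk c hc]
    simp
  · obtain ⟨z, hz, hze⟩ : (e : ℤ) ∈ H := by
      rw [hmem, he]
      exact Int.dvd_natAbs.2 dvd_rfl
    refine ⟨z, hz, ?_⟩
    rw [hze]
    exact Int.ediv_self hez

variable {k0 K ι : Type} [Field k0] [Field K] [Algebra k0 K] [IsAlgClosed K] [CharZero K]
  {y : ι → K} (E : IntermediateField (IntermediateField.adjoin k0 (Set.range y)) K)

/-- The restriction of almost all places is trivial or a multiple of a divisor of the scheme
`Spec k[T]`. -/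
theorem restrict_div [Finite ι] (hy : IsTranscendenceBasis k0 y)
    [FiniteDimensional (IntermediateField.adjoin k0 (Set.range y)) E] {F : Type} [Field F]
    [Algebra k0 F] (ψ : F →ₐ[k0] K) (hψE : ∀ z, ψ z ∈ E) (T : Finset F)
    (hT : IntermediateField.adjoin k0 (T : Set F) = ⊤) (i : ι) :
    ∃ S : Set (Place (kap k0 y i) (LL k0 y (E : Set K) i)), S.Finite ∧ ∀ P, P ∉ S →
      (∀ z : F, P.ord (⟨ψ z, subset_LL y _ i (hψE z)⟩ : LL k0 y (E : Set K) i) = 0) ∨
      ∃ (Q : Place k0 F) (e : ℕ), 0 < e ∧ IsDiv k0 (T : Set F) Q ∧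
        ∀ z : F, P.ord (⟨ψ z, subset_LL y _ i (hψE z)⟩ : LL k0 y (E : Set K) i) = e * Q.ord z := by
  classical
  have hFF : IsFF (kap k0 y i) (LL k0 y (E : Set K) i) := LL_ff E hy.1 i
  have hac : IsAlgClosed (kap k0 y i) := acl_isAlgClosed _
  have hcz : CharZero (kap k0 y i) := charZero_of_injective_algebraMap
    (algebraMap ℚ (kap k0 y i)).injective
  have hψi : Function.Injective ψ := ψ.toRingHom.injective
  -- a transcendence basis of `F` in `T`
  have halgF : Algebra.IsAlgebraic (Algebra.adjoin k0 (T : Set F)) F := by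
    constructor
    intro x
    have h1 : x ∈ IntermediateField.adjoin k0 (T : Set F) := by rw [hT]; trivial
    obtain ⟨r, hr, s, hs, hrs⟩ := IntermediateField.mem_adjoin_iff_div.1 h1
    by_cases hs0 : s = 0
    · rw [hrs, hs0, div_zero]
      exact isAlgebraic_zero
    · rw [hrs, div_eq_mul_inv]
      exact (isAlgebraic_algebraMap (⟨r, hr⟩ : Algebra.adjoin k0 (T : Set F))).mul
        (isAlgebraic_algebraMap (⟨s, hs⟩ : Algebra.adjoin k0 (T : Set F))).inv
  obtain ⟨s, hsT, hs⟩ := exists_isTranscendenceBasis_subset (R := k0) (T : Set F)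
  have hsfin : s.Finite := T.finite_toSet.subset hsT
  -- a transcendence basis of `K` in `E` that contains the image of `s`
  have hind1 : AlgebraicIndepOn k0 id (ψ '' s) := by
    have h1 : AlgebraicIndependent k0 (ψ ∘ ((↑) : s → F)) := hs.1.map' hψi
    have h2 := h1.to_subtype_range
    have h3 : Set.range (ψ ∘ ((↑) : s → F)) = ψ '' s := by
      rw [Set.range_comp, Subtype.range_coe]
    rw [h3] at h2
    exact h2
  have halgK : Algebra.IsAlgebraic (Algebra.adjoin k0 (ψ '' s ∪ Set.range y)) K := by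
    constructor
    intro x
    refine IsAlgebraic.adjoin_of_forall_isAlgebraic (fun z hz => ?_) (hy.isAlgebraic.isAlgebraic x)
    exact absurd (Or.inr hz.1) hz.2
  obtain ⟨B, hsB, hBy, hB⟩ := exists_isTranscendenceBasis_between (R := k0) (ψ '' s)
    (ψ '' s ∪ Set.range y) Set.subset_union_left hind1
  have hBE : ∀ b ∈ B, b ∈ E := by
    intro b hb
    rcases hBy hb with ⟨z, -, rfl⟩ | ⟨j, rfl⟩
    · exact hψE z
    · exact E.algebraMap_mem ⟨y j, IntermediateField.subset_adjoin _ _ ⟨j, rfl⟩⟩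
  have hcard : Cardinal.mk B = Cardinal.mk ι := IsTranscendenceBasis.cardinalMk_eq hB hy
  have hBf : Finite B := by
    rw [← Cardinal.lt_aleph0_iff_finite, hcard]
    exact Cardinal.lt_aleph0_of_finite ι
  -- the algebraic relations
  have hrel : ∀ j, ∃ p : Polynomial (Algebra.adjoin k0 (Set.range ((↑) : B → K))),
      p ≠ 0 ∧ Polynomial.aeval (y j) p = 0 := fun j => hB.isAlgebraic.isAlgebraic (y j)
  choose p hp0 hpy using hrel
  have hadE : ∀ z ∈ Algebra.adjoin k0 (Set.range ((↑) : B → K)), z ∈ E := by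
    intro z hz
    induction hz using Algebra.adjoin_induction with
    | mem z hz =>
      obtain ⟨b, rfl⟩ := hz
      exact hBE b b.2
    | algebraMap r => exact k0_mem E r
    | add a b _ _ ha hb => exact add_mem ha hb
    | mul a b _ _ ha hb => exact mul_mem ha hb
  have hfι := Fintype.ofFinite ι
  have hfB := Fintype.ofFinite B
  obtain ⟨bL, hbL⟩ : ∃ bL : B → LL k0 y (E : Set K) i, ∀ b, bL b =
    ⟨b, subset_LL y _ i (hBE b b.2)⟩ := ⟨_, fun _ => rfl⟩
  obtain ⟨Z, hZB, hZp, hZT⟩ : ∃ Z : Finset (LL k0 y (E : Set K) i), (∀ b, bL b ∈ Z) ∧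
      (∀ j, (⟨((p j).leadingCoeff : Algebra.adjoin k0 (Set.range ((↑) : B → K))),
        subset_LL y _ i (hadE _ (p j).leadingCoeff.2)⟩ : LL k0 y (E : Set K) i) ∈ Z) ∧
      ∀ t ∈ T, (⟨ψ t, subset_LL y _ i (hψE t)⟩ : LL k0 y (E : Set K) i) ∈ Z := by
    refine ⟨Finset.univ.image bL ∪ (Finset.univ.image (fun j =>
      (⟨((p j).leadingCoeff : Algebra.adjoin k0 (Set.range ((↑) : B → K))),
        subset_LL y _ i (hadE _ (p j).leadingCoeff.2)⟩ : LL k0 y (E : Set K) i)) ∪
      T.image fun t => (⟨ψ t, subset_LL y _ i (hψE t)⟩ : LL k0 y (E : Set K) i)),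
      fun b => ?_, fun j => ?_, fun t ht => ?_⟩
    · exact Finset.mem_union_left _ (Finset.mem_image_of_mem _ (Finset.mem_univ _))
    · exact Finset.mem_union_right _ (Finset.mem_union_left _
        (Finset.mem_image_of_mem _ (Finset.mem_univ j)))
    · exact Finset.mem_union_right _ (Finset.mem_union_right _
        (Finset.mem_image_of_mem _ ht))
  obtain ⟨S, hS⟩ := exists_supp (k := kap k0 y i) Z (fun z => z)
  refine ⟨S, S.finite_toSet, fun P hP => ?_⟩
  have hord : ∀ z ∈ Z, P.ord z = 0 := fun z hz => by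
    by_contra h
    exact hP (hS z hz P h)
  have hge : ∀ z ∈ Z, Ge P 0 z := fun z hz => Or.inr (hord z hz).ge
  obtain ⟨ψL, hψL⟩ : ∃ ψL : F →+* LL k0 y (E : Set K) i, ∀ z, ψL z =
      ⟨ψ z, subset_LL y _ i (hψE z)⟩ :=
    ⟨{ toFun := fun z => ⟨ψ z, subset_LL y _ i (hψE z)⟩
       map_one' := Subtype.ext (map_one ψ)
       map_mul' := fun a b => Subtype.ext (map_mul ψ a b)
       map_zero' := Subtype.ext (map_zero ψ)
       map_add' := fun a b => Subtype.ext (map_add ψ a b) }, fun _ => rfl⟩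
  have hk0 : ∀ c : k0, c ≠ 0 → P.ord (ψL (algebraMap k0 F c)) = 0 := by
    intro c hc
    have h1 : ψL (algebraMap k0 F c) =
        algebraMap (kap k0 y i) (LL k0 y (E : Set K) i) ⟨algebraMap k0 K c, kap_base y i c⟩ := by
      rw [hψL]
      apply Subtype.ext
      exact ψ.commutes c
    rw [h1]
    refine P.ord_const fun h => hc ?_
    have h2 := congrArg Subtype.val h
    exact (_root_.map_eq_zero (algebraMap k0 K)).1 h2
  rcases restrict_place (k := k0) P ψL hk0 with h1 | ⟨Q, e, he, hQ⟩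
  · left
    intro z
    rw [← hψL]
    exact h1 z
  right
  refine ⟨Q, e, he, ⟨fun t ht => ?_, ?_⟩, fun z => by rw [← hψL]; exact hQ z⟩
  · right
    have h1 := hord _ (hZT t ht)
    rw [← hψL, hQ] at h1
    have h2 : (e : ℤ) ≠ 0 := by exact_mod_cast he.ne'
    exact ((mul_eq_zero.1 h1).resolve_left h2).ge
  -- the residues
  choose c hc using fun b => Pool.Agent.W603.LV.exists_const P (hge _ (hZB b))
  have halg : ∀ j, j ≠ i →
      IsAlgebraic (Algebra.adjoin k0 (Set.range fun b => (c b : K))) (y j) := by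
    intro j hj
    refine alg_res (kap k0 y i) (LL k0 y (E : Set K) i) (fun r => kap_base y i r) P
      (b := ((↑) : B → K)) (fun b => subset_LL y _ i (hBE b b.2)) (c := c)
      (fun b => by
        have := hc b
        rwa [hbL] at this) (kap_oth y hj) (p j) (hpy j) fun hl => ?_
    refine ⟨fun h => ?_, hord _ (hZp j)⟩
    have h2 := congrArg Subtype.val h
    have h3 : (p j).leadingCoeff = 0 := Subtype.ext h2
    exact hp0 j (Polynomial.leadingCoeff_eq_zero.1 h3)
  obtain ⟨J', hJ', hJind⟩ := indep_res hy (fun b => (c b : K)) hcard i halg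
  -- the elements of `s` with independent residues
  obtain ⟨J1, hJ1⟩ : ∃ J1 : Set B, J1 = {b : B | (b : K) ∈ ψ '' s} := ⟨_, rfl⟩
  have hJ1c : J1.ncard = s.ncard := by
    have h1 : ((↑) : B → K) '' J1 = ψ '' s := by
      ext z
      constructor
      · rintro ⟨b, hb, rfl⟩
        rw [hJ1] at hb
        exact hb
      · intro hz
        exact ⟨⟨z, hsB hz⟩, by rw [hJ1]; exact hz, rfl⟩
    rw [← Set.ncard_image_of_injective J1 Subtype.val_injective, h1,
      Set.ncard_image_of_injective s hψi]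
  have hinter : s.ncard ≤ (J1 ∩ J').ncard + 1 := by
    have h1 : Nat.card B = (Set.univ : Set B).ncard := (Set.ncard_univ B).symm
    have h2 := Set.ncard_inter_add_ncard_sdiff_eq_ncard J1 J' (Set.toFinite _)
    have h3 : (J1 \ J').ncard ≤ J'ᶜ.ncard := Set.ncard_le_ncard (fun b hb => hb.2) (Set.toFinite _)
    have h4 := Set.ncard_add_ncard_compl J'
    omega
  have hs1 : s.ncard ≠ 0 := by
    intro h0
    have h1 : s = ∅ := (Set.ncard_eq_zero hsfin).1 h0
    obtain ⟨t, ht0, ht⟩ := Q.surj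
    have h2 : Algebra.IsAlgebraic k0 F := by
      have : IsEmpty s := by rw [h1]; infer_instance
      exact (hs.isEmpty_iff_isAlgebraic).1 this
    have h3 := Q.ord_eq_zero_of_isAlgebraic ht0 (h2.isAlgebraic t)
    omega
  obtain ⟨r, hr⟩ : ∃ r, s.ncard = r + 1 := ⟨s.ncard - 1, by omega⟩
  have hr1 : r ≤ (J1 ∩ J').ncard := by omega
  obtain ⟨τ, hτi, hτ⟩ : ∃ τ : Fin r → B, Function.Injective τ ∧ ∀ l, τ l ∈ J1 ∩ J' := by
    have h1 : Cardinal.mk (Fin r) ≤ Cardinal.mk (J1 ∩ J' : Set B) := by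
      rw [Cardinal.mk_fin, ← Nat.cast_card, Nat.card_coe_set_eq]
      exact_mod_cast hr1
    obtain ⟨g⟩ := h1
    exact ⟨fun l => (g l : B), fun a b hab => g.injective (Subtype.ext hab), fun l => (g l).2⟩
  have hτs : ∀ l, ∃ z ∈ s, ψ z = τ l := fun l => by
    have := (hτ l).1
    rw [hJ1] at this
    exact this
  choose b hbs hbψ using hτs
  refine ⟨r, b, ?_, fun l => Algebra.subset_adjoin (hsT (hbs l)), fun f hf => ?_⟩
  · rw [← hs.cardinalMk_eq_trdeg]
    have h1 : Finite s := hsfin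
    rw [← Nat.cast_card, Nat.card_coe_set_eq, hr]
    push_cast
    rfl
  · have hcr : ∀ l, Ge P 1 (ψL (b l) - algebraMap _ _ (c (τ l))) := by
      intro l
      have h1 : ψL (b l) = bL (τ l) := by
        rw [hψL, hbL]
        exact Subtype.ext (hbψ l)
      rw [h1]
      exact hc (τ l)
    obtain ⟨g, hg⟩ : ∃ g : k0 →+* kap k0 y i, ∀ r, ((g r : kap k0 y i) : K) = algebraMap k0 K r :=
      ⟨(algebraMap k0 K).codRestrict (kap k0 y i) (kap_base y i), fun _ => rfl⟩
    have h1 := res_eval P hcr g f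
    have h2 : eval₂ ((algebraMap (kap k0 y i) (LL k0 y (E : Set K) i)).comp g)
        (fun l => ψL (b l)) f = ψL (aeval b f) := by
      have h3 := hom_eval₂ f (algebraMap k0 F) ψL b
      have h4 : ψL.comp (algebraMap k0 F) =
          (algebraMap (kap k0 y i) (LL k0 y (E : Set K) i)).comp g := by
        ext r
        rw [RingHom.comp_apply, RingHom.comp_apply, hψL]
        change ψ (algebraMap k0 F r) = ((g r : kap k0 y i) : K)
        rw [hg, ψ.commutes]
      rw [h4] at h3
      exact h3.symm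
    rw [h2] at h1
    have h3 : eval₂ g (fun l => c (τ l)) f ≠ 0 := by
      intro h0
      have h4 : AlgebraicIndependent k0 fun l => (c (τ l) : K) :=
        hJind.comp (fun l => (⟨τ l, (hτ l).2⟩ : J')) fun a b hab =>
          hτi (congrArg (fun z : J' => (z : B)) hab)
      apply hf
      apply h4.eq_zero_of_aeval_eq_zero
      have h5 := hom_eval₂ f g (algebraMap (kap k0 y i) K) (fun l => c (τ l))
      rw [h0, map_zero] at h5
      have h6 : (algebraMap (kap k0 y i) K).comp g = algebraMap k0 K := by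
        ext r
        exact hg r
      rw [h6] at h5
      exact h5.symm
    obtain ⟨h4, h5⟩ := unit_of_res P h3 h1
    rw [hQ] at h5
    have h6 : (e : ℤ) ≠ 0 := by exact_mod_cast he.ne'
    refine ⟨fun h => h4 (by rw [h, map_zero]), (mul_eq_zero.1 h5).resolve_left h6⟩

end Pool.Agent.H435.CP
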