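import Pool.Agent.H435.CP.Fin

/-!
Residues of algebraic relations, and a count of dimensions.
-/

set_option autoImplicit false

open MvPolynomial FF Pool.Agent.W603.LV
open Pool.Agent.TH145.GH

namespace Pool.Agent.H435.CP

/-- The residue of the value of a polynomial. -/
theorem res_eval {κ L k0 σ : Type} [Field κ] [Field L] [Algebra κ L] [Field k0] (P : Place κ L)
    {b : σ → L} {c : σ → κ} (h : ∀ s, Ge P 1 (b s - algebraMap κ L (c s))) (f : k0 →+* κ)
    (A : MvPolynomial σ k0) :
    Ge P 1 (eval₂ ((algebraMap κ L).comp f) b A - algebraMap κ L (eval₂ f c A)) := by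
  induction A using MvPolynomial.induction_on with
  | C r =>
    rw [eval₂_C, eval₂_C, RingHom.comp_apply, sub_self]
    exact Ge.zero
  | add p q hp hq =>
    rw [eval₂_add, eval₂_add, map_add]
    have h1 := hp.add hq
    have h2 : eval₂ ((algebraMap κ L).comp f) b p + eval₂ ((algebraMap κ L).comp f) b q -
        (algebraMap κ L (eval₂ f c p) + algebraMap κ L (eval₂ f c q)) =
        eval₂ ((algebraMap κ L).comp f) b p - algebraMap κ L (eval₂ f c p) +
        (eval₂ ((algebraMap κ L).comp f) b q - algebraMap κ L (eval₂ f c q)) := by ring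
    rw [h2]
    exact h1
  | mul_X p s hp =>
    rw [eval₂_mul, eval₂_mul, eval₂_X, eval₂_X, map_mul]
    have h0 : Ge P 0 (b s) := by
      have h1 := (h s).mono (by norm_num : (0 : ℤ) ≤ 1)
      have h2 := h1.add (Ge.const (P := P) (c s))
      rwa [sub_add_cancel] at h2
    have h1 := hp.mul h0
    have h2 := (Ge.const (P := P) (eval₂ f c p)).mul (h s)
    rw [add_zero] at h1
    rw [zero_add] at h2
    have h3 := h1.add h2
    have h4 : eval₂ ((algebraMap κ L).comp f) b p * b s -
        algebraMap κ L (eval₂ f c p) * algebraMap κ L (c s) =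
        (eval₂ ((algebraMap κ L).comp f) b p - algebraMap κ L (eval₂ f c p)) * b s +
        algebraMap κ L (eval₂ f c p) * (b s - algebraMap κ L (c s)) := by ring
    rw [h4]
    exact h3

/-- A constant that is `0` modulo the place is `0`. -/
theorem const_zero {κ L : Type} [Field κ] [Field L] [Algebra κ L] (P : Place κ L) {c : κ}
    (h : Ge P 1 (algebraMap κ L c)) : c = 0 := by
  by_contra hc
  rcases h with h | h
  · exact hc ((_root_.map_eq_zero _).1 h)
  · rw [P.ord_const hc] at h
    omega

/-- A unit has a nonzero residue. -/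
theorem res_unit {κ L : Type} [Field κ] [Field L] [Algebra κ L] (P : Place κ L) {a : L} {c : κ}
    (ha : a ≠ 0) (h0 : P.ord a = 0) (h : Ge P 1 (a - algebraMap κ L c)) : c ≠ 0 := by
  rintro rfl
  rw [map_zero, sub_zero] at h
  rcases h with h | h
  · exact ha h
  · omega

/-- An element with a nonzero residue is a unit. -/
theorem unit_of_res {κ L : Type} [Field κ] [Field L] [Algebra κ L] (P : Place κ L) {a : L} {c : κ}
    (hc : c ≠ 0) (h : Ge P 1 (a - algebraMap κ L c)) : a ≠ 0 ∧ P.ord a = 0 := by
  have h1 : algebraMap κ L c ≠ 0 := (_root_.map_ne_zero _).2 hc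
  have h2 : P.ord (algebraMap κ L c) = 0 := P.ord_const hc
  by_cases h3 : a - algebraMap κ L c = 0
  · have h4 : a = algebraMap κ L c := sub_eq_zero.1 h3
    rw [h4]
    exact ⟨h1, h2⟩
  · have h4 := h.resolve_left h3
    have h5 := P.ord_add_eq h1 h3 (by omega)
    have h6 : algebraMap κ L c + (a - algebraMap κ L c) = a := by ring
    rw [h6, h2] at h5
    exact h5

/-- A constant that is algebraic over a ring generated by functions is algebraic over the ring
generated by their residues. -/
theorem alg_res {K k0 σ : Type} [Field k0] [Field K] [Algebra k0 K] (κ : Subfield K)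
    (L : IntermediateField κ K) (hk : ∀ r : k0, algebraMap k0 K r ∈ κ) (P : Place κ L)
    {b : σ → K} (hbL : ∀ s, b s ∈ L) {c : σ → κ}
    (h : ∀ s, Ge P 1 ((⟨b s, hbL s⟩ : L) - algebraMap κ L (c s))) {y : K} (hy : y ∈ κ)
    (p : Polynomial (Algebra.adjoin k0 (Set.range b))) (hpy : Polynomial.aeval y p = 0)
    (hlead : ∀ hl : ((p.leadingCoeff : Algebra.adjoin k0 (Set.range b)) : K) ∈ L,
      (⟨_, hl⟩ : L) ≠ 0 ∧ P.ord (⟨_, hl⟩ : L) = 0) :
    IsAlgebraic (Algebra.adjoin k0 (Set.range fun s => (c s : K))) y := by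
  classical
  obtain ⟨f, hf⟩ : ∃ f : k0 →+* κ, ∀ r, ((f r : κ) : K) = algebraMap k0 K r :=
    ⟨(algebraMap k0 K).codRestrict κ hk, fun _ => rfl⟩
  have hc1 : ∀ a : Algebra.adjoin k0 (Set.range b), ∃ A : MvPolynomial σ k0, aeval b A = (a : K) := by
    rintro ⟨a, h1⟩
    rw [Algebra.adjoin_range_eq_range_aeval] at h1
    obtain ⟨A, hA⟩ := h1
    exact ⟨A, hA⟩
  choose A hA using fun l => hc1 (p.coeff l)
  -- the values
  have hval : ∀ l, ((eval₂ ((algebraMap κ L).comp f) (fun s => (⟨b s, hbL s⟩ : L)) (A l) : L) : K) =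
      ((p.coeff l : Algebra.adjoin k0 (Set.range b)) : K) := by
    intro l
    rw [← hA]
    have h1 := hom_eval₂ (A l) ((algebraMap κ L).comp f) (algebraMap L K)
      (fun s => (⟨b s, hbL s⟩ : L))
    refine h1.trans ?_
    have h2 : (algebraMap L K).comp ((algebraMap κ L).comp f) = algebraMap k0 K := by
      ext r
      exact hf r
    rw [h2]
    rfl
  have hvalc : ∀ l, ((eval₂ f c (A l) : κ) : K) = aeval (fun s => (c s : K)) (A l) := by
    intro l
    have h1 := hom_eval₂ (A l) f (algebraMap κ K) c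
    refine h1.trans ?_
    have h2 : (algebraMap κ K).comp f = algebraMap k0 K := by
      ext r
      exact hf r
    rw [h2]
    rfl
  have hcm : ∀ l, aeval (fun s => (c s : K)) (A l) ∈
      Algebra.adjoin k0 (Set.range fun s => (c s : K)) := by
    intro l
    rw [Algebra.adjoin_range_eq_range_aeval]
    exact ⟨A l, rfl⟩
  obtain ⟨m, hm⟩ : ∃ m, m = p.natDegree := ⟨_, rfl⟩
  obtain ⟨q, hq⟩ : ∃ q : Polynomial (Algebra.adjoin k0 (Set.range fun s => (c s : K))),
    q = ∑ l ∈ Finset.range (m + 1), Polynomial.monomial l ⟨_, hcm l⟩ := ⟨_, rfl⟩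
  refine ⟨q, ?_, ?_⟩
  · intro h0
    have h1 : q.coeff m = ⟨_, hcm m⟩ := by
      rw [hq, Polynomial.finsetSum_coeff, Finset.sum_eq_single m]
      · rw [Polynomial.coeff_monomial, if_pos rfl]
      · intro l _ hl
        rw [Polynomial.coeff_monomial, if_neg hl]
      · intro h; exact absurd (Finset.mem_range.2 (Nat.lt_succ_self m)) h
    rw [h0, Polynomial.coeff_zero] at h1
    have h2 : aeval (fun s => (c s : K)) (A m) = 0 := (congrArg Subtype.val h1).symm
    have h3 : (eval₂ f c (A m) : κ) = 0 := by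
      apply Subtype.ext
      rw [hvalc, h2]
      rfl
    have h4 := res_eval P h f (A m)
    have h5 := hval m
    have h6 : p.coeff m = p.leadingCoeff := by rw [hm]; rfl
    rw [h6] at h5
    obtain ⟨h7, h8⟩ := hlead (by rw [← h5]; exact Subtype.property _)
    have h9 : (⟨((p.leadingCoeff : Algebra.adjoin k0 (Set.range b)) : K), by
        rw [← h5]; exact Subtype.property _⟩ : L) =
        eval₂ ((algebraMap κ L).comp f) (fun s => (⟨b s, hbL s⟩ : L)) (A m) := Subtype.ext h5.symm
    rw [h9] at h7 h8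
    exact res_unit P h7 h8 h4 h3
  · have h1 : Polynomial.aeval y q = ∑ l ∈ Finset.range (m + 1), ((eval₂ f c (A l) : κ) : K) * y ^ l := by
      rw [hq, map_sum]
      refine Finset.sum_congr rfl fun l _ => ?_
      rw [Polynomial.aeval_monomial, hvalc]
      rfl
    have h2 : ∑ l ∈ Finset.range (m + 1),
        ((eval₂ ((algebraMap κ L).comp f) (fun s => (⟨b s, hbL s⟩ : L)) (A l) : L) : K) * y ^ l = 0 := by
      rw [Polynomial.aeval_eq_sum_range, ← hm] at hpy
      rw [← hpy]
      refine Finset.sum_congr rfl fun l _ => ?_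
      rw [hval]
      rfl
    obtain ⟨y', hy'⟩ : ∃ y' : κ, y' = ⟨y, hy⟩ := ⟨_, rfl⟩
    have h3 : (∑ l ∈ Finset.range (m + 1), eval₂ f c (A l) * y' ^ l : κ) = 0 := by
      apply const_zero P
      have h4 : ∀ l ∈ Finset.range (m + 1), Ge P 1
          ((eval₂ ((algebraMap κ L).comp f) (fun s => (⟨b s, hbL s⟩ : L)) (A l) -
            algebraMap κ L (eval₂ f c (A l))) * algebraMap κ L (y' ^ l)) := fun l _ => by
        have := (res_eval P h f (A l)).mul (Ge.const (P := P) (y' ^ l))
        rwa [add_zero] at this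
      have h5 := Ge.sum (P := P) _ _ h4
      have h6 : ∑ l ∈ Finset.range (m + 1),
          ((eval₂ ((algebraMap κ L).comp f) (fun s => (⟨b s, hbL s⟩ : L)) (A l) -
            algebraMap κ L (eval₂ f c (A l))) * algebraMap κ L (y' ^ l)) =
          -algebraMap κ L (∑ l ∈ Finset.range (m + 1), eval₂ f c (A l) * y' ^ l : κ) := by
        have h7 : ∑ l ∈ Finset.range (m + 1),
          (eval₂ ((algebraMap κ L).comp f) (fun s => (⟨b s, hbL s⟩ : L)) (A l)) *
            algebraMap κ L (y' ^ l) = 0 := by
          apply Subtype.ext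
          refine Eq.trans ?_ h2
          rw [AddSubmonoidClass.coe_finsetSum]
          refine Finset.sum_congr rfl fun l _ => ?_
          rw [hy', map_pow]
          rfl
        simp only [sub_mul]
        rw [Finset.sum_sub_distrib, h7, zero_sub, map_sum]
        simp only [map_mul]
      rw [h6] at h5
      have h8 := h5.neg
      rwa [neg_neg] at h8
    have h4 := congrArg (fun z : κ => (z : K)) h3
    rw [h1]
    have h5 : ((∑ l ∈ Finset.range (m + 1), eval₂ f c (A l) * y' ^ l : κ) : K) =
        ∑ l ∈ Finset.range (m + 1), ((eval₂ f c (A l) : κ) : K) * y ^ l := by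
      rw [AddSubmonoidClass.coe_finsetSum]
      refine Finset.sum_congr rfl fun l _ => ?_
      rw [hy']
      rfl
    rw [← h5]
    exact h4

/-- If all but one of the elements of a transcendence basis are algebraic over the ring generated by
the `c j`, then all but one of the `c j` are algebraically independent. -/
theorem indep_res {k0 K ι J : Type} [Field k0] [Field K] [Algebra k0 K] [Finite J] {y : ι → K}
    (hy : IsTranscendenceBasis k0 y) (c : J → K) (hJ : Cardinal.mk J = Cardinal.mk ι) (i : ι)
    (hc : ∀ j, j ≠ i → IsAlgebraic (Algebra.adjoin k0 (Set.range c)) (y j)) :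
    ∃ J' : Set J, Nat.card J ≤ J'.ncard + 1 ∧ AlgebraicIndependent k0 fun j : J' => c j := by
  classical
  obtain ⟨S1, hS1⟩ : ∃ S1 : Set K, S1 = Set.range c ∪ {y i} := ⟨_, rfl⟩
  have halg : Algebra.IsAlgebraic (Algebra.adjoin k0 S1) K := by
    constructor
    intro x
    have h1 := hy.isAlgebraic.isAlgebraic x
    refine IsAlgebraic.adjoin_of_forall_isAlgebraic (fun z hz => ?_) h1
    obtain ⟨⟨j, rfl⟩, hz⟩ := hz
    by_cases hj : j = i
    · exfalso
      apply hz
      rw [hS1, hj]
      exact Or.inr rfl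
    · have h2 := hc j hj
      refine IsAlgebraic.adjoin_of_forall_isAlgebraic (s := Set.range c) (fun z hz => ?_) h2
      exfalso
      apply hz.2
      rw [hS1]
      exact Or.inl hz.1
  obtain ⟨u, hu, hub⟩ := exists_isTranscendenceBasis_subset (R := k0) S1
  have hcard : Cardinal.mk u = Cardinal.mk J := by
    rw [hJ]
    exact IsTranscendenceBasis.cardinalMk_eq hub hy
  obtain ⟨u', hu'⟩ : ∃ u' : Set K, u' = u \ {y i} := ⟨_, rfl⟩
  have h1 : ∀ x : u', ∃ j, c j = x := by
    rintro ⟨x, hx⟩
    rw [hu'] at hx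
    have h2 := hu hx.1
    rw [hS1] at h2
    rcases h2 with ⟨j, hj⟩ | h2
    · exact ⟨j, hj⟩
    · exact absurd h2 hx.2
  choose σ hσ using h1
  have hσi : Function.Injective σ := by
    intro a b hab
    apply Subtype.ext
    rw [← hσ, ← hσ, hab]
  have hJf : Finite u := by
    rw [← Cardinal.lt_aleph0_iff_finite, hcard]
    exact Cardinal.lt_aleph0_of_finite J
  have hufin : u.Finite := Set.toFinite u
  refine ⟨Set.range σ, ?_, ?_⟩
  · have h2 : (Set.range σ).ncard = u'.ncard := by
      rw [← Nat.card_coe_set_eq, ← Nat.card_coe_set_eq]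
      exact (Nat.card_congr (Equiv.ofInjective σ hσi)).symm
    have h3 : u.ncard ≤ u'.ncard + 1 := by
      rw [hu']
      have h4 := Set.ncard_le_ncard_sdiff_add_ncard u {y i} (Set.toFinite _)
      rwa [Set.ncard_singleton] at h4
    have h4 : Nat.card J = u.ncard := by
      rw [← Nat.card_coe_set_eq]
      unfold Nat.card
      rw [hcard]
    omega
  · have h2 : AlgebraicIndependent k0 (fun x : u' => (x : K)) := by
      have h3 : ∀ x : u', (x : K) ∈ u := fun ⟨x, hx⟩ => by
        rw [hu'] at hx
        exact hx.1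
      have h4 := hub.1.comp (fun x : u' => (⟨x, h3 x⟩ : u)) (fun a b hab => by
        apply Subtype.ext
        have h5 := congrArg (fun z : u => (z : K)) hab
        exact h5)
      exact h4
    obtain ⟨e, he⟩ : ∃ e : Set.range σ ≃ u', e = (Equiv.ofInjective σ hσi).symm := ⟨_, rfl⟩
    have h3 : (fun j : Set.range σ => c j) = (fun x : u' => (x : K)) ∘ e := by
      funext j
      obtain ⟨j, x, rfl⟩ := j
      rw [Function.comp_apply, he]
      have h4 : (Equiv.ofInjective σ hσi).symm ⟨σ x, x, rfl⟩ = x := by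
        apply (Equiv.ofInjective σ hσi).injective
        rw [Equiv.apply_symm_apply]
        rfl
      rw [h4]
      exact hσ x
    rw [h3]
    exact h2.comp e e.injective

end Pool.Agent.H435.CP
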