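import Pool.Graph.R_seed8.TH145.GK.Setup
import Pool.Agent.H435.CP.Res

/-!
The finitely generated fields, and derivations dual to the coefficients of the forms.
-/

set_option autoImplicit false

open MvPolynomial Pool.Agent.TH145.GH
open Pool.Agent.TH145.GD (St deg_St)

open Pool.Agent.TH145.GK (Gen)

namespace Pool.Agent.H435.CP

/-- The finite Galois extension, and the dual derivations. -/
theorem exists_setup {k0 K ι : Type} [Field k0] [Field K] [Algebra k0 K] [IsAlgClosed K]
    [CharZero K] {y : ι → K} (hy : IsTranscendenceBasis k0 y) {n : ℕ} {A : Type} {dg : A → ℕ}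
    {J : A → Type} [∀ a, Fintype (J a)] (P : ∀ a, J a → MvPolynomial (Fin (n + 1)) k0)
    (hP : ∀ a j, (P a j).IsHomogeneous (dg a))
    (c0 : Fin (n + 1)) (hSt : ∀ a, ∀ I ∈ St c0 (dg a), ∃ j, P a j = monomial I 1)
    {cf : ∀ a, J a → K} {F : A → MvPolynomial (Fin (n + 1)) K}
    (hF : ∀ a, F a = ∑ j, C (cf a j) * map (algebraMap k0 K) (P a j))
    (s : (Σ a, J a) → ι) (hs : Function.Injective s)
    (hFs : ∀ p : (Σ a, J a), cf p.1 p.2 = y (s p)) (T : Finset K) :
    ∃ (E : IntermediateField (IntermediateField.adjoin k0 (Set.range y)) K)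
      (F1 : A → MvPolynomial (Fin (n + 1)) E.toSubfield)
      (DE : A → (Fin (n + 1) →₀ ℕ) → E.toSubfield → E.toSubfield)
      (D : A → (Fin (n + 1) →₀ ℕ) → Derivation ℤ K K),
      FiniteDimensional (IntermediateField.adjoin k0 (Set.range y)) E ∧
      IsGalois (IntermediateField.adjoin k0 (Set.range y)) E ∧ Gen c0 F1 dg DE ∧
      (∀ a I (x : E.toSubfield), D a I x = (DE a I x : K)) ∧
      (∀ a I (r : k0), D a I (algebraMap k0 K r) = 0) ∧
      (∀ a I j, ∃ r : k0, D a I (y j) = algebraMap k0 K r) ∧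
      (∀ a, ∀ I ∈ St c0 (dg a), ∃ i, ∀ j, j ≠ i → D a I (y j) = 0) ∧
      (∀ a, map E.toSubfield.subtype (F1 a) = F a) ∧ ∀ t ∈ T, t ∈ E := by
  classical
  have hck : CharZero k0 := by
    constructor
    intro a b hab
    have h1 := congrArg (algebraMap k0 K) hab
    rw [map_natCast, map_natCast] at h1
    exact Nat.cast_injective h1
  set R := IntermediateField.adjoin k0 (Set.range y) with hR
  have hcR : CharZero R := charZero_of_injective_algebraMap (algebraMap k0 R).injective
  have halg : Algebra.IsAlgebraic R K := hy.isAlgebraic_field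
  have hfin0 : FiniteDimensional R (IntermediateField.adjoin R (T : Set K)) := by
    have : Finite (T : Set K) := T.finite_toSet
    exact IntermediateField.finiteDimensional_adjoin fun x _ =>
      (halg.isAlgebraic x).isIntegral
  obtain ⟨E, hE⟩ : ∃ E : IntermediateField R K,
    E = IntermediateField.normalClosure R (IntermediateField.adjoin R (T : Set K)) K := ⟨_, rfl⟩
  have hclo : IsAlgClosure R K := ⟨inferInstance, halg⟩
  have hnK : Normal R K := IsAlgClosure.normal R K
  have hfin : FiniteDimensional R E := by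
    rw [hE]; infer_instance
  have hnE : Normal R E := by
    rw [hE]; infer_instance
  have hgal : IsGalois R E := { }
  have hTE : ∀ t ∈ T, t ∈ E := by
    intro t ht
    rw [hE]
    exact (IntermediateField.le_normalClosure _) (IntermediateField.subset_adjoin _ _ ht)
  -- the derivations
  choose jI hjI using hSt
  have hD : ∀ (a : A) (I : Fin (n + 1) →₀ ℕ), ∃ D : Derivation k0 K K, ∀ j, D (y j) =
      if ∃ h : I ∈ St c0 (dg a), s ⟨a, jI a I h⟩ = j then 1 else 0 := fun a I =>
    Pool.Agent.W602.GT.exists_der y hy _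
  choose D hD using hD
  have hD' : ∀ a I (r : k0), D a I (algebraMap k0 K r) = 0 := fun a I r =>
    (D a I).map_algebraMap r
  have hDy : ∀ a I j, ∃ r : k0, D a I (y j) = algebraMap k0 K r := by
    intro a I j
    rw [hD]
    split_ifs
    · exact ⟨1, (map_one _).symm⟩
    · exact ⟨0, (map_zero _).symm⟩
  have hDR : ∀ a I x, x ∈ R.toSubfield → (D a I).restrictScalars ℤ x ∈ R.toSubfield := by
    intro a I x hx
    rw [hR, IntermediateField.adjoin_toSubfield] at hx
    refine der_closure ((D a I).restrictScalars ℤ) ?_ hx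
    rintro z (⟨r, rfl⟩ | ⟨j, rfl⟩)
    · refine ⟨R.algebraMap_mem r, ?_⟩
      change D a I _ ∈ _
      rw [hD']
      exact zero_mem _
    · refine ⟨IntermediateField.subset_adjoin _ _ ⟨j, rfl⟩, ?_⟩
      change D a I _ ∈ _
      obtain ⟨r, hr⟩ := hDy a I j
      rw [hr]
      exact R.algebraMap_mem r
  have hDE : ∀ a I x, x ∈ E.toSubfield → (D a I).restrictScalars ℤ x ∈ E.toSubfield := by
    intro a I x hx
    refine (isDer_top ((D a I).restrictScalars ℤ)).mem_of_alg E.toSubfield trivial hx ?_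
    have h1 : IsAlgebraic R.toSubfield x := halg.isAlgebraic x
    refine Pool.Agent.TH145.MF.alg_mono ?_ h1
    intro z hz
    exact ⟨trivial, E.algebraMap_mem ⟨z, hz⟩, E.algebraMap_mem ⟨_, hDR a I z hz⟩⟩
  have hcoe : ∀ a u, (F a).coeff u = ∑ j, cf a j * algebraMap k0 K ((P a j).coeff u) := by
    intro a u
    rw [hF, coeff_sum]
    refine Finset.sum_congr rfl fun j _ => ?_
    rw [coeff_C_mul, coeff_map]
  have hFE : ∀ a u, (F a).coeff u ∈ E.toSubfield := by
    intro a u
    rw [hcoe]
    refine sum_mem fun j _ => mul_mem ?_ ?_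
    · rw [hFs ⟨a, j⟩]
      exact E.algebraMap_mem ⟨_, IntermediateField.subset_adjoin _ _ ⟨_, rfl⟩⟩
    · exact E.algebraMap_mem (algebraMap k0 R _)
  have hFh : ∀ a, (F a).IsHomogeneous (dg a) := by
    intro a
    rw [hF]
    refine IsHomogeneous.sum _ _ _ fun j _ => ?_
    have := (isHomogeneous_C (Fin (n + 1)) (cf a j)).mul ((hP a j).map (algebraMap k0 K))
    rwa [zero_add] at this
  choose F1 hF1 using fun a => lift_poly E.toSubfield (F a) (hFE a)
  refine ⟨E, F1, fun a I x => ⟨_, hDE a I x x.2⟩, fun a I => (D a I).restrictScalars ℤ, hfin,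
    hgal, ⟨fun a => ?_, ?_⟩, fun _ _ _ => rfl, hD', hDy, fun a I hI => ?_, hF1, hTE⟩
  · refine MvPolynomial.IsHomogeneous.of_map (f := E.toSubfield.subtype) Subtype.val_injective ?_
    rw [hF1]
    exact hFh a
  · intro a b I I' hI _
    have h1 : (((F1 b).coeff I' : E.toSubfield) : K) =
        ∑ j, y (s ⟨b, j⟩) * algebraMap k0 K ((P b j).coeff I') := by
      have h2 : (((F1 b).coeff I' : E.toSubfield) : K) = (F b).coeff I' := by
        rw [← hF1, coeff_map]
        rfl
      rw [h2, hcoe]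
      exact Finset.sum_congr rfl fun j _ => by rw [hFs ⟨b, j⟩]
    have h2 : (D a I) (((F1 b).coeff I' : E.toSubfield) : K) =
        ∑ j, (if s ⟨a, jI a I hI⟩ = s ⟨b, j⟩ then 1 else 0) *
          algebraMap k0 K ((P b j).coeff I') := by
      rw [h1, map_sum]
      refine Finset.sum_congr rfl fun j _ => ?_
      rw [(D a I).leibniz, hD', smul_zero, zero_add, hD, smul_eq_mul, mul_comm]
      congr 1
      by_cases h : s ⟨a, jI a I hI⟩ = s ⟨b, j⟩
      · rw [if_pos h, if_pos ⟨hI, h⟩]
      · rw [if_neg h, if_neg fun h' => h h'.2]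
    constructor
    · intro hab hIJ
      apply Subtype.ext
      change (D a I) (((F1 b).coeff I' : E.toSubfield) : K) = 1
      subst hab
      subst hIJ
      rw [h2, Finset.sum_eq_single (jI a I hI)]
      · rw [if_pos rfl, hjI, coeff_monomial, if_pos rfl, map_one, one_mul]
      · intro j _ hj
        rw [if_neg, zero_mul]
        intro h
        apply hj
        exact (eq_of_heq (Sigma.mk.inj_iff.1 (hs h)).2).symm
      · intro h; exact absurd (Finset.mem_univ _) h
    · intro hIJ
      apply Subtype.ext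
      change (D a I) (((F1 b).coeff I' : E.toSubfield) : K) = 0
      rw [h2]
      refine Finset.sum_eq_zero fun j _ => ?_
      by_cases h : s ⟨a, jI a I hI⟩ = s ⟨b, j⟩
      · have h4 := hs h
        obtain rfl : a = b := congrArg Sigma.fst h4
        obtain rfl : jI a I hI = j := eq_of_heq (Sigma.mk.inj_iff.1 h4).2
        rcases hIJ with h | h
        · exact absurd rfl h
        · rw [hjI, coeff_monomial, if_neg h, map_zero, mul_zero]
      · rw [if_neg h, zero_mul]
  · refine ⟨s ⟨a, jI a I hI⟩, fun j hj => ?_⟩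
    change D a I (y j) = 0
    rw [hD, if_neg]
    rintro ⟨h, h'⟩
    exact hj h'.symm

/-- Everything that is needed over a field generated by a finite set over `k0`. -/
theorem exists_all {k0 K : Type} [Field k0] [Field K] [Algebra k0 K] [IsAlgClosed K] [CharZero K]
    {n : ℕ} {A : Type} [Finite A] {dg : A → ℕ}
    {J : A → Type} [∀ a, Fintype (J a)] (P : ∀ a, J a → MvPolynomial (Fin (n + 1)) k0)
    (hP : ∀ a j, (P a j).IsHomogeneous (dg a))
    (c0 : Fin (n + 1)) (hSt : ∀ a, ∀ I ∈ St c0 (dg a), ∃ j, P a j = monomial I 1)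
    {cf : ∀ a, J a → K} {F : A → MvPolynomial (Fin (n + 1)) K}
    (hF : ∀ a, F a = ∑ j, C (cf a j) * map (algebraMap k0 K) (P a j))
    (hind : AlgebraicIndependent k0 fun p : (Σ a, J a) => cf p.1 p.2)
    (T : Finset K) :
    ∃ (B : Set K) (_ : B.Finite) (K1 : IntermediateField (IntermediateField.adjoin k0 B) K)
      (y : B → K1) (E : IntermediateField (IntermediateField.adjoin k0 (Set.range y)) K1)
      (F1 : A → MvPolynomial (Fin (n + 1)) E.toSubfield)
      (DE : A → (Fin (n + 1) →₀ ℕ) → E.toSubfield → E.toSubfield)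
      (D : A → (Fin (n + 1) →₀ ℕ) → Derivation ℤ K1 K1),
      IsAlgClosed K1 ∧ CharZero K1 ∧ IsTranscendenceBasis k0 y ∧
      FiniteDimensional (IntermediateField.adjoin k0 (Set.range y)) E ∧
      IsGalois (IntermediateField.adjoin k0 (Set.range y)) E ∧ Gen c0 F1 dg DE ∧
      (∀ a I (x : E.toSubfield), D a I x = (DE a I x : K1)) ∧
      (∀ a I (r : k0), D a I (algebraMap k0 K1 r) = 0) ∧
      (∀ a I j, ∃ r : k0, D a I (y j) = algebraMap k0 K1 r) ∧
      (∀ a, ∀ I ∈ St c0 (dg a), ∃ i, ∀ j, j ≠ i → D a I (y j) = 0) ∧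
      (∀ a, map ((algebraMap K1 K).comp E.toSubfield.subtype) (F1 a) = F a) ∧
      ∀ t ∈ IntermediateField.adjoin k0 (T : Set K), ∃ e : K1, e ∈ E ∧ (e : K) = t := by
  classical
  obtain ⟨B, hB, K1, y, s, hK1, hy, hys, hs, hTK⟩ := exists_closed hind T
  have hc : CharZero K1 := by
    constructor
    intro a b hab
    have h1 := congrArg (algebraMap K1 K) hab
    rw [map_natCast, map_natCast] at h1
    exact Nat.cast_injective h1
  obtain ⟨F0, hF0'⟩ : ∃ F0 : A → MvPolynomial (Fin (n + 1)) K1, ∀ a, F0 a =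
      ∑ j, C (y (s ⟨a, j⟩)) * map (algebraMap k0 K1) (P a j) := ⟨_, fun _ => rfl⟩
  have hF0 : ∀ a, map (algebraMap K1 K) (F0 a) = F a := by
    intro a
    rw [hF0', hF, map_sum]
    refine Finset.sum_congr rfl fun j _ => ?_
    have hyj : algebraMap K1 K (y (s ⟨a, j⟩)) = cf a j := hys ⟨a, j⟩
    rw [map_mul, map_C, hyj, map_map]
    rfl
  have hinj : Function.Injective (algebraMap K1 K) := (algebraMap K1 K).injective
  obtain ⟨T1, hT1⟩ : ∃ T1 : Finset K1, ∀ t ∈ T, ∃ t1 ∈ T1, (t1 : K) = t := by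
    refine ⟨T.preimage (fun x : K1 => (x : K)) hinj.injOn, fun t ht => ?_⟩
    refine ⟨⟨t, hTK t ht⟩, ?_, rfl⟩
    rw [Finset.mem_preimage]; exact ht
  obtain ⟨E, F1, DE, D, h1, h2, h3, h4, h5, h6, h6', h7, h8⟩ := exists_setup hy P hP c0 hSt
    (cf := fun a j => y (s ⟨a, j⟩)) hF0' s hs (fun p => rfl) T1
  refine ⟨B, hB, K1, y, E, F1, DE, D, hK1, hc, hy, h1, h2, h3, h4, h5, h6, h6', fun a => ?_, ?_⟩
  · rw [← map_map, h7, hF0]
  · intro t ht
    have h9 : t ∈ Subfield.closure (Set.range (algebraMap k0 K) ∪ (T : Set K)) := by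
      rw [← IntermediateField.adjoin_toSubfield]
      exact ht
    have h10 : Subfield.closure (Set.range (algebraMap k0 K) ∪ (T : Set K)) ≤
        E.toSubfield.map (algebraMap K1 K) := by
      rw [Subfield.closure_le]
      rintro z (⟨r, rfl⟩ | hz)
      · exact ⟨algebraMap k0 K1 r, E.algebraMap_mem (algebraMap k0 _ r), rfl⟩
      · obtain ⟨t1, ht1, htz⟩ := hT1 z hz
        exact ⟨t1, h8 t1 ht1, htz⟩
    obtain ⟨e, he, het⟩ := h10 h9
    exact ⟨e, he, het⟩

end Pool.Agent.H435.CP
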